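import Pool.Agent.Lib.MP_bcd198_co.M.Base

/-!
# MP_bcd198_co, stream M, job Ball: balls in the triangle group, actions given by maps

All elementary.  `ballT p q l` = products of at most `l` generators (lists of `Fin 3`); the
generators are involutions (relators `a^2, b^2, c^2`, use `PresentedGroup.one_of_mem`), so the
inverse of a product of a list is the product of the reversed list.  The lists of length `≤ l`
over `Fin 3` are finitely many (`List.finite_length_le`).  Every element of a presented group is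
a product of generators and their inverses (`PresentedGroup.induction_on`,
`FreeGroup.induction_on` or `Subgroup.closure_induction` with `PresentedGroup.closure_range_of`).
`mapHom h` sends the generators to `a, b, c` (`PresentedGroup.toGroup.of`).
-/

set_option autoImplicit false

namespace MPbcd198.M

open Equiv

variable {p q : ℕ}

theorem gen_sq (i : Fin 3) : gen p q i * gen p q i = 1 := by
  have h : FreeGroup.of i ^ 2 ∈ triRels p q := by
    fin_cases i <;> simp [triRels]
  have h2 := PresentedGroup.one_of_mem h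
  rw [pow_two] at h2
  exact h2

theorem gen_inv (i : Fin 3) : (gen p q i)⁻¹ = gen p q i := by
  exact inv_eq_of_mul_eq_one_right (gen_sq i)

theorem one_mem_ball (l : ℕ) : (1 : Tri p q) ∈ ballT p q l := by
  exact ⟨[], by simp, by simp⟩

theorem gen_mem_ball (i : Fin 3) {l : ℕ} (hl : 1 ≤ l) : gen p q i ∈ ballT p q l := by
  exact ⟨[i], by simpa using hl, by simp⟩

theorem ball_mono {k l : ℕ} (h : k ≤ l) : ballT p q k ⊆ ballT p q l := by
  rintro g ⟨w, hw, rfl⟩
  exact ⟨w, hw.trans h, rfl⟩

theorem ball_mul {k l : ℕ} {g h : Tri p q} (hg : g ∈ ballT p q k) (hh : h ∈ ballT p q l) :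
    g * h ∈ ballT p q (k + l) := by
  obtain ⟨w, hw, rfl⟩ := hg
  obtain ⟨w', hw', rfl⟩ := hh
  exact ⟨w ++ w', by simpa using Nat.add_le_add hw hw', by simp⟩

theorem ball_inv {l : ℕ} {g : Tri p q} (hg : g ∈ ballT p q l) : g⁻¹ ∈ ballT p q l := by
  obtain ⟨w, hw, rfl⟩ := hg
  refine ⟨w.reverse, by simpa using hw, ?_⟩
  have key : ∀ w : List (Fin 3), (w.reverse.map (gen p q)).prod = ((w.map (gen p q)).prod)⁻¹ := by
    intro w
    induction w with
    | nil => simp
    | cons s w ih =>
      rw [List.reverse_cons, List.map_append, List.prod_append, ih]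
      simp [gen_inv, mul_inv_rev]
  exact key w

theorem ball_finite (l : ℕ) : (ballT p q l).Finite := by
  have h : {w : List (Fin 3) | w.length ≤ l}.Finite := List.finite_length_le (Fin 3) l
  refine (h.image fun w => (w.map (gen p q)).prod).subset ?_
  rintro g ⟨w, hw, rfl⟩
  exact ⟨w, hw, rfl⟩

theorem exists_ball (g : Tri p q) : ∃ l, g ∈ ballT p q l := by
  have hg : g ∈ Subgroup.closure (Set.range (gen p q)) := by
    have h := PresentedGroup.closure_range_of (triRels p q)
    have h2 : Set.range (gen p q) = Set.range (PresentedGroup.of (rels := triRels p q)) := rfl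
    rw [h2, h]
    trivial
  induction hg using Subgroup.closure_induction with
  | mem x hx =>
    obtain ⟨i, rfl⟩ := hx
    exact ⟨1, gen_mem_ball i le_rfl⟩
  | one => exact ⟨0, one_mem_ball 0⟩
  | mul x y _ _ hx hy =>
    obtain ⟨k, hk⟩ := hx
    obtain ⟨l, hl⟩ := hy
    exact ⟨k + l, ball_mul hk hl⟩
  | inv x _ hx =>
    obtain ⟨k, hk⟩ := hx
    exact ⟨k, ball_inv hk⟩

/-- a finite set of elements lies in a ball -/
theorem finite_subset_ball {s : Set (Tri p q)} (hs : s.Finite) : ∃ l, s ⊆ ballT p q l := by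
  induction s, hs using Set.Finite.induction_on with
  | empty => exact ⟨0, by simp⟩
  | @insert a s _ _ ih =>
    obtain ⟨l, hl⟩ := ih
    obtain ⟨k, hk⟩ := exists_ball a
    refine ⟨k + l, ?_⟩
    intro x hx
    rcases Set.mem_insert_iff.mp hx with rfl | hx
    · exact ball_mono (Nat.le_add_right _ _) hk
    · exact ball_mono (Nat.le_add_left _ _) (hl hx)

/-- relation `(ab)^p = 1` -/
theorem gen_ab_pow : (gen p q 0 * gen p q 1) ^ p = 1 := by
  have h : (FreeGroup.of 0 * FreeGroup.of 1) ^ p ∈ triRels p q := by simp [triRels]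
  have h2 := PresentedGroup.one_of_mem h
  rw [map_pow, map_mul] at h2
  exact h2

/-- relation `(bc)^q = 1` -/
theorem gen_bc_pow : (gen p q 1 * gen p q 2) ^ q = 1 := by
  have h : (FreeGroup.of 1 * FreeGroup.of 2) ^ q ∈ triRels p q := by simp [triRels]
  have h2 := PresentedGroup.one_of_mem h
  rw [map_pow, map_mul] at h2
  exact h2

/-- the vertex subgroup is finite: its elements are `(bc)^j b^ε` with `j < q`, `ε < 2` -/
theorem vSub_finite (hq : 0 < q) : (vSub p q : Set (Tri p q)).Finite := by
  set r : Tri p q := gen p q 1 * gen p q 2 with hr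
  have hrq : r ^ q = 1 := gen_bc_pow
  have hinvr : r⁻¹ = gen p q 2 * gen p q 1 := by
    rw [hr, mul_inv_rev, gen_inv, gen_inv]
  have hb : gen p q 1 * r = r⁻¹ * gen p q 1 := by
    rw [hinvr, hr, ← mul_assoc, gen_sq, one_mul, mul_assoc, gen_sq, mul_one]
  have hbz : ∀ k : ℤ, gen p q 1 * r ^ k = r ^ (-k) * gen p q 1 := by
    intro k
    have h1 : gen p q 1 * r * (gen p q 1)⁻¹ = r⁻¹ := by
      rw [hb, mul_inv_cancel_right]
    have h2 : gen p q 1 * r ^ k * (gen p q 1)⁻¹ = r ^ (-k) := by
      rw [← conj_zpow, h1, inv_zpow, zpow_neg]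
    rw [← h2, inv_mul_cancel_right]
  have hc : gen p q 2 = r⁻¹ * gen p q 1 := by
    rw [hinvr, mul_assoc, gen_sq, mul_one]
  -- all elements are of the form r^k b^ε
  have hform : ∀ g ∈ vSub p q, ∃ (k : ℤ) (e : Bool), g = r ^ k * (if e then gen p q 1 else 1) := by
    intro g hg
    unfold vSub at hg
    induction hg using Subgroup.closure_induction_left with
    | one => exact ⟨0, false, by simp⟩
    | mul_left x hx y _ ih =>
      obtain ⟨k, e, rfl⟩ := ih
      have hbb : ∀ (k : ℤ) (e : Bool), ∃ (k' : ℤ) (e' : Bool),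
          gen p q 1 * (r ^ k * (if e then gen p q 1 else 1)) =
            r ^ k' * (if e' then gen p q 1 else 1) := by
        intro k e
        refine ⟨-k, !e, ?_⟩
        rw [← mul_assoc, hbz]
        cases e
        · simp
        · simp [mul_assoc, gen_sq]
      simp only [Set.mem_insert_iff, Set.mem_singleton_iff] at hx
      rcases hx with rfl | rfl
      · exact hbb k e
      · obtain ⟨k', e', h'⟩ := hbb k e
        refine ⟨-1 + k', e', ?_⟩
        rw [hc, mul_assoc, h', zpow_add, zpow_neg, zpow_one, mul_assoc]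
    | inv_mul_cancel x hx y _ ih =>
      obtain ⟨k, e, rfl⟩ := ih
      have hbb : ∀ (k : ℤ) (e : Bool), ∃ (k' : ℤ) (e' : Bool),
          gen p q 1 * (r ^ k * (if e then gen p q 1 else 1)) =
            r ^ k' * (if e' then gen p q 1 else 1) := by
        intro k e
        refine ⟨-k, !e, ?_⟩
        rw [← mul_assoc, hbz]
        cases e
        · simp
        · simp [mul_assoc, gen_sq]
      simp only [Set.mem_insert_iff, Set.mem_singleton_iff] at hx
      rcases hx with rfl | rfl
      · rw [gen_inv]; exact hbb k e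
      · rw [gen_inv]
        obtain ⟨k', e', h'⟩ := hbb k e
        refine ⟨-1 + k', e', ?_⟩
        rw [hc, mul_assoc, h', zpow_add, zpow_neg, zpow_one, mul_assoc]
  have hfin : (Set.range fun z : Fin q × Bool =>
      r ^ (z.1 : ℕ) * (if z.2 then gen p q 1 else 1)).Finite := Set.finite_range _
  refine hfin.subset ?_
  intro g hg
  obtain ⟨k, e, rfl⟩ := hform g hg
  have hq' : (q : ℤ) ≠ 0 := by exact_mod_cast hq.ne'
  have h0 : 0 ≤ k % (q : ℤ) := Int.emod_nonneg _ hq'
  have h1 : k % (q : ℤ) < q := Int.emod_lt_of_pos _ (by exact_mod_cast hq)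
  refine ⟨(⟨(k % (q : ℤ)).toNat, by omega⟩, e), ?_⟩
  simp only
  have h2 : r ^ (k % (q : ℤ)).toNat = r ^ k := by
    have h3 : r ^ (q : ℤ) = 1 := by rw [zpow_natCast]; exact hrq
    rw [← zpow_natCast, Int.toNat_of_nonneg h0]
    conv_rhs => rw [← Int.emod_add_mul_ediv k q, zpow_add, zpow_mul, h3, one_zpow, mul_one]
  rw [h2]

/-- values of `mapHom` on the generators -/
theorem mapHom_gen {Ω : Type} (M : MapOn p q Ω) :
    mapHom M.2 (gen p q 0) = M.1.1 ∧ mapHom M.2 (gen p q 1) = M.1.2.1 ∧
      mapHom M.2 (gen p q 2) = M.1.2.2 := by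
  refine ⟨?_, ?_, ?_⟩ <;> simp [mapHom, gen, PresentedGroup.toGroup.of]

theorem mapHom_isMapHom {Ω : Type} (M : MapOn p q Ω) : IsMapHom (mapHom M.2) := by
  unfold IsMapHom
  rw [(mapHom_gen M).1, (mapHom_gen M).2.1, (mapHom_gen M).2.2]
  exact M.2

/-- the action on cosets -/
theorem cosetHom_apply (γ g h : Tri p q) :
    cosetHom (Subgroup.zpowers γ) g (cst γ h) = cst γ (g * h) := by
  rfl

theorem cst_surj (γ : Tri p q) (y : Tri p q ⧸ Subgroup.zpowers γ) : ∃ g, y = cst γ g := by
  obtain ⟨g, hg⟩ := QuotientGroup.mk_surjective y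
  exact ⟨g, hg.symm⟩

theorem cst_eq_iff (γ g h : Tri p q) : cst γ g = cst γ h ↔ g⁻¹ * h ∈ Subgroup.zpowers γ := by
  exact QuotientGroup.eq

/-- a non trivial element with a fixed flag is admissible (`stab_torsionFree`, `coset_map`) -/
theorem adm_of_fix (hyp : Hyp p q) {X : Type} (ρ : Tri p q →* Perm X) (hρ : IsMapHom ρ) (x : X)
    (g : Tri p q) (hg : g ≠ 1) (hx : ρ g x = x) : Adm g := by
  refine ⟨stab_torsionFree hyp ρ hρ x g hg hx, coset_map ρ hρ x _ ?_⟩
  intro h hh
  obtain ⟨k, rfl⟩ := Subgroup.mem_zpowers_iff.mp hh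
  have h1 : g ∈ (MulAction.stabilizer (Perm X) x).comap ρ := by
    simpa [MulAction.mem_stabilizer_iff] using hx
  have h2 := Subgroup.zpow_mem _ h1 k
  simpa [MulAction.mem_stabilizer_iff] using h2

theorem adm_ne_one {γ : Tri p q} (h : Adm γ) : γ ≠ 1 := by
  intro h1
  have := h.1 1 one_ne_zero
  apply this
  rw [h1]; simp

end MPbcd198.M
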