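import Pool.Agent.Lib.MP_bcd198_co.IfU

/-!
# MP_bcd198_co, stream M: definitions

Section 8 of the blueprint (moments and clusters).
-/

set_option autoImplicit false

namespace MPbcd198.M

open Equiv

section Base

variable {p q : ℕ}

/-- admissible elements: infinite order, and the action on the left cosets is a map -/
def Adm (γ : Tri p q) : Prop :=
  (∀ n : ℤ, n ≠ 0 → γ ^ n ≠ 1) ∧ IsMapHom (cosetHom (Subgroup.zpowers γ))

/-- `u` conjugates `Γ` onto `Δ` -/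
def Cj {G : Type} [Group G] (u : G) (Γ Δ : Subgroup G) : Prop :=
  ∀ h, h ∈ Γ ↔ u * h * u⁻¹ ∈ Δ

/-- the subgroup generated by the elements of length at most `R` fixing `x` -/
def Lam {X : Type} (ρ : Tri p q →* Perm X) (R : ℕ) (x : X) : Subgroup (Tri p q) :=
  Subgroup.closure (locStab ρ R x)

/-- all local stabilisers are cyclic -/
def Good {X : Type} (ρ : Tri p q →* Perm X) (R : ℕ) : Prop := ∀ x, InCyclic (locStab ρ R x)

/-- `τ` is the planted type of the face set `S` of the action `ρ`, with labelling `e` of the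
flags of `hat ρ S` -/
structure Models {X : Type} (ρ : Tri p q →* Perm X) (S : Finset X) {Y : Type} (τ : PType p q Y)
    (e : Y → X) : Prop where
  inj : Function.Injective e
  range : Set.range e = hat ρ S
  memS : ∀ y, y ∈ τ.S ↔ e y ∈ S
  hb : ∀ y, e (τ.b y) = ρ (gen p q 1) (e y)
  hc : ∀ y, e (τ.c y) = ρ (gen p q 2) (e y)
  ha : ∀ y ∈ τ.S, e (τ.a y) = ρ (gen p q 0) (e y)

/-- the base coset of `D / ⟨γ⟩` -/
def cst (γ g : Tri p q) : Tri p q ⧸ Subgroup.zpowers γ := (g : Tri p q ⧸ Subgroup.zpowers γ)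

/-- The data of 8.2: representatives `γ i` of the conjugacy classes of the possible short cyclic
stabilisers, with the planted types `τ i` of their hulls `H i` in `D / ⟨γ i⟩`. -/
structure Frame (p q l₀ : ℕ) where
  K : ℕ
  γ : Fin K → Tri p q
  L₁ : ℕ
  L₂ : ℕ
  L₃ : ℕ
  L₄ : ℕ
  d : ℕ
  R : ℕ
  N : Fin K → ℕ
  τ : ∀ i, PType p q (Fin (N i))
  H : ∀ i, Finset (Tri p q ⧸ Subgroup.zpowers (γ i))
  e : ∀ i, Fin (N i) → Tri p q ⧸ Subgroup.zpowers (γ i)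
  adm : ∀ i, Adm (γ i)
  γ_ball : ∀ i, γ i ∈ ballT p q L₁
  root0 : ∀ h ∈ ballT p q l₀, Adm h → ∀ g : Tri p q, (∃ k : ℤ, g ^ k = h) → g ∈ ballT p q L₁
  root1 : ∀ h ∈ ballT p q L₁, Adm h → ∀ g : Tri p q, (∃ k : ℤ, g ^ k = h) → g ∈ ballT p q L₄
  nonconj : ∀ i j u, Cj u (Subgroup.zpowers (γ i)) (Subgroup.zpowers (γ j)) → i = j
  rep : ∀ δ ∈ ballT p q L₁, Adm δ →
    ∃ i, ∃ u ∈ ballT p q L₂, Cj u (Subgroup.zpowers (γ i)) (Subgroup.zpowers δ)
  normrep : ∀ i n, Cj n (Subgroup.zpowers (γ i)) (Subgroup.zpowers (γ i)) →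
    ∃ n' ∈ ballT p q L₃, cst (γ i) n' = cst (γ i) n
  faceSet : ∀ i, FaceSet (cosetHom (Subgroup.zpowers (γ i))) (H i)
  models : ∀ i, Models (cosetHom (Subgroup.zpowers (γ i))) (H i) (τ i) (e i)
  strict : ∀ i, (τ i).HullStrict
  chi_le : ∀ i, (τ i).chi ≤ 0
  conn : ∀ i, ∀ y ∈ H i, SConn (cosetHom (Subgroup.zpowers (γ i))) (H i) (cst (γ i) 1) y
  H1 : ∀ i, ∀ g ∈ ballT p q L₁, cst (γ i) g ∈ H i
  H3 : ∀ i, ∀ g ∈ ballT p q L₃, cst (γ i) g ∈ H i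
  H4 : ∀ i, ∀ g ∈ ballT p q L₄, cst (γ i) g ∈ H i
  dd : ∀ i y, ∃ g ∈ ballT p q d, e i y = cst (γ i) g
  hR : 4 * d + L₁ + 2 * L₂ + 2 * L₃ + L₄ + l₀ ≤ R

namespace Frame

variable {l₀ : ℕ} (F : Frame p q l₀)

/-- the `i`-th cyclic subgroup -/
abbrev Γ (i : Fin F.K) : Subgroup (Tri p q) := Subgroup.zpowers (F.γ i)

/-- the index of `Γ i` in its normaliser -/
noncomputable def α (i : Fin F.K) : ℕ :=
  Nat.card {y : Tri p q ⧸ F.Γ i // ∃ n, Cj n (F.Γ i) (F.Γ i) ∧ y = cst (F.γ i) n}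

/-- the flags `x` whose local stabiliser is `Γ i` -/
def Y {Ω : Type} (ρ : Tri p q →* Perm Ω) (i : Fin F.K) : Type :=
  {x : Ω // Lam ρ F.R x = F.Γ i}

/-- the image of the planted copy of `τ i` at `x` -/
def img {Ω : Type} (ρ : Tri p q →* Perm Ω) (i : Fin F.K) (x : Ω) : Set Ω :=
  {z | ∃ y g, F.e i y = cst (F.γ i) g ∧ z = ρ g x}

/-- the limit of the expected number of clusters -/
noncomputable def lam : ℝ :=
  open Classical in ∑ i : Fin F.K, if (F.τ i).chi = 0 then (1 : ℝ) / (F.α i : ℝ) else 0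

end Frame

/-- `τ'` is built from the types `τ j` componentwise, `f` is the labelling of its flags -/
structure Glue {l : ℕ} {N : Fin l → ℕ} (τ : ∀ j, PType p q (Fin (N j))) {N' : ℕ}
    (τ' : PType p q (Fin N')) (f : (Σ j, Fin (N j)) ≃ Fin N') : Prop where
  memS : ∀ j y, f ⟨j, y⟩ ∈ τ'.S ↔ y ∈ (τ j).S
  ha : ∀ j y, τ'.a (f ⟨j, y⟩) = f ⟨j, (τ j).a y⟩
  hb : ∀ j y, τ'.b (f ⟨j, y⟩) = f ⟨j, (τ j).b y⟩
  hc : ∀ j y, τ'.c (f ⟨j, y⟩) = f ⟨j, (τ j).c y⟩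

/-- `τ'` is a disjoint union of the types `τ j` -/
structure IsUnion {l : ℕ} {N : Fin l → ℕ} (τ : ∀ j, PType p q (Fin (N j))) {N' : ℕ}
    (τ' : PType p q (Fin N')) : Prop where
  strict : (∀ j, (τ j).HullStrict) → τ'.HullStrict
  chi : τ'.chi = ∑ j, (τ j).chi
  emb : ∀ {Ω : Type} (M : Trip Ω), Nonempty (τ'.Emb M ≃
    {ι : ∀ j, (τ j).Emb M // ∀ j k, j ≠ k →
      Disjoint (Set.range ((ι j).1 : Fin (N j) → Ω)) (Set.range ((ι k).1 : Fin (N k) → Ω))})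

end Base

end MPbcd198.M
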