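import Mathlib

/-!
# MP_bcd198_co, stream M, job Bon: Bonferroni inequality and a numerical choice

* `bonferroni`: for `Z = 0` the sum is `1` (only `j = 0`).  For `Z ≥ 1`,
  `∑_{j ≤ L} (-1)^j binom(Z,j) = (-1)^L binom(Z-1, L) ≤ 0` for odd `L` (induction on `L` with
  Pascal's rule; also `Int.alternating_sum_range_choose_eq_choose` or a similar Mathlib lemma).
  And `descFactorial Z j = j! * choose Z j`.
* `exists_odd`: the partial sums `∑_{j ≤ L} (-λ)^j / j!` converge to `exp (-λ) > 0`.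
-/

set_option autoImplicit false

namespace MPbcd198.M

private theorem bon_alt (Z L : ℕ) :
    ∑ j ∈ Finset.range (L + 1), (-1 : ℝ) ^ j * ((Z + 1).choose j : ℝ) =
      (-1 : ℝ) ^ L * (Z.choose L : ℝ) := by
  induction L with
  | zero => simp
  | succ L ih =>
    rw [Finset.sum_range_succ, ih, Nat.choose_succ_succ]
    push_cast
    ring

private theorem bon_term (Z j : ℕ) :
    (-1 : ℝ) ^ j / (j.factorial : ℝ) * (Z.descFactorial j : ℝ) =
      (-1 : ℝ) ^ j * (Z.choose j : ℝ) := by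
  rw [Nat.descFactorial_eq_factorial_mul_choose]
  have : (j.factorial : ℝ) ≠ 0 := by exact_mod_cast j.factorial_ne_zero
  push_cast
  field_simp

theorem bonferroni (Z L : ℕ) (hL : Odd L) :
    ∑ j ∈ Finset.range (L + 1), (-1 : ℝ) ^ j / (j.factorial : ℝ) * (Z.descFactorial j : ℝ) ≤
      if Z = 0 then 1 else 0 := by
  simp only [bon_term]
  rcases Z with _ | Z
  · rw [if_pos rfl, Finset.sum_range_succ']
    simp
  · rw [if_neg (Nat.succ_ne_zero Z), bon_alt, hL.neg_one_pow]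
    have : (0 : ℝ) ≤ (Z.choose L : ℝ) := Nat.cast_nonneg _
    linarith

theorem exists_odd (x : ℝ) : ∃ L : ℕ, Odd L ∧
    0 < ∑ j ∈ Finset.range (L + 1), (-1 : ℝ) ^ j / (j.factorial : ℝ) * x ^ j := by
  have h1 : Filter.Tendsto
      (fun n => ∑ j ∈ Finset.range n, (-1 : ℝ) ^ j / (j.factorial : ℝ) * x ^ j)
      Filter.atTop (nhds (Real.exp (-x))) := by
    have h := NormedSpace.expSeries_div_hasSum_exp (𝔸 := ℝ) (-x)
    rw [← Real.exp_eq_exp_ℝ] at h
    have h2 := h.tendsto_sum_nat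
    refine h2.congr fun n => Finset.sum_congr rfl fun j _ => ?_
    rw [neg_pow]
    ring
  have h2 : ∀ᶠ n in Filter.atTop,
      0 < ∑ j ∈ Finset.range n, (-1 : ℝ) ^ j / (j.factorial : ℝ) * x ^ j :=
    h1.eventually (lt_mem_nhds (Real.exp_pos _))
  obtain ⟨N, hN⟩ := Filter.eventually_atTop.1 h2
  refine ⟨2 * N + 1, ⟨N, rfl⟩, hN _ (by omega)⟩

end MPbcd198.M
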