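import Pool.Agent.Lib.MP_bcd198_co.M.Ball

/-!
# MP_bcd198_co, stream M, job Fin: the finiteness statements behind the frame

* `root_bound`: the set of all `g` with `g^k = h` for some `h ∈ ballT l`, `Adm h`, `k ∈ ℤ` is a
  finite union (`ball_finite`) of finite sets (`finite_roots`); use `finite_subset_ball`.
* `exists_reps`: let `T = {δ ∈ ballT L : Adm δ}` (finite).  `δ ~ δ'` iff `∃ u, Cj u ⟨δ⟩ ⟨δ'⟩` is an
  equivalence relation (`u = 1`; `u⁻¹`; products).  Choose representatives `γ 0, …, γ (K-1)` of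
  the classes of the finite set `T` (e.g. a transversal of the quotient of the subtype `T` by the
  setoid; the quotient is finite; enumerate it by `Fin K` and take `Quotient.out`).  Then
  `nonconj` holds, and for every `δ ∈ T` there are `i` and `u` with `Cj u ⟨γ i⟩ ⟨δ⟩`; choosing one
  `u` for each of the finitely many `δ` gives the bound `L₂` (`exists_ball` /
  `finite_subset_ball`).
* `norm_finite`: for `Cj n Γ Γ`, `Γ = ⟨γ⟩`, the element `n⁻¹ γ n` is in `Γ` (apply `Cj` to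
  `h = n⁻¹ γ n`), so `γ (nΓ) = n (n⁻¹ γ n) Γ = nΓ`: the coset `nΓ` belongs to the finite set of
  `finite_short` (with `l` such that `γ ∈ ballT l`, `γ ≠ 1`).
* `norm_reps`: choose a representative of each of these finitely many cosets.
-/

set_option autoImplicit false

namespace MPbcd198.M

open Equiv

variable {p q : ℕ}

theorem root_bound (hyp : Hyp p q) (l : ℕ) : ∃ L : ℕ, ∀ h ∈ ballT p q l, Adm h →
    ∀ g : Tri p q, (∃ k : ℤ, g ^ k = h) → g ∈ ballT p q L := by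
  have hfin : (⋃ h ∈ ballT p q l, {g : Tri p q | Adm h ∧ ∃ k : ℤ, g ^ k = h}).Finite := by
    refine Set.Finite.biUnion (ball_finite l) fun h _ => ?_
    by_cases hA : Adm h
    · exact (finite_roots hyp h hA.1 hA.2).subset fun g hg => hg.2
    · refine Set.Finite.subset Set.finite_empty fun g hg => (hA hg.1).elim
  obtain ⟨L, hL⟩ := finite_subset_ball hfin
  refine ⟨L, fun h hh hA g hg => hL ?_⟩
  simp only [Set.mem_iUnion]
  exact ⟨h, hh, hA, hg⟩

theorem cj_one {G : Type} [Group G] (Γ : Subgroup G) : Cj 1 Γ Γ := by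
  intro h
  simp

theorem cj_symm {G : Type} [Group G] {u : G} {Γ Δ : Subgroup G} (h : Cj u Γ Δ) :
    Cj u⁻¹ Δ Γ := by
  intro k
  have := h (u⁻¹ * k * u)
  rw [inv_inv, this]
  have h2 : u * (u⁻¹ * k * u) * u⁻¹ = k := by group
  rw [h2]

theorem cj_trans {G : Type} [Group G] {u v : G} {Γ Δ Ξ : Subgroup G} (h : Cj u Γ Δ)
    (h' : Cj v Δ Ξ) : Cj (v * u) Γ Ξ := by
  intro k
  rw [h k, h' (u * k * u⁻¹)]
  have h2 : v * (u * k * u⁻¹) * v⁻¹ = v * u * k * (v * u)⁻¹ := by group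
  rw [h2]

theorem exists_reps (L : ℕ) : ∃ (K : ℕ) (γ : Fin K → Tri p q) (L₂ : ℕ),
    (∀ i, γ i ∈ ballT p q L ∧ Adm (γ i)) ∧
    (∀ i j u, Cj u (Subgroup.zpowers (γ i)) (Subgroup.zpowers (γ j)) → i = j) ∧
    (∀ δ ∈ ballT p q L, Adm δ →
      ∃ i, ∃ u ∈ ballT p q L₂, Cj u (Subgroup.zpowers (γ i)) (Subgroup.zpowers δ)) := by
  classical
  let T : Type := {δ : Tri p q // δ ∈ ballT p q L ∧ Adm δ}
  have hT : Finite T := ((ball_finite (p := p) (q := q) L).subset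
    (fun δ (hδ : δ ∈ {δ | δ ∈ ballT p q L ∧ Adm δ}) => hδ.1)).to_subtype
  let s : Setoid T :=
    { r := fun δ δ' => ∃ u, Cj u (Subgroup.zpowers δ.1) (Subgroup.zpowers δ'.1)
      iseqv := ⟨fun δ => ⟨1, cj_one _⟩, fun ⟨u, hu⟩ => ⟨u⁻¹, cj_symm hu⟩,
        fun ⟨u, hu⟩ ⟨v, hv⟩ => ⟨v * u, cj_trans hu hv⟩⟩ }
  have hQ : Finite (Quotient s) := Quotient.finite _
  have : Fintype (Quotient s) := Fintype.ofFinite _
  let en := Fintype.equivFin (Quotient s)
  let γ : Fin (Fintype.card (Quotient s)) → T := fun i => (en.symm i).out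
  have hex : ∀ δ : T, ∃ (i : Fin (Fintype.card (Quotient s))) (u : Tri p q),
      Cj u (Subgroup.zpowers (γ i).1) (Subgroup.zpowers δ.1) := by
    intro δ
    refine ⟨en (Quotient.mk s δ), ?_⟩
    have h1 : Quotient.mk s (γ (en (Quotient.mk s δ))) = Quotient.mk s δ := by
      simp only [γ, Equiv.symm_apply_apply]
      exact Quotient.out_eq _
    exact Quotient.exact h1
  choose fi fu hfu using hex
  have : Fintype T := Fintype.ofFinite _
  obtain ⟨L₂, hL₂⟩ := finite_subset_ball (p := p) (q := q) (Set.finite_range fu)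
  refine ⟨Fintype.card (Quotient s), fun i => (γ i).1, L₂, fun i => (γ i).2, ?_, ?_⟩
  · intro i j u hu
    have h1 : Quotient.mk s (γ i) = Quotient.mk s (γ j) := Quotient.sound ⟨u, hu⟩
    simp only [γ, Quotient.out_eq] at h1
    exact en.symm.injective h1
  · intro δ hδ hA
    exact ⟨fi ⟨δ, hδ, hA⟩, fu ⟨δ, hδ, hA⟩, hL₂ ⟨_, rfl⟩, hfu ⟨δ, hδ, hA⟩⟩

theorem norm_finite (hyp : Hyp p q) (γ : Tri p q) (hγ : Adm γ) :
    {y : Tri p q ⧸ Subgroup.zpowers γ |
      ∃ n, Cj n (Subgroup.zpowers γ) (Subgroup.zpowers γ) ∧ y = cst γ n}.Finite := by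
  obtain ⟨l, hl⟩ := exists_ball γ
  refine (finite_short hyp γ hγ.1 hγ.2 l).subset ?_
  rintro y ⟨n, hn, rfl⟩
  refine ⟨γ, hl, adm_ne_one hγ, ?_⟩
  rw [cosetHom_apply, cst_eq_iff]
  have h1 : n⁻¹ * γ * n ∈ Subgroup.zpowers γ := by
    rw [hn (n⁻¹ * γ * n)]
    have h2 : n * (n⁻¹ * γ * n) * n⁻¹ = γ := by group
    rw [h2]
    exact Subgroup.mem_zpowers γ
  have h3 : (γ * n)⁻¹ * n = (n⁻¹ * γ * n)⁻¹ := by group
  rw [h3]
  exact Subgroup.inv_mem _ h1

theorem norm_reps (hyp : Hyp p q) (γ : Tri p q) (hγ : Adm γ) : ∃ L : ℕ, ∀ n : Tri p q,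
    Cj n (Subgroup.zpowers γ) (Subgroup.zpowers γ) →
      ∃ n' ∈ ballT p q L, cst γ n' = cst γ n := by
  classical
  have hf := norm_finite hyp γ hγ
  have hex : ∀ y : Tri p q ⧸ Subgroup.zpowers γ, ∃ g, y = cst γ g := cst_surj γ
  choose f hfe using hex
  obtain ⟨L, hL⟩ := finite_subset_ball (hf.image f)
  exact ⟨L, fun n hn => ⟨f (cst γ n), hL ⟨cst γ n, ⟨n, hn, rfl⟩, rfl⟩, (hfe _).symm⟩⟩

end MPbcd198.M
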