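import Pool.Agent.Lib.MP_bcd198_co.M.Ball

/-!
# MP_bcd198_co, stream M, job Hat: the vertex closure of a finite face set, and its type

`hat ρ S = {x : ∃ g ∈ ⟨b,c⟩, g x ∈ S}`.

* `hat_finite`: `vSub` is finite (`vSub_finite`), `hat ρ S = ⋃_{g ∈ vSub} (ρ g)⁻¹ S`.
* `subset_hat`: `g = 1`.  `hat_b`, `hat_c`: if `g x ∈ S` then `(g b⁻¹)(b x) ∈ S`.
* `exists_models`: let `N = Nat.card (hat ρ S)` and `e : Fin N → X` the composition of a
  bijection `Fin N ≃ hat ρ S` with the inclusion.  Transport `b = ρ (gen 1)`, `c = ρ (gen 2)`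
  restricted to `hat ρ S`, and `a` = `ρ (gen 0)` on `S`, identity outside `S` (`S ⊆ hat ρ S` is
  closed under `ρ (gen 0)`), to permutations of `Fin N`.  Fields of `PType`:
  - `a_inv`, `a_supp`: `ρ (gen 0)` is a fixed point free involution;
  - `pb`, `pc`: the same for `b`, `c`;
  - `bS`: `S` is closed under `b`;
  - `ab`: on `S` the map `a * b` of `Fin N` is conjugate by `e` to `ρ (gen 0) * ρ (gen 1)`
    (`e ((a*b)^k y) = (ρ(gen 0) ρ(gen 1))^k (e y)` for `y` with `e y ∈ S`, by induction, since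
    `S` is closed), `e` is injective, so the minimal periods agree (the periodic points of both
    maps have the same periods: `Function.IsPeriodicPt`, `Function.minimalPeriod` is determined
    by the set of periods, e.g. `Nat.dvd_antisymm` with `Function.IsPeriodicPt.minimalPeriod_dvd`);
  - `bc`: the same on all of `Fin N`;
  - `ac_in`: `Rel 2 a c` gives `(ac)² x = x`, so `c a x = a c x` for the action (`a,c`
    involutions);
  - `ac_out`: if `x ∈ S` and `c a x ∈ S` then `a c a x = c x ∈ S` (as `c a x ∈ S`, `S` closed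
    under `a`, and `a c a x = c x`), contradiction;
  - `ac_ne`: `a x = c x` would give `(a c) (c x) = c x`... i.e. `a c` has the fixed point `c x`,
    contradicting `Rel 2`.
-/

set_option autoImplicit false

namespace MPbcd198.M

open Equiv

variable {p q : ℕ} {X : Type}

theorem hat_finite (hq : 0 < q) (ρ : Tri p q →* Perm X) (S : Finset X) : (hat ρ S).Finite := by
  have h1 : (⋃ g ∈ (vSub p q : Set (Tri p q)), (fun x => (ρ g).symm x) '' (S : Set X)).Finite :=
    (vSub_finite hq).biUnion fun g _ => S.finite_toSet.image _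
  refine h1.subset ?_
  rintro x ⟨g, hg, hx⟩
  refine Set.mem_biUnion (x := g) hg ⟨ρ g x, hx, ?_⟩
  exact (ρ g).symm_apply_apply x

theorem subset_hat (ρ : Tri p q →* Perm X) (S : Finset X) : ∀ x ∈ S, x ∈ hat ρ S := by
  intro x hx
  refine ⟨1, Subgroup.one_mem _, ?_⟩
  rw [map_one]
  exact hx

theorem hat_v (ρ : Tri p q →* Perm X) (S : Finset X) {g : Tri p q} (hg : g ∈ vSub p q) {x : X}
    (hx : x ∈ hat ρ S) : ρ g x ∈ hat ρ S := by
  obtain ⟨h, hh, hx⟩ := hx
  refine ⟨h * g⁻¹, Subgroup.mul_mem _ hh (Subgroup.inv_mem _ hg), ?_⟩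
  have h1 : ρ (h * g⁻¹) (ρ g x) = ρ h x := by
    rw [← Perm.mul_apply, ← map_mul, inv_mul_cancel_right]
  rw [h1]
  exact hx

/-- minimal periods are transported by injective semiconjugacies -/
private theorem Hat_semi {α β : Type} {f : α → α} {g : β → β} {i : α → β}
    (hi : Function.Injective i) (h : ∀ x, i (f x) = g (i x)) (x : α) :
    Function.minimalPeriod g (i x) = Function.minimalPeriod f x := by
  have hs : Function.Semiconj i f g := h
  rw [Function.minimalPeriod_eq_minimalPeriod_iff]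
  intro n
  have h1 : g^[n] (i x) = i (f^[n] x) := ((hs.iterate_right n) x).symm
  rw [Function.IsPeriodicPt, Function.IsFixedPt, h1, Function.IsPeriodicPt, Function.IsFixedPt]
  exact hi.eq_iff

/-- transport of an involution of a set to `Fin N` -/
private def Hat_perm {H : Set X} {N : ℕ} (φ : Fin N ≃ H) (T : X → X) (hT : ∀ x, T (T x) = x)
    (hH : ∀ x ∈ H, T x ∈ H) : Perm (Fin N) where
  toFun i := φ.symm ⟨T (φ i).1, hH _ (φ i).2⟩
  invFun i := φ.symm ⟨T (φ i).1, hH _ (φ i).2⟩
  left_inv i := by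
    apply φ.injective
    apply Subtype.ext
    simp only [Equiv.apply_symm_apply]
    exact hT _
  right_inv i := by
    apply φ.injective
    apply Subtype.ext
    simp only [Equiv.apply_symm_apply]
    exact hT _

private theorem Hat_perm_apply {H : Set X} {N : ℕ} (φ : Fin N ≃ H) (T : X → X) (hT : ∀ x, T (T x) = x)
    (hH : ∀ x ∈ H, T x ∈ H) (i : Fin N) : (φ (Hat_perm φ T hT hH i)).1 = T (φ i).1 := by
  change (φ (φ.symm ⟨T (φ i).1, hH _ (φ i).2⟩)).1 = _
  rw [Equiv.apply_symm_apply]

/-- the planted type of a finite face set -/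
theorem exists_models (hyp : Hyp p q) (ρ : Tri p q →* Perm X) (hρ : IsMapHom ρ) (S : Finset X)
    (hS : FaceSet ρ S) : ∃ (N : ℕ) (τ : PType p q (Fin N)) (e : Fin N → X), Models ρ S τ e := by
  classical
  have hfin : Finite (hat ρ S) := hat_finite (by have := hyp.hq; omega) ρ S
  let φ : Fin (Nat.card (hat ρ S)) ≃ hat ρ S := (Finite.equivFin (hat ρ S)).symm
  have hA : ∀ x, ρ (gen p q 0) (ρ (gen p q 0) x) = x := fun x => (hρ.pa x).2
  have hB : ∀ x, ρ (gen p q 1) (ρ (gen p q 1) x) = x := fun x => (hρ.pb x).2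
  have hC : ∀ x, ρ (gen p q 2) (ρ (gen p q 2) x) = x := fun x => (hρ.pc x).2
  have hg1 : gen p q 1 ∈ vSub p q := Subgroup.subset_closure (by simp)
  have hg2 : gen p q 2 ∈ vSub p q := Subgroup.subset_closure (by simp)
  -- commutation of `a` and `c`
  have hcomm : ∀ x, ρ (gen p q 2) (ρ (gen p q 0) x) = ρ (gen p q 0) (ρ (gen p q 2) x) := by
    intro x
    have h1 := Function.isPeriodicPt_minimalPeriod (⇑(ρ (gen p q 0) * ρ (gen p q 2))) x
    rw [hρ.ac x] at h1
    have h2 : ρ (gen p q 0) (ρ (gen p q 2) (ρ (gen p q 0) (ρ (gen p q 2) x))) = x := h1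
    have h3 := congrArg (fun y => ρ (gen p q 2) (ρ (gen p q 0) y)) h2
    simp only [hA, hC] at h3
    exact h3.symm
  have hne : ∀ x, ρ (gen p q 0) x ≠ ρ (gen p q 2) x := by
    intro x h1
    have h2 : Function.IsPeriodicPt (⇑(ρ (gen p q 0) * ρ (gen p q 2))) 1 x := by
      change ρ (gen p q 0) (ρ (gen p q 2) x) = x
      rw [← h1, hA]
    have h3 := h2.minimalPeriod_le one_pos
    rw [hρ.ac x] at h3
    omega
  let T : X → X := fun x => if x ∈ S then ρ (gen p q 0) x else x
  have hT1 : ∀ x ∈ S, T x = ρ (gen p q 0) x := fun x hx => if_pos hx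
  have hT2 : ∀ x, x ∉ S → T x = x := fun x hx => if_neg hx
  have hTT : ∀ x, T (T x) = x := by
    intro x
    by_cases hx : x ∈ S
    · rw [hT1 x hx, hT1 _ (hS x hx).1, hA]
    · rw [hT2 x hx, hT2 x hx]
  have hTh : ∀ x ∈ hat ρ S, T x ∈ hat ρ S := by
    intro x hx
    by_cases hx' : x ∈ S
    · rw [hT1 x hx']
      exact subset_hat ρ S _ (hS x hx').1
    · rw [hT2 x hx']
      exact hx
  let a : Perm (Fin (Nat.card (hat ρ S))) := Hat_perm φ T hTT hTh
  let b : Perm (Fin (Nat.card (hat ρ S))) := Hat_perm φ (ρ (gen p q 1)) hB fun x hx => hat_v ρ S hg1 hx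
  let c : Perm (Fin (Nat.card (hat ρ S))) := Hat_perm φ (ρ (gen p q 2)) hC fun x hx => hat_v ρ S hg2 hx
  let e : Fin (Nat.card (hat ρ S)) → X := fun i => (φ i).1
  have he : Function.Injective e := Subtype.val_injective.comp φ.injective
  have hea : ∀ i, e (a i) = T (e i) := fun i => Hat_perm_apply φ T hTT hTh i
  have heb : ∀ i, e (b i) = ρ (gen p q 1) (e i) := fun i => Hat_perm_apply φ _ hB _ i
  have hec : ∀ i, e (c i) = ρ (gen p q 2) (e i) := fun i => Hat_perm_apply φ _ hC _ i
  let τS : Finset (Fin (Nat.card (hat ρ S))) := Finset.univ.filter fun i => e i ∈ S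
  have hmem : ∀ i, i ∈ τS ↔ e i ∈ S := fun i => by
    rw [Finset.mem_filter]
    exact ⟨fun h => h.2, fun h => ⟨Finset.mem_univ _, h⟩⟩
  have heaS : ∀ i, i ∈ τS → e (a i) = ρ (gen p q 0) (e i) := fun i hi => by
    rw [hea, hT1 _ ((hmem i).1 hi)]
  have haS : ∀ i, i ∈ τS → a i ∈ τS := fun i hi => by
    rw [hmem, heaS i hi]
    exact (hS _ ((hmem i).1 hi)).1
  have hbS : ∀ i, i ∈ τS → b i ∈ τS := fun i hi => by
    rw [hmem, heb]
    exact (hS _ ((hmem i).1 hi)).2
  have hab : ∀ x ∈ τS, Function.minimalPeriod (⇑(a * b)) x = p := by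
    intro x hx
    let f : {i // i ∈ τS} → {i // i ∈ τS} := fun i => ⟨a (b i.1), haS _ (hbS _ i.2)⟩
    have h1 := Hat_semi (f := f) (g := ⇑(a * b)) (i := Subtype.val) Subtype.val_injective
      (fun y => rfl) ⟨x, hx⟩
    have h2 := Hat_semi (f := f) (g := ⇑(ρ (gen p q 0) * ρ (gen p q 1)))
      (i := fun y => e y.1) (he.comp Subtype.val_injective)
      (fun y => by
        change e (a (b y.1)) = ρ (gen p q 0) (ρ (gen p q 1) (e y.1))
        rw [heaS _ (hbS _ y.2), heb]) ⟨x, hx⟩
    have h3 := hρ.ab (e x)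
    change Function.minimalPeriod (⇑(a * b)) x = _ at h1
    rw [h1, ← h2]
    exact h3
  have hbc : Rel q b c := by
    intro x
    have h1 := Hat_semi (f := ⇑(b * c)) (g := ⇑(ρ (gen p q 1) * ρ (gen p q 2))) (i := e) he
      (fun y => by
        change e (b (c y)) = ρ (gen p q 1) (ρ (gen p q 2) (e y))
        rw [heb, hec]) x
    rw [← h1]
    exact hρ.bc (e x)
  have h1 : ∀ x, a (a x) = x := by
    intro x
    apply he
    rw [hea, hea, hTT]
  have h2 : ∀ x, a x ≠ x ↔ x ∈ τS := by
    intro x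
    constructor
    · intro h
      by_contra hx
      rw [hmem] at hx
      apply h
      apply he
      rw [hea, hT2 _ hx]
    · intro hx h
      have h1 := congrArg e h
      rw [heaS x hx] at h1
      exact (hρ.pa _).1 h1
  have h3 : IsPM b := by
    intro x
    constructor
    · intro h
      have h1 := congrArg e h
      rw [heb] at h1
      exact (hρ.pb _).1 h1
    · apply he
      rw [heb, heb, hB]
  have h4 : IsPM c := by
    intro x
    constructor
    · intro h
      have h1 := congrArg e h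
      rw [hec] at h1
      exact (hρ.pc _).1 h1
    · apply he
      rw [hec, hec, hC]
  have h5 : ∀ x ∈ τS, c x ∈ τS → c (a x) = a (c x) := by
    intro x hx hcx
    apply he
    rw [hec, heaS x hx, heaS _ hcx, hec, hcomm]
  have h6 : ∀ x ∈ τS, c x ∉ τS → c (a x) ∉ τS := by
    intro x hx hcx h
    apply hcx
    rw [hmem, hec, heaS x hx] at h
    rw [hmem, hec]
    have h1 := (hS _ h).1
    rw [← hcomm, hA] at h1
    exact h1
  have h7 : ∀ x ∈ τS, c x ∈ τS → a x ≠ c x := by
    intro x hx hcx h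
    have h1 := congrArg e h
    rw [heaS x hx, hec] at h1
    exact hne _ h1
  exact ⟨_, ⟨τS, a, b, c, h1, h2, h3, h4, hbS, hab, hbc, h5, h6, h7⟩, e,
    { inj := he
      range := by
        ext x
        constructor
        · rintro ⟨i, rfl⟩
          exact (φ i).2
        · intro hx
          refine ⟨φ.symm ⟨x, hx⟩, ?_⟩
          change (φ (φ.symm ⟨x, hx⟩)).1 = x
          rw [Equiv.apply_symm_apply]
      memS := hmem
      hb := heb
      hc := hec
      ha := heaS }⟩

end MPbcd198.M
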