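import Pool.Agent.Lib.MP_bcd198_co.M.LamL
import Pool.Agent.Lib.MP_bcd198_co.M.Hat
import Pool.Agent.Lib.MP_bcd198_co.M.Fin

/-!
# MP_bcd198_co, stream M, job Img: [8.2 (D)] when do two planted copies meet

`ρ` any action on `Ω`; `Γ_i = F.Γ i = ⟨γ_i⟩`.  `Lam ρ R x = Γ_i` implies that all elements of `Γ_i`
fix `x` (`lam_fix`), so `ρ g x` depends only on `cst (γ i) g` (`cst_eq_iff`).

* `img_meet` (no `Good` needed): `→`: `z = ρ g x = ρ g' x'` with `e_i y = cst g`, `e_j y' = cst g'`;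
  by `F.dd` we may take `g, g' ∈ ballT d`.  `u = g'⁻¹ g ∈ ballT (2d)`, `x' = ρ u x`.
  `u γ_i u⁻¹` fixes `x'` and is in `ballT (4d + L₁)`, so in `Lam ρ R x' = Γ_j`; `u⁻¹ γ_j u` fixes
  `x`, so is in `Γ_i`.  So `Cj u Γ_i Γ_j` (`h = γ_i^k` ↦ `(uγ_iu⁻¹)^k`), `i = j` by `F.nonconj`.
  `←`: `i = j`, `x' = ρ n x`.  Let `n' ∈ ballT L₃`, `cst n' = cst n`; `cst n = cst n' ∈ H`
  (`F.H3`) `⊆ hat H = range e` (`subset_hat`, `F.models.range`), so `x' = ρ n x` is in `img i x`;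
  and `x' = ρ 1 x'` is in `img j x'` as `cst 1 ∈ H` (`F.H1`).
-/

set_option autoImplicit false

namespace MPbcd198.M

open Equiv

variable {p q l₀ : ℕ} {Ω : Type}

private theorem img_inv_apply (ρ : Tri p q →* Perm Ω) (g : Tri p q) (x : Ω) :
    ρ g⁻¹ (ρ g x) = x := by
  rw [← Perm.mul_apply, ← map_mul, inv_mul_cancel, map_one, Perm.one_apply]

theorem img_meet (F : Frame p q l₀) (ρ : Tri p q →* Perm Ω) (i j : Fin F.K)
    (x x' : Ω) (hx : Lam ρ F.R x = F.Γ i) (hx' : Lam ρ F.R x' = F.Γ j) :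
    (F.img ρ i x ∩ F.img ρ j x').Nonempty ↔
      i = j ∧ ∃ n, Cj n (F.Γ i) (F.Γ i) ∧ x' = ρ n x := by
  have hR := F.hR
  have hfix : ∀ (k : Fin F.K) (z : Ω), Lam ρ F.R z = F.Γ k → ∀ h ∈ F.Γ k, ρ h z = z :=
    fun k z hz h hh => lam_fix ρ F.R z (by rw [hz]; exact hh)
  have hdep : ∀ (k : Fin F.K) (z : Ω), Lam ρ F.R z = F.Γ k → ∀ g g' : Tri p q,
      cst (F.γ k) g = cst (F.γ k) g' → ρ g z = ρ g' z := by
    intro k z hz g g' h
    have h1 : g⁻¹ * g' ∈ F.Γ k := (cst_eq_iff _ _ _).mp h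
    have h2 : g' = g * (g⁻¹ * g') := by group
    conv_rhs => rw [h2, map_mul]
    rw [Perm.mul_apply, hfix k z hz _ h1]
  constructor
  · rintro ⟨z, ⟨y, g, hyg, hzg⟩, ⟨y', g', hyg', hzg'⟩⟩
    obtain ⟨g₁, hg₁, he₁⟩ := F.dd i y
    obtain ⟨g₂, hg₂, he₂⟩ := F.dd j y'
    have h1 : z = ρ g₁ x := by rw [hzg]; exact hdep i x hx _ _ (by rw [← hyg, he₁])
    have h2 : z = ρ g₂ x' := by rw [hzg']; exact hdep j x' hx' _ _ (by rw [← hyg', he₂])
    have hu : ρ (g₂⁻¹ * g₁) x = x' := by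
      rw [map_mul, Perm.mul_apply, ← h1, h2, img_inv_apply]
    have hu' : ρ (g₂⁻¹ * g₁)⁻¹ x' = x := by
      rw [← hu, img_inv_apply]
    have hub : g₂⁻¹ * g₁ ∈ ballT p q (F.d + F.d) := ball_mul (ball_inv hg₂) hg₁
    set u := g₂⁻¹ * g₁ with hudef
    have ha : u * F.γ i * u⁻¹ ∈ F.Γ j := by
      rw [← hx']
      refine mem_lam ρ F.R x' (ball_mono ?_ (ball_mul (ball_mul hub (F.γ_ball i))
        (ball_inv hub))) ?_
      · omega
      · rw [map_mul, map_mul, Perm.mul_apply, Perm.mul_apply, hu',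
          hfix i x hx _ (Subgroup.mem_zpowers _), hu]
    have hb : u⁻¹ * F.γ j * u ∈ F.Γ i := by
      rw [← hx]
      refine mem_lam ρ F.R x (ball_mono ?_ (ball_mul (ball_mul (ball_inv hub) (F.γ_ball j))
        hub)) ?_
      · omega
      · rw [map_mul, map_mul, Perm.mul_apply, Perm.mul_apply, hu,
          hfix j x' hx' _ (Subgroup.mem_zpowers _), hu']
    have hcj : Cj u (F.Γ i) (F.Γ j) := by
      intro h
      constructor
      · intro hh
        obtain ⟨k, rfl⟩ := Subgroup.mem_zpowers_iff.mp hh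
        rw [← conj_zpow]
        exact Subgroup.zpow_mem _ ha k
      · intro hh
        obtain ⟨k, hk⟩ := Subgroup.mem_zpowers_iff.mp hh
        have h3 : h = (u⁻¹ * F.γ j * u) ^ k := by
          have h4 : (u⁻¹ * F.γ j * u) ^ k = u⁻¹ * F.γ j ^ k * u := by
            have := conj_zpow (i := k) (a := u⁻¹) (b := F.γ j)
            rwa [inv_inv] at this
          rw [h4, hk]
          group
        rw [h3]
        exact Subgroup.zpow_mem _ hb k
    have hij := F.nonconj i j u hcj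
    subst hij
    exact ⟨rfl, u, hcj, hu.symm⟩
  · rintro ⟨rfl, n, hn, rfl⟩
    obtain ⟨n', hn'L, hcst⟩ := F.normrep i n hn
    have hmem : ∀ g, cst (F.γ i) g ∈ F.H i → ∃ y, F.e i y = cst (F.γ i) g := by
      intro g hg
      have h1 := subset_hat (cosetHom (Subgroup.zpowers (F.γ i))) (F.H i) _ hg
      rw [← (F.models i).range] at h1
      exact h1
    obtain ⟨y, hy⟩ := hmem n (by rw [← hcst]; exact F.H3 i n' hn'L)
    obtain ⟨y', hy'⟩ := hmem 1 (F.H1 i 1 (one_mem_ball _))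
    exact ⟨ρ n x, ⟨y, n, hy, rfl⟩, ⟨y', 1, hy', by simp⟩⟩

end MPbcd198.M
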