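import Pool.Agent.Lib.MP_bcd198_co.M.LamL
import Pool.Agent.Lib.MP_bcd198_co.M.Fin

/-!
# MP_bcd198_co, stream M, job Nrm: [8.2 (B)] the normaliser acts on the flags with stabiliser `Γ i`

`ρ` any action on `Ω` with `Good ρ F.R`; `Γ_i = F.Γ i = ⟨γ_i⟩`.
Note `Lam ρ R x = Γ_i` implies that all elements of `Γ_i` fix `x` (`lam_fix`), so `ρ g x` depends
only on `cst (γ i) g` (`cst_eq_iff`).

* `norm_act`: let `n` normalise `Γ_i`.  Choose `n' ∈ ballT L₃` with `cst n' = cst n`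
  (`F.normrep`): `n = n' h`, `h ∈ Γ_i`, `ρ n x = ρ n' x`, and `Cj n' Γ_i Γ_i` (conjugation by
  elements of `Γ_i` preserves `Γ_i`; `cj_trans`).  `n'⁻¹ γ_i n' ∈ Γ_i` (apply `Cj n'` to
  `h = n'⁻¹ γ_i n'`), so `γ_i` fixes `z := ρ n' x`; `γ_i ∈ ballT L₁ ⊆ ballT R`; so
  `Γ_i ≤ Lam ρ R z`.  `Lam ρ R z = ⟨δ⟩` (`lam_cyclic`), `δ^k = γ_i` so `δ ∈ ballT L₄` (`F.root1`);
  `n'⁻¹ δ n'` fixes `x` and lies in `ballT (2L₃ + L₄)`, so in `Lam ρ R x = Γ_i` (`mem_lam`), hence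
  `δ ∈ Γ_i` by `Cj n'`.
* `norm_free`: `←`: `n = n' h`.  `→`: replace `n, n'` by representatives in `ballT L₃`; then
  `n'⁻¹ n ∈ ballT (2L₃)` fixes `x`, so is in `Lam ρ R x = Γ_i`.
* `class_card`: the map `cst n ↦ ρ n x` is a bijection from
  `{y : ∃ n, Cj n Γ_i Γ_i ∧ y = cst n}` onto the set on the left (`norm_act`, `norm_free`).
-/

set_option autoImplicit false

namespace MPbcd198.M

open Equiv

variable {p q l₀ : ℕ} {Ω : Type}

private theorem nrm_inv_apply (ρ : Tri p q →* Perm Ω) (g : Tri p q) (x : Ω) :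
    ρ g⁻¹ (ρ g x) = x := by
  rw [← Perm.mul_apply, ← map_mul, inv_mul_cancel, map_one, Perm.one_apply]

theorem norm_act (F : Frame p q l₀) (ρ : Tri p q →* Perm Ω) (hG : Good ρ F.R) (i : Fin F.K)
    (x : Ω) (hx : Lam ρ F.R x = F.Γ i) (n : Tri p q) (hn : Cj n (F.Γ i) (F.Γ i)) :
    Lam ρ F.R (ρ n x) = F.Γ i := by
  -- a short representative
  obtain ⟨n', hn'L, hcst⟩ := F.normrep i n hn
  have hh : n'⁻¹ * n ∈ F.Γ i := (cst_eq_iff _ _ _).mp hcst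
  have hfixΓ : ∀ h ∈ F.Γ i, ρ h x = x := fun h hh => lam_fix ρ F.R x (by rw [hx]; exact hh)
  have hz : ρ n x = ρ n' x := by
    have h1 : n = n' * (n'⁻¹ * n) := by group
    conv_lhs => rw [h1, map_mul]
    rw [Perm.mul_apply, hfixΓ _ hh]
  have hcj : Cj n' (F.Γ i) (F.Γ i) := by
    intro k
    have h1 : k ∈ F.Γ i ↔ (n'⁻¹ * n)⁻¹ * k * (n'⁻¹ * n) ∈ F.Γ i := by
      constructor
      · intro hk
        exact (F.Γ i).mul_mem ((F.Γ i).mul_mem ((F.Γ i).inv_mem hh) hk) hh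
      · intro hk
        have := (F.Γ i).mul_mem ((F.Γ i).mul_mem hh hk) ((F.Γ i).inv_mem hh)
        have h2 : (n'⁻¹ * n) * ((n'⁻¹ * n)⁻¹ * k * (n'⁻¹ * n)) * (n'⁻¹ * n)⁻¹ = k := by group
        rwa [h2] at this
    rw [h1, hn ((n'⁻¹ * n)⁻¹ * k * (n'⁻¹ * n))]
    have h2 : n * ((n'⁻¹ * n)⁻¹ * k * (n'⁻¹ * n)) * n⁻¹ = n' * k * n'⁻¹ := by group
    rw [h2]
  rw [hz]
  -- `γ i` fixes `z`
  have hR := F.hR
  have hg1 : n'⁻¹ * F.γ i * n' ∈ F.Γ i := by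
    rw [hcj]
    have h2 : n' * (n'⁻¹ * F.γ i * n') * n'⁻¹ = F.γ i := by group
    rw [h2]
    exact Subgroup.mem_zpowers _
  have hγz : ρ (F.γ i) (ρ n' x) = ρ n' x := by
    have h1 : F.γ i * n' = n' * (n'⁻¹ * F.γ i * n') := by group
    rw [← Perm.mul_apply, ← map_mul, h1, map_mul, Perm.mul_apply, hfixΓ _ hg1]
  have hγL : F.γ i ∈ Lam ρ F.R (ρ n' x) :=
    mem_lam ρ F.R _ (ball_mono (by omega) (F.γ_ball i)) hγz
  apply le_antisymm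
  · obtain ⟨δ, hδ⟩ := lam_cyclic ρ F.R hG (ρ n' x)
    rw [hδ] at hγL ⊢
    obtain ⟨k, hk⟩ := Subgroup.mem_zpowers_iff.mp hγL
    have hδ4 : δ ∈ ballT p q F.L₄ := F.root1 (F.γ i) (F.γ_ball i) (F.adm i) δ ⟨k, hk⟩
    have hδfix : ρ δ (ρ n' x) = ρ n' x := by
      apply lam_fix ρ F.R
      rw [hδ]
      exact Subgroup.mem_zpowers δ
    have h2 : ρ (n'⁻¹ * δ * n') x = x := by
      rw [map_mul, map_mul, Perm.mul_apply, Perm.mul_apply, hδfix, nrm_inv_apply]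
    have h3 : n'⁻¹ * δ * n' ∈ ballT p q (F.L₃ + F.L₄ + F.L₃) :=
      ball_mul (ball_mul (ball_inv hn'L) hδ4) hn'L
    have h4 : n'⁻¹ * δ * n' ∈ F.Γ i := by
      rw [← hx]
      exact mem_lam ρ F.R x (ball_mono (by omega) h3) h2
    rw [hcj] at h4
    have h5 : n' * (n'⁻¹ * δ * n') * n'⁻¹ = δ := by group
    rw [h5] at h4
    rw [Subgroup.zpowers_le]
    exact h4
  · rw [Subgroup.zpowers_le]
    exact hγL

theorem norm_free (F : Frame p q l₀) (ρ : Tri p q →* Perm Ω) (i : Fin F.K)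
    (x : Ω) (hx : Lam ρ F.R x = F.Γ i) (n n' : Tri p q) (hn : Cj n (F.Γ i) (F.Γ i))
    (hn' : Cj n' (F.Γ i) (F.Γ i)) : ρ n x = ρ n' x ↔ cst (F.γ i) n = cst (F.γ i) n' := by
  have hfixΓ : ∀ h ∈ F.Γ i, ρ h x = x := fun h hh => lam_fix ρ F.R x (by rw [hx]; exact hh)
  have hdep : ∀ g g' : Tri p q, cst (F.γ i) g = cst (F.γ i) g' → ρ g x = ρ g' x := by
    intro g g' h
    have h1 : g⁻¹ * g' ∈ F.Γ i := (cst_eq_iff _ _ _).mp h
    have h2 : g' = g * (g⁻¹ * g') := by group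
    conv_rhs => rw [h2, map_mul]
    rw [Perm.mul_apply, hfixΓ _ h1]
  constructor
  · intro h
    obtain ⟨m, hmL, hm⟩ := F.normrep i n hn
    obtain ⟨m', hmL', hm'⟩ := F.normrep i n' hn'
    have h1 : ρ m x = ρ m' x := by rw [hdep m n hm, hdep m' n' hm', h]
    have h2 : ρ (m⁻¹ * m') x = x := by
      rw [map_mul, Perm.mul_apply, ← h1, nrm_inv_apply]
    have h3 : m⁻¹ * m' ∈ F.Γ i := by
      rw [← hx]
      have hR := F.hR
      exact mem_lam ρ F.R x (ball_mono (by omega) (ball_mul (ball_inv hmL) hmL')) h2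
    rw [← hm, ← hm']
    exact (cst_eq_iff _ _ _).mpr h3
  · exact hdep n n'

theorem class_card (F : Frame p q l₀) (ρ : Tri p q →* Perm Ω) (hG : Good ρ F.R)
    (i : Fin F.K) (x : Ω) (hx : Lam ρ F.R x = F.Γ i) :
    Nat.card {x' : Ω // Lam ρ F.R x' = F.Γ i ∧ ∃ n, Cj n (F.Γ i) (F.Γ i) ∧ x' = ρ n x} =
      F.α i := by
  symm
  refine Nat.card_congr (Equiv.ofBijective (fun y =>
    ⟨ρ y.2.choose x, norm_act F ρ hG i x hx _ y.2.choose_spec.1, y.2.choose,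
      y.2.choose_spec.1, rfl⟩) ⟨?_, ?_⟩)
  · intro y y' h
    have h1 : ρ y.2.choose x = ρ y'.2.choose x := congrArg (fun z => z.1) h
    have h2 := (norm_free F ρ i x hx _ _ y.2.choose_spec.1 y'.2.choose_spec.1).mp h1
    apply Subtype.ext
    rw [y.2.choose_spec.2, y'.2.choose_spec.2]
    exact h2
  · rintro ⟨x', hx', n, hn, rfl⟩
    refine ⟨⟨cst (F.γ i) n, n, hn, rfl⟩, ?_⟩
    apply Subtype.ext
    have hex : ∃ n', Cj n' (F.Γ i) (F.Γ i) ∧ cst (F.γ i) n = cst (F.γ i) n' := ⟨n, hn, rfl⟩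
    exact (norm_free F ρ i x hx _ _ hex.choose_spec.1 hn).mpr hex.choose_spec.2.symm

end MPbcd198.M
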