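import Mathlib

/-!
# MP_bcd198_co, stream M, job Quo: counting tuples of distinct classes

Let `W` be a finite type with an equivalence relation whose class of `w` has `α w` elements.
The number of injective maps `Fin l → Quotient s` is `(Nat.card (Quotient s)).descFactorial l`
(`Fintype.card_embedding_eq`).  The map `w ↦ (j ↦ ⟦w j⟧)` sends the tuples `w : Fin l → W` with pairwise
inequivalent entries onto the injective maps `φ`, and the fibre over `φ` is the set of all `w`
with `⟦w j⟧ = φ j` for all `j`, i.e. the product of the classes; on the fibre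
`∏ 1/α (w j) = ∏ 1/|φ j|`, so the sum over the fibre is `∏_j |φ j| / |φ j| = 1`
(classes are nonempty).
-/

set_option autoImplicit false

namespace MPbcd198.M

private theorem Quo_class {W : Type} [Fintype W] [DecidableEq W] (s : Setoid W)
    [DecidableEq (Quotient s)] (α : W → ℕ)
    (hα : ∀ w, Nat.card {w' : W // s.r w w'} = α w) (c : Quotient s) :
    ∑ w ∈ Finset.univ.filter (fun w : W => Quotient.mk s w = c), (1 : ℝ) / (α w : ℝ) = 1 := by
  classical
  have h1 : ∀ w : W, Quotient.mk s w = c →
      α w = (Finset.univ.filter (fun w : W => Quotient.mk s w = c)).card := by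
    intro w hw
    rw [← hα w, Nat.card_eq_fintype_card, Fintype.card_subtype]
    congr 1
    ext w'
    simp only [Finset.mem_filter, Finset.mem_univ, true_and]
    rw [← hw, Quotient.eq]
    constructor
    · intro h
      exact s.symm h
    · intro h
      exact s.symm h
  have h2 : ∀ w ∈ Finset.univ.filter (fun w : W => Quotient.mk s w = c), (1 : ℝ) / (α w : ℝ) =
      1 / ((Finset.univ.filter (fun w : W => Quotient.mk s w = c)).card : ℝ) := by
    intro w hw
    rw [h1 w (Finset.mem_filter.1 hw).2]
  rw [Finset.sum_congr rfl h2, Finset.sum_const, nsmul_eq_mul, mul_one_div_cancel]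
  obtain ⟨w, hw⟩ := Quotient.exists_rep c
  have h3 : 0 < (Finset.univ.filter (fun w : W => Quotient.mk s w = c)).card :=
    Finset.card_pos.2 ⟨w, Finset.mem_filter.2 ⟨Finset.mem_univ _, hw⟩⟩
  exact_mod_cast h3.ne'

theorem quot_count {W : Type} [Finite W] (s : Setoid W) (α : W → ℕ)
    (hα : ∀ w, Nat.card {w' : W // s.r w w'} = α w) (l : ℕ) :
    ((Nat.card (Quotient s)).descFactorial l : ℝ) =
      ∑ᶠ w : {w : Fin l → W // ∀ j k, j ≠ k → ¬ s.r (w j) (w k)},
        ∏ j, (1 : ℝ) / (α (w.1 j) : ℝ) := by
  classical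
  have : Fintype W := Fintype.ofFinite W
  have : Fintype (Quotient s) := Fintype.ofFinite _
  rw [finsum_eq_sum_of_fintype]
  have h0 : ((Nat.card (Quotient s)).descFactorial l : ℝ) =
      ∑ φ : Fin l ↪ Quotient s, (1 : ℝ) := by
    rw [Finset.sum_const, Finset.card_univ, Fintype.card_embedding_eq, Fintype.card_fin,
      Nat.card_eq_fintype_card, nsmul_eq_mul, mul_one]
  rw [h0]
  let F : {w : Fin l → W // ∀ j k, j ≠ k → ¬ s.r (w j) (w k)} → (Fin l ↪ Quotient s) := fun w =>
    ⟨fun j => Quotient.mk s (w.1 j), fun j k hjk => by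
      by_contra hne
      exact w.2 j k hne (Quotient.exact hjk)⟩
  rw [← Finset.sum_fiberwise Finset.univ F]
  refine Finset.sum_congr rfl fun φ _ => ?_
  have h1 : ∑ w ∈ Finset.univ.filter (fun w => F w = φ), ∏ j, (1 : ℝ) / (α (w.1 j) : ℝ) =
      ∑ x ∈ Fintype.piFinset (fun j => Finset.univ.filter fun w : W => Quotient.mk s w = φ j),
        ∏ j, (1 : ℝ) / (α (x j) : ℝ) := by
    refine Finset.sum_bij (fun w _ => w.1) ?_ ?_ ?_ ?_
    · intro w hw
      rw [Fintype.mem_piFinset]
      intro j
      rw [Finset.mem_filter]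
      refine ⟨Finset.mem_univ _, ?_⟩
      have h2 := (Finset.mem_filter.1 hw).2
      rw [← h2]
      rfl
    · intro w _ w' _ h
      exact Subtype.ext h
    · intro x hx
      rw [Fintype.mem_piFinset] at hx
      have hx' : ∀ j, Quotient.mk s (x j) = φ j := fun j => (Finset.mem_filter.1 (hx j)).2
      refine ⟨⟨x, fun j k hjk hr => hjk (φ.injective ?_)⟩, ?_, rfl⟩
      · rw [← hx' j, ← hx' k]
        exact Quotient.sound hr
      · rw [Finset.mem_filter]
        refine ⟨Finset.mem_univ _, ?_⟩
        ext j
        exact hx' j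
    · intro w _
      rfl
  rw [h1, ← Finset.prod_univ_sum (fun j => Finset.univ.filter fun w : W => Quotient.mk s w = φ j)
    (fun _ w => (1 : ℝ) / (α w : ℝ))]
  symm
  exact Finset.prod_eq_one fun j _ => Quo_class s α hα (φ j)

end MPbcd198.M
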