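import Pool.Agent.Lib.MP_bcd198_co.M.EmbE
import Pool.Agent.Lib.MP_bcd198_co.M.Nrm
import Pool.Agent.Lib.MP_bcd198_co.M.Img
import Pool.Agent.Lib.MP_bcd198_co.M.Quo

/-!
# MP_bcd198_co, stream M, job Clu: factorial moments of the number of clusters

`M` is a map on the finite set `Ω`, `ρ = mapHom M.2`, `Good ρ F.R`.  Let
`W = Σ i : Fin F.K, F.Y ρ i` (finite) and `⟨i,x⟩ ~ ⟨j,x'⟩` iff `F.img ρ i x ∩ F.img ρ j x'` is
nonempty, i.e. (`img_meet`) iff `i = j` and `x' = ρ n x` for some `n` normalising `Γ_i`: this is an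
equivalence relation (`cj_one`, `cj_symm`, `cj_trans`), and by `class_card` the class of
`⟨i,x⟩` has `F.α i` elements.  `Z = Nat.card (Quotient s)`.

* If `Z = 0` then `W` is empty, so `Lam ρ R x ≠ Γ_i` for all `i, x`; `no_short`.
* `quot_count` gives
  `(Z)_l = ∑_{w : Fin l → W, pairwise inequivalent} ∏ 1/α (w j).1`.
  A function `w : Fin l → W` is a pair `(i : Fin l → Fin F.K, x : ∀ j, F.Y ρ (i j))`; the weight
  only depends on `i`; pairwise inequivalent means that the sets `F.img ρ (i j) (x j)` are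
  pairwise disjoint.  By `emb_equiv` for each `i j` the families `x` correspond to the families
  of embeddings `ι j : (F.τ (i j)).Emb M.1`, `range (ι j) = F.img ρ (i j) (x j)`, so the number of
  `x` for given `i` is the number of families of embeddings with pairwise disjoint ranges, which
  is `Nat.card ((τ' i).Emb M.1)` by `IsUnion.emb`.
-/

set_option autoImplicit false

namespace MPbcd198.M

open Equiv

variable {p q l₀ : ℕ}

private def Clu_s (F : Frame p q l₀) {Ω : Type} (M : MapOn p q Ω) :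
    Setoid (Σ i : Fin F.K, F.Y (mapHom M.2) i) where
  r w w' := w.1 = w'.1 ∧ ∃ n, Cj n (F.Γ w.1) (F.Γ w.1) ∧ w'.2.1 = mapHom M.2 n w.2.1
  iseqv := by
    refine ⟨fun w => ⟨rfl, 1, cj_one _, ?_⟩, ?_, ?_⟩
    · rw [map_one, Perm.one_apply]
    · rintro ⟨i, x⟩ ⟨j, y⟩ ⟨h1, n, h2, h3⟩
      have h1' : i = j := h1
      subst h1'
      refine ⟨rfl, n⁻¹, cj_symm h2, ?_⟩
      have h3' : y.1 = mapHom M.2 n x.1 := h3
      change x.1 = mapHom M.2 n⁻¹ y.1
      rw [h3', ← Perm.mul_apply, ← map_mul, inv_mul_cancel, map_one, Perm.one_apply]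
    · rintro ⟨i, x⟩ ⟨j, y⟩ ⟨k, z⟩ ⟨h1, n, h2, h3⟩ ⟨h4, n', h5, h6⟩
      have h1' : i = j := h1
      subst h1'
      have h4' : i = k := h4
      subst h4'
      refine ⟨rfl, n' * n, cj_trans h2 h5, ?_⟩
      have h3' : y.1 = mapHom M.2 n x.1 := h3
      have h6' : z.1 = mapHom M.2 n' y.1 := h6
      change z.1 = mapHom M.2 (n' * n) x.1
      rw [h6', h3', map_mul, Perm.mul_apply]

private theorem Clu_card (F : Frame p q l₀) {Ω : Type} (M : MapOn p q Ω)
    (hG : Good (mapHom M.2) F.R) (w : Σ i : Fin F.K, F.Y (mapHom M.2) i) :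
    Nat.card {w' : Σ i : Fin F.K, F.Y (mapHom M.2) i // (Clu_s F M).r w w'} = F.α w.1 := by
  rw [← class_card F (mapHom M.2) hG w.1 w.2.1 w.2.2]
  refine Nat.card_eq_of_bijective (fun w' => ⟨w'.1.2.1, ?_, ?_⟩) ⟨?_, ?_⟩
  · have h4 : Lam (mapHom M.2) F.R w'.1.2.1 = F.Γ w'.1.1 := w'.1.2.2
    rw [h4, show w'.1.1 = w.1 from w'.2.1.symm]
  · exact w'.2.2
  · rintro ⟨⟨j, y⟩, h1, n, h2, h3⟩ ⟨⟨j', y'⟩, h1', n', h2', h3'⟩ h
    have e1 : w.1 = j := h1
    have e2 : w.1 = j' := h1'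
    subst e1
    subst e2
    have e3 : y.1 = y'.1 := congrArg (fun z : {x' : Ω // Lam (mapHom M.2) F.R x' = F.Γ w.1 ∧
      ∃ n, Cj n (F.Γ w.1) (F.Γ w.1) ∧ x' = mapHom M.2 n w.2.1} => z.1) h
    have e4 : y = y' := Subtype.ext e3
    subst e4
    rfl
  · rintro ⟨x, h1, n, h2, h3⟩
    exact ⟨⟨⟨w.1, ⟨x, h1⟩⟩, rfl, n, h2, h3⟩, rfl⟩

private theorem Clu_emb (F : Frame p q l₀) {Ω : Type} (M : MapOn p q Ω)
    (hG : Good (mapHom M.2) F.R) (l : ℕ) (i : Fin l → Fin F.K) {N' : ℕ}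
    (τ' : PType p q (Fin N')) (hτ : IsUnion (fun j => F.τ (i j)) τ') :
    Nat.card {w : {w : Fin l → Σ i : Fin F.K, F.Y (mapHom M.2) i //
      ∀ j k, j ≠ k → ¬ (Clu_s F M).r (w j) (w k)} // (fun j => (w.1 j).1) = i} =
      Nat.card (τ'.Emb M.1) := by
  obtain ⟨e⟩ := hτ.emb M.1
  rw [Nat.card_congr e]
  symm
  choose E hE using fun i => emb_equiv F M hG i
  have hmeet : ∀ (a b : Fin F.K) (ι : (F.τ a).Emb M.1) (ι' : (F.τ b).Emb M.1),
      Disjoint (Set.range (ι.1 : Fin (F.N a) → Ω)) (Set.range (ι'.1 : Fin (F.N b) → Ω)) ↔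
        ¬ (Clu_s F M).r ⟨a, E a ι⟩ ⟨b, E b ι'⟩ := by
    intro a b ι ι'
    rw [(hE a ι).2, (hE b ι').2, Set.disjoint_iff_inter_eq_empty, ← Set.not_nonempty_iff_eq_empty,
      img_meet F (mapHom M.2) a b (E a ι).1 (E b ι').1 (E a ι).2 (E b ι').2]
    rfl
  refine Nat.card_eq_of_bijective (fun ι => ⟨⟨fun j => ⟨i j, E (i j) (ι.1 j)⟩,
    fun j k hjk => (hmeet _ _ _ _).1 (ι.2 j k hjk)⟩, rfl⟩) ⟨?_, ?_⟩
  · rintro ⟨ι, hι⟩ ⟨ι', hι'⟩ h
    have h1 : (fun j => (⟨i j, E (i j) (ι j)⟩ : Σ i : Fin F.K, F.Y (mapHom M.2) i)) =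
        fun j => ⟨i j, E (i j) (ι' j)⟩ := congrArg (fun z => z.1.1) h
    apply Subtype.ext
    funext j
    have h2 := congrFun h1 j
    have h3 : E (i j) (ι j) = E (i j) (ι' j) := eq_of_heq (Sigma.mk.inj h2).2
    exact (E (i j)).injective h3
  · rintro ⟨⟨w, hw⟩, hi⟩
    have hi' : (fun j => (w j).1) = i := hi
    subst hi'
    have hw2 : ∀ j, (⟨(w j).1, E (w j).1 ((E (w j).1).symm (w j).2)⟩ :
        Σ i : Fin F.K, F.Y (mapHom M.2) i) = w j := by
      intro j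
      rw [Equiv.apply_symm_apply]
    refine ⟨⟨fun j => (E (w j).1).symm (w j).2, fun j k hjk => ?_⟩, ?_⟩
    · rw [hmeet, hw2, hw2]
      exact hw j k hjk
    · apply Subtype.ext
      apply Subtype.ext
      funext j
      exact hw2 j

theorem cluster_main (hyp : Hyp p q) (F : Frame p q l₀) {Ω : Type} [Finite Ω]
    (M : MapOn p q Ω) (hG : Good (mapHom M.2) F.R) :
    ∃ Z : ℕ, (Z = 0 → NoShort (mapHom M.2) l₀) ∧
      ∀ (l : ℕ) (N' : (Fin l → Fin F.K) → ℕ) (τ' : ∀ i, PType p q (Fin (N' i))),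
        (∀ i : Fin l → Fin F.K, IsUnion (fun j => F.τ (i j)) (τ' i)) →
        (Z.descFactorial l : ℝ) = ∑ i : Fin l → Fin F.K,
          (∏ j, (1 : ℝ) / (F.α (i j) : ℝ)) * (Nat.card ((τ' i).Emb M.1) : ℝ) := by
  classical
  have hfY : ∀ i : Fin F.K, Finite (F.Y (mapHom M.2) i) := fun i => by
    unfold Frame.Y
    infer_instance
  have hfW : Finite (Σ i : Fin F.K, F.Y (mapHom M.2) i) := inferInstance
  refine ⟨Nat.card (Quotient (Clu_s F M)), fun h0 => ?_, fun l N' τ' hτ => ?_⟩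
  · have hq : IsEmpty (Quotient (Clu_s F M)) := by
      rcases Nat.card_eq_zero.1 h0 with h | h
      · exact h
      · exact absurd (inferInstance : Finite (Quotient (Clu_s F M))) (not_finite_iff_infinite.2 h)
    refine no_short hyp F (mapHom M.2) (mapHom_isMapHom M) hG fun i x hx => ?_
    exact hq.false (Quotient.mk (Clu_s F M) ⟨i, ⟨x, hx⟩⟩)
  · rw [quot_count (Clu_s F M) (fun w => F.α w.1) (Clu_card F M hG) l]
    have hfT : Finite {w : Fin l → Σ i : Fin F.K, F.Y (mapHom M.2) i //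
      ∀ j k, j ≠ k → ¬ (Clu_s F M).r (w j) (w k)} := inferInstance
    have : Fintype {w : Fin l → Σ i : Fin F.K, F.Y (mapHom M.2) i //
      ∀ j k, j ≠ k → ¬ (Clu_s F M).r (w j) (w k)} := Fintype.ofFinite _
    rw [finsum_eq_sum_of_fintype, ← Finset.sum_fiberwise Finset.univ
      (fun w : {w : Fin l → Σ i : Fin F.K, F.Y (mapHom M.2) i //
        ∀ j k, j ≠ k → ¬ (Clu_s F M).r (w j) (w k)} => (fun j => (w.1 j).1))]
    refine Finset.sum_congr rfl fun i _ => ?_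
    rw [← Clu_emb F M hG l i (τ' i) (hτ i), Nat.card_eq_fintype_card, Fintype.card_subtype,
      mul_comm, ← nsmul_eq_mul, ← Finset.sum_const]
    refine Finset.sum_congr rfl fun w hw => ?_
    have h1 := (Finset.mem_filter.1 hw).2
    refine Finset.prod_congr rfl fun j _ => ?_
    rw [← congrFun h1 j]

end MPbcd198.M
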