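import Pool.Agent.Lib.MP_bcd198_co.M.Ball

/-!
# MP_bcd198_co, stream M, job Cov: union bound over finitely many planted types

* `finite_ptype`: a `PType` on a finite set is determined by `(S, a, b, c)`
  (`cases`/`congr`, all other fields are propositions).
* `embCount_eq`: `embCount τ m = Nat.card (Σ M : MapOn p q (Fin (2m)), τ.Emb M.1)` (obvious
  bijection).
* `count_cover`: every pair `(M, x)` with `P m M x` is of the form `(M, ι ∘ y)` with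
  `N ≤ C₀`, `τ` in the finite set `T_N` of types on `Fin N` with `HullWeak` and `chi ≤ c`,
  `y : Fin k → Fin N`, `ι ∈ Emb τ M`.  So
  `card {(M,x) : P} ≤ Σ_{N ≤ C₀} Σ_{τ ∈ T_N} Σ_{y : Fin k → Fin N} embCount τ m`
  (surjection from a sigma type) and by `thmP_weak`
  `embCount τ m ≤ C_τ (2m)^{τ.chi} NMap ≤ max(C_τ,0) (2m)^c NMap` as `2m ≥ 1`, `τ.chi ≤ c`
  (`Real.rpow_le_rpow_of_exponent_le`).  Put `C = Σ_N Σ_τ N^k max(C_τ, 0)`.
-/

set_option autoImplicit false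

namespace MPbcd198.M

open Equiv

variable {p q : ℕ}

theorem finite_ptype (N : ℕ) : Finite (PType p q (Fin N)) := by
  refine Finite.of_injective
    (fun τ : PType p q (Fin N) => (τ.S, τ.a, τ.b, τ.c)) ?_
  rintro ⟨S, a, b, c, _, _, _, _, _, _, _, _, _, _⟩ ⟨S', a', b', c', _, _, _, _, _, _, _, _, _, _⟩ h
  simp only [Prod.mk.injEq] at h
  obtain ⟨rfl, rfl, rfl, rfl⟩ := h
  rfl

theorem embCount_eq {N : ℕ} (τ : PType p q (Fin N)) (m : ℕ) :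
    embCount τ m = Nat.card (Σ M : MapOn p q (Fin (2 * m)), τ.Emb M.1) := by
  unfold embCount
  exact Nat.card_congr {
    toFun := fun x => ⟨x.1.1, ⟨x.1.2, x.2⟩⟩
    invFun := fun z => ⟨(z.1, z.2.1), z.2.2⟩
    left_inv := fun _ => rfl
    right_inv := fun _ => rfl }

theorem count_cover (hyp : Hyp p q) (k : ℕ) (c : ℝ) (C₀ : ℕ)
    (P : ∀ m : ℕ, MapOn p q (Fin (2 * m)) → (Fin k → Fin (2 * m)) → Prop)
    (h : ∀ m : ℕ, 0 < m → ∀ (M : MapOn p q (Fin (2 * m))) (x : Fin k → Fin (2 * m)), P m M x →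
      ∃ N : ℕ, N ≤ C₀ ∧ ∃ τ : PType p q (Fin N), τ.HullWeak ∧ τ.chi ≤ c ∧
        ∃ ι : τ.Emb M.1, ∀ i, x i ∈ Set.range (ι.1 : Fin N → Fin (2 * m))) :
    ∃ C : ℝ, 0 ≤ C ∧ ∀ m : ℕ, 0 < m →
      (Nat.card {z : MapOn p q (Fin (2 * m)) × (Fin k → Fin (2 * m)) // P m z.1 z.2} : ℝ) ≤
        C * (2 * m : ℝ) ^ c * (NMap p q m : ℝ) := by
  classical
  have hW : ∀ (N : ℕ) (τ : {τ : PType p q (Fin N) // τ.HullWeak ∧ τ.chi ≤ c}), ∃ C : ℝ,
      ∀ m : ℕ, 0 < m →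
        (embCount τ.1 m : ℝ) ≤ C * (2 * m : ℝ) ^ τ.1.chi * (NMap p q m : ℝ) :=
    fun N τ => thmP_weak hyp τ.1 τ.2.1
  choose W hW using hW
  haveI : ∀ N, Finite (PType p q (Fin N)) := fun N => finite_ptype N
  letI : ∀ N, Fintype {τ : PType p q (Fin N) // τ.HullWeak ∧ τ.chi ≤ c} :=
    fun N => Fintype.ofFinite _
  refine ⟨∑ N : Fin (C₀ + 1), ∑ τ : {τ : PType p q (Fin (N : ℕ)) // τ.HullWeak ∧ τ.chi ≤ c},
    ((N : ℕ) : ℝ) ^ k * max (W N τ) 0, Finset.sum_nonneg fun N _ => Finset.sum_nonneg fun τ _ =>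
      mul_nonneg (pow_nonneg (Nat.cast_nonneg _) _) (le_max_right _ _), ?_⟩
  intro m hm
  haveI hfE : ∀ (N : ℕ) (τ : PType p q (Fin N)) (M : MapOn p q (Fin (2 * m))),
      Finite (τ.Emb M.1) := by
    intro N τ M
    unfold PType.Emb
    infer_instance
  have key : ∀ z : {z : MapOn p q (Fin (2 * m)) × (Fin k → Fin (2 * m)) // P m z.1 z.2},
      ∃ t : (Σ N : Fin (C₀ + 1), Σ τ : {τ : PType p q (Fin (N : ℕ)) // τ.HullWeak ∧ τ.chi ≤ c},
        (Fin k → Fin (N : ℕ)) × (Σ M : MapOn p q (Fin (2 * m)), τ.1.Emb M.1)),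
        z.1 = (t.2.2.2.1, fun i => t.2.2.2.2.1 (t.2.2.1 i)) := by
    rintro ⟨⟨M, x⟩, hx⟩
    obtain ⟨N, hN, τ, h1, h2, ι, hι⟩ := h m hm M x hx
    choose y hy using hι
    refine ⟨⟨⟨N, Nat.lt_succ_of_le hN⟩, ⟨τ, h1, h2⟩, y, ⟨M, ι⟩⟩, ?_⟩
    simp only [Prod.mk.injEq, true_and]
    funext i
    exact (hy i).symm
  choose f hf using key
  have hinj : Function.Injective f := fun z z' hzz => Subtype.ext (by rw [hf z, hf z', hzz])
  have h1 := Nat.card_le_card_of_injective f hinj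
  rw [Nat.card_sigma] at h1
  have h2 : ∀ N : Fin (C₀ + 1),
      Nat.card (Σ τ : {τ : PType p q (Fin (N : ℕ)) // τ.HullWeak ∧ τ.chi ≤ c},
        (Fin k → Fin (N : ℕ)) × (Σ M : MapOn p q (Fin (2 * m)), τ.1.Emb M.1)) =
      ∑ τ : {τ : PType p q (Fin (N : ℕ)) // τ.HullWeak ∧ τ.chi ≤ c},
        (N : ℕ) ^ k * embCount τ.1 m := by
    intro N
    rw [Nat.card_sigma]
    refine Finset.sum_congr rfl fun τ _ => ?_
    rw [Nat.card_prod, Nat.card_fun, embCount_eq]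
    simp only [Nat.card_eq_fintype_card, Fintype.card_fin]
  rw [Finset.sum_congr rfl fun N _ => h2 N] at h1
  have h3 : (Nat.card {z : MapOn p q (Fin (2 * m)) × (Fin k → Fin (2 * m)) // P m z.1 z.2} : ℝ) ≤
      ∑ N : Fin (C₀ + 1), ∑ τ : {τ : PType p q (Fin (N : ℕ)) // τ.HullWeak ∧ τ.chi ≤ c},
        ((N : ℕ) : ℝ) ^ k * (embCount τ.1 m : ℝ) := by
    exact_mod_cast h1
  refine h3.trans ?_
  rw [Finset.sum_mul, Finset.sum_mul]
  refine Finset.sum_le_sum fun N _ => ?_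
  rw [Finset.sum_mul, Finset.sum_mul]
  refine Finset.sum_le_sum fun τ _ => ?_
  rw [mul_assoc, mul_assoc]
  refine mul_le_mul_of_nonneg_left ?_ (pow_nonneg (Nat.cast_nonneg _) _)
  refine (hW N τ m hm).trans ?_
  rw [← mul_assoc]
  refine mul_le_mul_of_nonneg_right ?_ (Nat.cast_nonneg _)
  have hm1 : (1 : ℝ) ≤ 2 * m := by
    have : (1 : ℝ) ≤ m := by exact_mod_cast hm
    linarith
  have h4 : (2 * m : ℝ) ^ τ.1.chi ≤ (2 * m : ℝ) ^ c :=
    Real.rpow_le_rpow_of_exponent_le hm1 τ.2.2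
  calc W N τ * (2 * m : ℝ) ^ τ.1.chi ≤ max (W N τ) 0 * (2 * m : ℝ) ^ τ.1.chi :=
        mul_le_mul_of_nonneg_right (le_max_left _ _) (Real.rpow_nonneg (by linarith) _)
    _ ≤ max (W N τ) 0 * (2 * m : ℝ) ^ c :=
        mul_le_mul_of_nonneg_left h4 (le_max_right _ _)

end MPbcd198.M
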