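import Pool.Agent.Lib.MP_bcd198_co.M.Fac
import Pool.Agent.Lib.MP_bcd198_co.M.Hat

/-!
# MP_bcd198_co, stream M, job EmbB: embeddings of the hull types are given by the base flag

`M` is a map on `Ω`, `ρ = mapHom M.2` (`mapHom_gen`), `Γ = F.Γ i = ⟨γ i⟩`,
`e = F.e i : Fin N → D/Γ` injective with image `hat H`, `H = F.H i`, `ρ' = cosetHom Γ`.

* `emb_word`: let `e y₀ = cst 1`, `x = ι y₀`.  If `w` is a word staying in `H` from `cst 1` and
  `e y = cst (w.prod)` then `ι y = ρ (w.prod) x`.  Induction on `w`: the empty word: `y = y₀`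
  by injectivity.  For `s :: w`: `cst (w.prod) = ρ' (w.prod) (cst 1) ∈ H` (part of `StaysIn`)
  `⊆ hat H = range e`, say `e y' = cst (w.prod)`; put `y'' = τ.a y'`, `τ.b y'`, `τ.c y'` for
  `s = 0, 1, 2`.  By `Models.ha/hb/hc` (for `a`: `y' ∈ τ.S` by `memS`)
  `e y'' = ρ' (gen s) (e y') = cst ((s::w).prod) = e y`, so `y'' = y` and
  `ι y = ρ (gen s) (ι y')` by the definition of `Emb` and `mapHom_gen`.
* `emb_base`: `y₀` exists since `cst 1 ∈ H` (`F.H1`, `one_mem_ball`) and `H ⊆ hat H`; `x = ι y₀`.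
  `γ i ∈ ballT L₁` is the product of a word of length `≤ L₁` staying in `H`
  (`F.H1`, `staysIn_of_ball`, with `cosetHom_apply`), and `cst (γ i) (γ i) = cst 1`, so by
  `emb_word` `ρ (γ i) x = ι y₀ = x`; hence every element of `Γ` fixes `x`.
  For any `y`: `e y ∈ hat H`, so there is `v ∈ vSub` with `ρ' v (e y) ∈ H`; by
  `F.conn` and `sconn_word` there is a word `w` staying in `H` with `cst (w.prod) = ρ' v (e y)`;
  let `e z = ρ' v (e y)`, so `ι z = ρ (w.prod) x`.  For every `u ∈ vSub` and all `z, z'` with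
  `e z' = ρ' u (e z)` one has `ι z' = ρ u (ι z)` (closure induction, `hb`, `hc`, injectivity of
  `e`); apply it to `u = v⁻¹`, `z' = y`: `ι y = ρ (v⁻¹ w.prod) x`, `e y = cst (v⁻¹ w.prod)`.
  If also `e y = cst g` then `g = v⁻¹ w.prod h` with `h ∈ Γ` (`cst_eq_iff`), and `ρ h x = x`.
-/

set_option autoImplicit false

namespace MPbcd198.M

open Equiv

variable {p q l₀ : ℕ} {Ω : Type}

/-- every flag of `hat H` is labelled -/
private theorem embb_hat (F : Frame p q l₀) (i : Fin F.K)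
    {z : Tri p q ⧸ Subgroup.zpowers (F.γ i)}
    (hz : z ∈ hat (cosetHom (Subgroup.zpowers (F.γ i))) (F.H i)) : ∃ y, F.e i y = z := by
  rw [← (F.models i).range] at hz
  exact hz

private theorem embb_mem (F : Frame p q l₀) (i : Fin F.K)
    {z : Tri p q ⧸ Subgroup.zpowers (F.γ i)} (hz : z ∈ F.H i) : ∃ y, F.e i y = z :=
  embb_hat F i (subset_hat (cosetHom (Subgroup.zpowers (F.γ i))) (F.H i) z hz)

private theorem embb_stays {X : Type} (ρ : Tri p q →* Perm X) (S : Finset X) (x : X)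
    (w : List (Fin 3)) (h : StaysIn ρ S x w) : ρ (w.map (gen p q)).prod x ∈ S := by
  cases w with
  | nil => simpa [StaysIn] using h
  | cons s w => exact h.2

private theorem embb_word (F : Frame p q l₀) (M : MapOn p q Ω) (i : Fin F.K)
    (ι : (F.τ i).Emb M.1) (y₀ : Fin (F.N i)) (hy₀ : F.e i y₀ = cst (F.γ i) 1)
    (w : List (Fin 3)) :
    StaysIn (cosetHom (Subgroup.zpowers (F.γ i))) (F.H i) (cst (F.γ i) 1) w →
      ∀ y : Fin (F.N i), F.e i y = cst (F.γ i) (w.map (gen p q)).prod →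
        ι.1 y = mapHom M.2 (w.map (gen p q)).prod (ι.1 y₀) := by
  obtain ⟨m0, m1, m2⟩ := mapHom_gen M
  have hmod := F.models i
  induction w with
  | nil =>
    intro _ y hy
    have : y = y₀ := hmod.inj (by rw [hy, hy₀]; simp)
    subst this
    simp
  | cons s w ih =>
    intro hst y hy
    have h1 := embb_stays _ _ _ w hst.1
    rw [cosetHom_apply, mul_one] at h1
    obtain ⟨y', hy'⟩ := embb_mem F i h1
    have h2 := ih hst.1 y' hy'
    have h3 : mapHom M.2 ((s :: w).map (gen p q)).prod (ι.1 y₀) =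
        mapHom M.2 (gen p q s) (ι.1 y') := by
      rw [h2, List.map_cons, List.prod_cons, map_mul, Perm.mul_apply]
    have h4 : F.e i y = cosetHom (Subgroup.zpowers (F.γ i)) (gen p q s) (F.e i y') := by
      rw [hy, hy', cosetHom_apply, List.map_cons, List.prod_cons]
    rw [h3]
    fin_cases s
    · have hS : y' ∈ (F.τ i).S := by
        rw [hmod.memS, hy']; exact h1
      have h5 : (F.τ i).a y' = y := hmod.inj (by rw [hmod.ha y' hS, h4]; rfl)
      rw [← h5, ι.2.2.2 y' hS]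
      exact (DFunLike.congr_fun m0 (ι.1 y')).symm
    · have h5 : (F.τ i).b y' = y := hmod.inj (by rw [hmod.hb y', h4]; rfl)
      rw [← h5, ι.2.1 y']
      exact (DFunLike.congr_fun m1 (ι.1 y')).symm
    · have h5 : (F.τ i).c y' = y := hmod.inj (by rw [hmod.hc y', h4]; rfl)
      rw [← h5, ι.2.2.1 y']
      exact (DFunLike.congr_fun m2 (ι.1 y')).symm

private theorem embb_vsub (F : Frame p q l₀) (M : MapOn p q Ω) (i : Fin F.K)
    (ι : (F.τ i).Emb M.1) (u : Tri p q) (hu : u ∈ vSub p q) :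
    ∀ z z' : Fin (F.N i), F.e i z' = cosetHom (Subgroup.zpowers (F.γ i)) u (F.e i z) →
      ι.1 z' = mapHom M.2 u (ι.1 z) := by
  obtain ⟨m0, m1, m2⟩ := mapHom_gen M
  have hmod := F.models i
  unfold vSub at hu
  induction hu using Subgroup.closure_induction with
  | mem u hu =>
    intro z z' h
    rcases hu with rfl | hu
    · have h5 : (F.τ i).b z = z' := hmod.inj (by rw [hmod.hb z, h])
      rw [← h5, ι.2.1 z, m1]
    · rw [Set.mem_singleton_iff] at hu
      subst hu
      have h5 : (F.τ i).c z = z' := hmod.inj (by rw [hmod.hc z, h])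
      rw [← h5, ι.2.2.1 z, m2]
  | one =>
    intro z z' h
    have : z' = z := hmod.inj (by rw [h]; simp)
    subst this
    simp
  | mul u v hu hv ihu ihv =>
    intro z z' h
    have hz : F.e i z ∈ hat (cosetHom (Subgroup.zpowers (F.γ i))) (F.H i) := by
      rw [← hmod.range]; exact ⟨z, rfl⟩
    obtain ⟨z₂, hz₂⟩ := embb_hat F i (hat_v _ _ (g := v) hv hz)
    have h1 := ihv z z₂ hz₂
    have h2 := ihu z₂ z' (by rw [hz₂, h, map_mul, Perm.mul_apply])
    rw [h2, h1, map_mul, Perm.mul_apply]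
  | inv u hu ih =>
    intro z z' h
    have h1 := ih z' z (by
      rw [h, ← Perm.mul_apply, ← map_mul]
      simp)
    rw [h1, ← Perm.mul_apply, ← map_mul]
    simp

/-- embeddings are given by the action on the base flag (no hypothesis on `M`) -/
theorem emb_base (F : Frame p q l₀) (M : MapOn p q Ω) (i : Fin F.K) (ι : (F.τ i).Emb M.1) :
    ∃ x : Ω, ∀ (y : Fin (F.N i)) (g : Tri p q), F.e i y = cst (F.γ i) g →
      ι.1 y = mapHom M.2 g x := by
  have hmod := F.models i
  have h1H : cst (F.γ i) 1 ∈ F.H i := F.H1 i 1 (one_mem_ball _)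
  obtain ⟨y₀, hy₀⟩ := embb_mem F i h1H
  refine ⟨ι.1 y₀, ?_⟩
  -- the generator fixes the base flag
  have hfix : mapHom M.2 (F.γ i) (ι.1 y₀) = ι.1 y₀ := by
    obtain ⟨w, hw, hwγ⟩ := F.γ_ball i
    have hst : StaysIn (cosetHom (Subgroup.zpowers (F.γ i))) (F.H i) (cst (F.γ i) 1) w := by
      apply staysIn_of_ball _ F.L₁ _ _ _ w hw
      intro g hg
      rw [cosetHom_apply, mul_one]
      exact F.H1 i g hg
    have h2 := embb_word F M i ι y₀ hy₀ w hst y₀ (by
      rw [hwγ, hy₀, cst_eq_iff]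
      simp)
    rw [hwγ] at h2
    exact h2.symm
  have hfixΓ : ∀ h ∈ Subgroup.zpowers (F.γ i), mapHom M.2 h (ι.1 y₀) = ι.1 y₀ := by
    intro h hh
    rw [Subgroup.zpowers_eq_closure] at hh
    induction hh using Subgroup.closure_induction with
    | mem u hu =>
      rw [Set.mem_singleton_iff] at hu
      subst hu
      exact hfix
    | one => simp
    | mul u v _ _ ihu ihv => rw [map_mul, Perm.mul_apply, ihv, ihu]
    | inv u _ ih =>
      have : mapHom M.2 u⁻¹ (mapHom M.2 u (ι.1 y₀)) = ι.1 y₀ := by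
        rw [← Perm.mul_apply, ← map_mul]
        simp
      rw [ih] at this
      exact this
  intro y g hg
  have hyhat : F.e i y ∈ hat (cosetHom (Subgroup.zpowers (F.γ i))) (F.H i) := by
    rw [← hmod.range]; exact ⟨y, rfl⟩
  obtain ⟨v, hv, hvH⟩ := hyhat
  obtain ⟨z, hz⟩ := embb_mem F i hvH
  obtain ⟨w, hw, hwz⟩ := sconn_word _ _ h1H (F.conn i _ hvH)
  rw [cosetHom_apply, mul_one] at hwz
  have h3 := embb_word F M i ι y₀ hy₀ w hw z (by rw [hz, hwz])
  have h4 := embb_vsub F M i ι v hv y z (by rw [hz])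
  have h5 : ι.1 y = mapHom M.2 (v⁻¹ * (w.map (gen p q)).prod) (ι.1 y₀) := by
    rw [map_mul, Perm.mul_apply, ← h3, h4, ← Perm.mul_apply, ← map_mul]
    simp
  have h6 : F.e i y = cst (F.γ i) (v⁻¹ * (w.map (gen p q)).prod) := by
    rw [← cosetHom_apply, hwz, ← Perm.mul_apply, ← map_mul]
    simp
  have h7 : g⁻¹ * (v⁻¹ * (w.map (gen p q)).prod) ∈ Subgroup.zpowers (F.γ i) :=
    (cst_eq_iff _ _ _).1 (hg.symm.trans h6)
  have h8 := hfixΓ _ h7
  rw [h5]
  have h9 : mapHom M.2 g (mapHom M.2 (g⁻¹ * (v⁻¹ * (w.map (gen p q)).prod)) (ι.1 y₀)) =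
      mapHom M.2 (v⁻¹ * (w.map (gen p q)).prod) (ι.1 y₀) := by
    rw [← Perm.mul_apply, ← map_mul]
    congr 2
    group
  rw [← h9, h8]

end MPbcd198.M
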