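import Pool.Agent.Lib.MP_bcd198_co.M.LamL
import Pool.Agent.Lib.MP_bcd198_co.M.EmbB
import Pool.Agent.Lib.MP_bcd198_co.M.Hat

/-!
# MP_bcd198_co, stream M, job EmbE: [8.2 (A)] embeddings = flags with stabiliser `Γ i`

`M` is a map on `Ω`, `ρ = mapHom M.2` (`mapHom_gen`), `Γ = F.Γ i = ⟨γ i⟩`,
`e = F.e i : Fin N → D/Γ` injective with image `hat H`, `H = F.H i`.

* `emb_of_lam`: if `Lam ρ R x = Γ` then `ρ h x = x` for `h ∈ Γ` (`lam_fix`), so
  `ι y := ρ g x` for any `g` with `e y = cst g` (exists: `cst_surj`) does not depend on `g`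
  (`cst_eq_iff`); it commutes with `a` (on `S`), `b`, `c` by `Models` (`ha`, `hb`, `hc`),
  `cosetHom_apply` and `mapHom_gen`; injective: if `e y = cst g`, `e y' = cst g'` with
  `g, g' ∈ ballT d` (`F.dd`) and `ρ g x = ρ g' x` then `g'⁻¹ g` fixes `x` and is in
  `ballT (2d)`, `2d ≤ R`, so it is in `Lam = Γ` (`mem_lam`) and `cst g = cst g'`.
* `lam_of_emb` (needs `Good`): let `x` be the flag of `emb_base`, `e y₀ = cst 1` (`cst 1 ∈ H ⊆
  hat H = range e`), so `ι y₀ = x`.  `cst 1 = cst (γ i)`, so `x = ι y₀ = ρ (γ i) x`;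
  `γ i ∈ ballT L₁ ⊆ ballT R`, so `γ i ∈ Lam` and `Γ ≤ Lam`.  `Lam = ⟨δ⟩` (`lam_cyclic`),
  `γ i = δ^k`, so `δ ∈ ballT L₄` (`F.root1`, `F.adm`, `F.γ_ball`), `cst δ ∈ H` (`F.H4`)
  `⊆ range e`, say `e y = cst δ`; `ι y = ρ δ x = x = ι y₀` (`lam_fix`), so `y = y₀`,
  `cst δ = cst 1`, `δ ∈ Γ`.
* `emb_equiv`: `E ι = x` (`emb_base`, `lam_of_emb`) with inverse `emb_of_lam`; `x` is determined by
  `ι` (`x = ι y₀`) and `ι` by `x` (every `e y` is a coset, `cst_surj`).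
* `range_emb`: immediate from `emb_equiv`: the range of `ι` is `F.img ρ i (E ι).1`.
-/

set_option autoImplicit false

namespace MPbcd198.M

open Equiv

variable {p q l₀ : ℕ} {Ω : Type}

/-- equal cosets give equal images of a flag fixed by the subgroup -/
private theorem embe_wd (F : Frame p q l₀) (ρ : Tri p q →* Perm Ω) (i : Fin F.K) (x : Ω)
    (hx : Lam ρ F.R x = F.Γ i) {g g' : Tri p q} (h : cst (F.γ i) g = cst (F.γ i) g') :
    ρ g x = ρ g' x := by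
  have h1 : g⁻¹ * g' ∈ Lam ρ F.R x := by
    rw [hx]; exact (cst_eq_iff _ _ _).1 h
  have h2 : ρ (g⁻¹ * g') x = x := lam_fix ρ F.R x h1
  have h3 : ρ g (ρ (g⁻¹ * g') x) = ρ g' x := by
    rw [← Perm.mul_apply, ← map_mul]
    congr 2
    group
  rw [← h3, h2]

theorem emb_of_lam (F : Frame p q l₀) (M : MapOn p q Ω) (i : Fin F.K) (x : Ω)
    (hx : Lam (mapHom M.2) F.R x = F.Γ i) :
    ∃ ι : (F.τ i).Emb M.1, ∀ (y : Fin (F.N i)) (g : Tri p q), F.e i y = cst (F.γ i) g →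
      ι.1 y = mapHom M.2 g x := by
  classical
  choose gy hgb hgy using F.dd i
  obtain ⟨m0, m1, m2⟩ := mapHom_gen M
  have hmod := F.models i
  have key : ∀ (y : Fin (F.N i)) (g : Tri p q), F.e i y = cst (F.γ i) g →
      mapHom M.2 (gy y) x = mapHom M.2 g x := by
    intro y g h
    exact embe_wd F (mapHom M.2) i x hx ((hgy y).symm.trans h)
  have hinj : Function.Injective (fun y => mapHom M.2 (gy y) x) := by
    intro y y' h
    simp only at h
    have h1 : mapHom M.2 ((gy y')⁻¹ * gy y) x = x := by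
      rw [map_mul, Perm.mul_apply, h, ← Perm.mul_apply, ← map_mul]
      simp
    have h2 : (gy y')⁻¹ * gy y ∈ ballT p q F.R :=
      ball_mono (by have := F.hR; omega) (ball_mul (ball_inv (hgb y')) (hgb y))
    have h3 : (gy y')⁻¹ * gy y ∈ Lam (mapHom M.2) F.R x := mem_lam _ _ _ h2 h1
    rw [hx] at h3
    have h4 : cst (F.γ i) (gy y') = cst (F.γ i) (gy y) := (cst_eq_iff _ _ _).2 h3
    apply hmod.inj
    rw [hgy y, hgy y', h4]
  refine ⟨⟨⟨fun y => mapHom M.2 (gy y) x, hinj⟩, ?_, ?_, ?_⟩, ?_⟩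
  · intro y
    have h1 : F.e i ((F.τ i).b y) = cst (F.γ i) (gen p q 1 * gy y) := by
      rw [hmod.hb y, hgy y, cosetHom_apply]
    have h2 := key _ _ h1
    show mapHom M.2 (gy ((F.τ i).b y)) x = M.1.2.1 (mapHom M.2 (gy y) x)
    rw [h2, map_mul, Perm.mul_apply, m1]
  · intro y
    have h1 : F.e i ((F.τ i).c y) = cst (F.γ i) (gen p q 2 * gy y) := by
      rw [hmod.hc y, hgy y, cosetHom_apply]
    have h2 := key _ _ h1
    show mapHom M.2 (gy ((F.τ i).c y)) x = M.1.2.2 (mapHom M.2 (gy y) x)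
    rw [h2, map_mul, Perm.mul_apply, m2]
  · intro y hy
    have h1 : F.e i ((F.τ i).a y) = cst (F.γ i) (gen p q 0 * gy y) := by
      rw [hmod.ha y hy, hgy y, cosetHom_apply]
    have h2 := key _ _ h1
    show mapHom M.2 (gy ((F.τ i).a y)) x = M.1.1 (mapHom M.2 (gy y) x)
    rw [h2, map_mul, Perm.mul_apply, m0]
  · intro y g h
    exact key y g h

/-- every element of `H` is labelled -/
private theorem embe_mem (F : Frame p q l₀) (i : Fin F.K)
    {z : Tri p q ⧸ Subgroup.zpowers (F.γ i)} (hz : z ∈ F.H i) : ∃ y, F.e i y = z := by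
  have h := subset_hat (cosetHom (Subgroup.zpowers (F.γ i))) (F.H i) z hz
  rw [← (F.models i).range] at h
  exact h

private theorem embe_base (F : Frame p q l₀) (i : Fin F.K) :
    ∃ y₀, F.e i y₀ = cst (F.γ i) 1 :=
  embe_mem F i (F.H1 i 1 (one_mem_ball _))

private theorem embe_lam_of_emb (F : Frame p q l₀) (M : MapOn p q Ω)
    (hG : Good (mapHom M.2) F.R) (i : Fin F.K) (ι : (F.τ i).Emb M.1) (x : Ω)
    (hx : ∀ (y : Fin (F.N i)) (g : Tri p q), F.e i y = cst (F.γ i) g →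
      ι.1 y = mapHom M.2 g x) : Lam (mapHom M.2) F.R x = F.Γ i := by
  obtain ⟨y₀, hy₀⟩ := embe_base F i
  have hx0 : ι.1 y₀ = x := by
    have := hx y₀ 1 hy₀
    simpa using this
  have hγ1 : cst (F.γ i) 1 = cst (F.γ i) (F.γ i) := by
    rw [cst_eq_iff]
    simp
  have hfix : mapHom M.2 (F.γ i) x = x := by
    have := hx y₀ (F.γ i) (hy₀.trans hγ1)
    rw [← this, hx0]
  have hγR : F.γ i ∈ ballT p q F.R := ball_mono (by have := F.hR; omega) (F.γ_ball i)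
  have hγL : F.γ i ∈ Lam (mapHom M.2) F.R x := mem_lam _ _ _ hγR hfix
  obtain ⟨δ, hδ⟩ := lam_cyclic (mapHom M.2) F.R hG x
  have hγδ : F.γ i ∈ Subgroup.zpowers δ := by rw [← hδ]; exact hγL
  obtain ⟨k, hk⟩ := Subgroup.mem_zpowers_iff.1 hγδ
  have hδ4 : δ ∈ ballT p q F.L₄ := F.root1 (F.γ i) (F.γ_ball i) (F.adm i) δ ⟨k, hk⟩
  obtain ⟨y, hy⟩ := embe_mem F i (F.H4 i δ hδ4)
  have hδL : δ ∈ Lam (mapHom M.2) F.R x := by
    rw [hδ]; exact Subgroup.mem_zpowers δ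
  have hιy : ι.1 y = ι.1 y₀ := by
    rw [hx y δ hy, lam_fix _ _ _ hδL, hx0]
  have hyy : y = y₀ := ι.1.injective hιy
  have hδΓ : δ ∈ Subgroup.zpowers (F.γ i) := by
    have h1 : cst (F.γ i) 1 = cst (F.γ i) δ := by rw [← hy₀, ← hy, hyy]
    have h2 := (cst_eq_iff _ _ _).1 h1
    simpa using h2
  apply le_antisymm
  · rw [hδ]
    exact (Subgroup.zpowers_le).2 hδΓ
  · exact (Subgroup.zpowers_le).2 hγL

/-- [8.2 (A)] -/
theorem emb_equiv (F : Frame p q l₀) (M : MapOn p q Ω) (hG : Good (mapHom M.2) F.R)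
    (i : Fin F.K) : ∃ E : (F.τ i).Emb M.1 ≃ F.Y (mapHom M.2) i,
      ∀ ι : (F.τ i).Emb M.1, (∀ (y : Fin (F.N i)) (g : Tri p q), F.e i y = cst (F.γ i) g →
        ι.1 y = mapHom M.2 g (E ι).1) ∧
          Set.range (ι.1 : Fin (F.N i) → Ω) = F.img (mapHom M.2) i (E ι).1 := by
  classical
  choose X hX using fun ι : (F.τ i).Emb M.1 => emb_base F M i ι
  choose J hJ using fun y : F.Y (mapHom M.2) i => emb_of_lam F M i y.1 y.2
  obtain ⟨y₀, hy₀⟩ := embe_base F i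
  refine ⟨⟨fun ι => ⟨X ι, embe_lam_of_emb F M hG i ι (X ι) (hX ι)⟩, J, ?_, ?_⟩, ?_⟩
  · intro ι
    apply Subtype.ext
    apply DFunLike.ext
    intro y
    obtain ⟨g, hg⟩ := cst_surj (F.γ i) (F.e i y)
    rw [hJ _ y g hg, hX ι y g hg]
  · intro y
    apply Subtype.ext
    show X (J y) = y.1
    have h1 := hX (J y) y₀ 1 hy₀
    have h2 := hJ y y₀ 1 hy₀
    rw [h2] at h1
    simpa using h1.symm
  · intro ι
    refine ⟨hX ι, ?_⟩
    show Set.range (ι.1 : Fin (F.N i) → Ω) = F.img (mapHom M.2) i (X ι)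
    ext z
    constructor
    · rintro ⟨y, rfl⟩
      obtain ⟨g, hg⟩ := cst_surj (F.γ i) (F.e i y)
      exact ⟨y, g, hg, hX ι y g hg⟩
    · rintro ⟨y, g, hg, rfl⟩
      exact ⟨y, hX ι y g hg⟩

end MPbcd198.M
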