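import Pool.Agent.Lib.MP_bcd198_co.M.Ball

/-!
# MP_bcd198_co, stream M, job Fac: the faces around finitely many flags

`faceOf ρ x` is the `⟨a,b⟩`-orbit of `x`: the flags `(ab)^j a^ε x`, `j < p`, `ε < 2`.
`faceBall ρ l A` is the union of the faces of all `g x`, `|g| ≤ l`, `x ∈ A`.

Proofs.  Put `r = ab`, `r^p = 1` (`gen_ab_pow`), `a² = b² = 1`.  Left multiplication:
`a r^j a^ε = r^{-j} a^{ε+1}` and `b r^j a^ε = a r^{j+1} a^ε = r^{-(j+1)} a^{ε+1}`, so the finite set
`{r^j a^ε}` is closed under left multiplication by `a` and `b`.  The cardinality is at most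
`2p` times the number of pairs.  For a word `w` of length `≤ l` all suffix products lie in
`ballT p q l`, so `w` stays in `faceBall ρ l A` when started at `x ∈ A` (induction on the word;
`g x ∈ faceOf ρ (g x)`).  Hence `locStab ρ l x ⊆ piSet ρ (faceBall ρ l A) x`, and every flag
`r^j a^ε g x` of `faceBall` is connected with `x` inside `faceBall` (first along the suffixes of
a word for `g`, then along the face with steps `a`, `b`).  `SStep` is symmetric because the
generators act as involutions.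
-/

set_option autoImplicit false

namespace MPbcd198.M

open Equiv

variable {p q : ℕ} {X : Type}

open Classical in
/-- the face of `x` -/
noncomputable def faceOf (ρ : Tri p q →* Perm X) (x : X) : Finset X :=
  (Finset.univ : Finset (Fin p × Fin 2)).image fun j =>
    ρ ((gen p q 0 * gen p q 1) ^ (j.1 : ℕ) * gen p q 0 ^ (j.2 : ℕ)) x

open Classical in
/-- the faces of all `g x`, `|g| ≤ l`, `x ∈ A` -/
noncomputable def faceBall (ρ : Tri p q →* Perm X) (l : ℕ) (A : Finset X) : Finset X :=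
  ((ball_finite (p := p) (q := q) l).toFinset ×ˢ A).biUnion fun z => faceOf ρ (ρ z.1 z.2)

private theorem fac_a_inv_pow (k : ℕ) : gen p q 0 * (gen p q 0 * gen p q 1) ^ k =
    ((gen p q 0 * gen p q 1)⁻¹) ^ k * gen p q 0 := by
  induction k with
  | zero => simp
  | succ k ih =>
    rw [pow_succ, ← mul_assoc, ih, pow_succ, mul_assoc, mul_assoc]
    congr 1
    rw [mul_inv_rev, gen_inv, gen_inv, ← mul_assoc, gen_sq, one_mul, mul_assoc, gen_sq, mul_one]

private theorem fac_a_pow (j : ℕ) (hj : j ≤ p) : gen p q 0 * (gen p q 0 * gen p q 1) ^ j =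
    (gen p q 0 * gen p q 1) ^ (p - j) * gen p q 0 := by
  rw [fac_a_inv_pow, inv_pow]
  congr 1
  rw [inv_eq_iff_mul_eq_one, ← pow_add]
  have : j + (p - j) = p := by omega
  rw [this, gen_ab_pow]

private theorem fac_mem_faceOf (ρ : Tri p q →* Perm X) (x y : X) : y ∈ faceOf ρ x ↔
    ∃ j : Fin p × Fin 2, ρ ((gen p q 0 * gen p q 1) ^ (j.1 : ℕ) * gen p q 0 ^ (j.2 : ℕ)) x = y := by
  classical
  unfold faceOf
  constructor
  · intro h
    obtain ⟨j, _, hj⟩ := Finset.mem_image.1 h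
    exact ⟨j, hj⟩
  · rintro ⟨j, hj⟩
    exact Finset.mem_image.2 ⟨j, Finset.mem_univ _, hj⟩

private theorem fac_mem (hp : 0 < p) (ρ : Tri p q →* Perm X) (x : X) (n ε : ℕ) :
    ρ ((gen p q 0 * gen p q 1) ^ n * gen p q 0 ^ ε) x ∈ faceOf ρ x := by
  have h1 : (gen p q 0 * gen p q 1) ^ n = (gen p q 0 * gen p q 1) ^ (n % p) := by
    conv_lhs => rw [← Nat.mod_add_div n p, pow_add, pow_mul, gen_ab_pow, one_pow, mul_one]
  have h2 : gen p q 0 ^ ε = gen p q 0 ^ (ε % 2) := by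
    conv_lhs => rw [← Nat.mod_add_div ε 2, pow_add, pow_mul, pow_two, gen_sq, one_pow, mul_one]
  rw [h1, h2, fac_mem_faceOf]
  exact ⟨(⟨n % p, Nat.mod_lt _ hp⟩, ⟨ε % 2, Nat.mod_lt _ (by norm_num)⟩), rfl⟩

private theorem fac_face_ab (hp : 0 < p) (ρ : Tri p q →* Perm X) (x y : X)
    (hy : y ∈ faceOf ρ x) :
    ρ (gen p q 0) y ∈ faceOf ρ x ∧ ρ (gen p q 1) y ∈ faceOf ρ x := by
  rw [fac_mem_faceOf] at hy
  obtain ⟨⟨j, ε⟩, rfl⟩ := hy
  have hj := j.2
  constructor
  · rw [← Perm.mul_apply, ← map_mul, ← mul_assoc, fac_a_pow _ hj.le, mul_assoc, ← pow_succ']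
    exact fac_mem hp ρ x _ _
  · have h : gen p q 1 * ((gen p q 0 * gen p q 1) ^ (j : ℕ) * gen p q 0 ^ (ε : ℕ)) =
        (gen p q 0 * gen p q 1) ^ (p - (j + 1)) * gen p q 0 ^ ((ε : ℕ) + 1) := by
      have e1 : gen p q 1 * (gen p q 0 * gen p q 1) ^ (j : ℕ) =
          gen p q 0 * (gen p q 0 * gen p q 1) ^ ((j : ℕ) + 1) := by
        rw [pow_succ', ← mul_assoc, ← mul_assoc, gen_sq, one_mul]
      rw [← mul_assoc, e1, fac_a_pow _ hj, mul_assoc, ← pow_succ']
    rw [← Perm.mul_apply, ← map_mul, h]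
    exact fac_mem hp ρ x _ _

private theorem fac_mem_ball (ρ : Tri p q →* Perm X) (l : ℕ) (A : Finset X) (y : X) :
    y ∈ faceBall ρ l A ↔ ∃ g ∈ ballT p q l, ∃ x ∈ A, y ∈ faceOf ρ (ρ g x) := by
  unfold faceBall
  simp only [Finset.mem_biUnion, Finset.mem_product, Set.Finite.mem_toFinset, Prod.exists]
  constructor
  · rintro ⟨g, x, ⟨hg, hx⟩, hy⟩
    exact ⟨g, hg, x, hx, hy⟩
  · rintro ⟨g, hg, x, hx, hy⟩
    exact ⟨g, x, ⟨hg, hx⟩, hy⟩

theorem faceSet_faceBall (hp : 0 < p) (ρ : Tri p q →* Perm X) (l : ℕ) (A : Finset X) :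
    FaceSet ρ (faceBall ρ l A) := by
  intro y hy
  rw [fac_mem_ball] at hy
  obtain ⟨g, hg, x, hx, hy⟩ := hy
  have h := fac_face_ab hp ρ (ρ g x) y hy
  exact ⟨(fac_mem_ball ρ l A _).2 ⟨g, hg, x, hx, h.1⟩, (fac_mem_ball ρ l A _).2 ⟨g, hg, x, hx, h.2⟩⟩

theorem card_faceBall_le (ρ : Tri p q →* Perm X) (l : ℕ) (A : Finset X) :
    (faceBall ρ l A).card ≤ (ballT p q l).ncard * A.card * (2 * p) := by
  classical
  unfold faceBall
  refine Finset.card_biUnion_le.trans ?_
  refine (Finset.sum_le_card_nsmul _ _ (2 * p) ?_).trans ?_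
  · intro z _
    unfold faceOf
    refine Finset.card_image_le.trans ?_
    rw [Finset.card_univ, Fintype.card_prod, Fintype.card_fin, Fintype.card_fin, mul_comm]
  · rw [Finset.card_product, smul_eq_mul, Set.ncard_eq_toFinset_card _ (ball_finite l)]

theorem mem_faceBall (hp : 0 < p) (ρ : Tri p q →* Perm X) (l : ℕ) (A : Finset X) {g : Tri p q}
    (hg : g ∈ ballT p q l) {x : X} (hx : x ∈ A) : ρ g x ∈ faceBall ρ l A := by
  rw [fac_mem_ball]
  refine ⟨g, hg, x, hx, ?_⟩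
  simpa using fac_mem hp ρ (ρ g x) 0 0

/-- if all `ρ g x`, `|g| ≤ l`, are in `S` then words of length at most `l` stay in `S` -/
theorem staysIn_of_ball (ρ : Tri p q →* Perm X) (l : ℕ) (S : Finset X) (x : X)
    (h : ∀ g ∈ ballT p q l, ρ g x ∈ S) (w : List (Fin 3)) (hw : w.length ≤ l) :
    StaysIn ρ S x w := by
  induction w with
  | nil =>
    have := h 1 (one_mem_ball l)
    rwa [map_one, Perm.one_apply] at this
  | cons s w ih =>
    refine ⟨ih (by rw [List.length_cons] at hw; omega), ?_⟩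
    exact h _ ⟨s :: w, hw, rfl⟩

/-- short stabilising elements have a word staying in `S` -/
theorem locStab_subset_piSet (ρ : Tri p q →* Perm X) (l : ℕ) (S : Finset X) (x : X)
    (h : ∀ g ∈ ballT p q l, ρ g x ∈ S) : locStab ρ l x ⊆ piSet ρ S x := by
  rintro g ⟨⟨w, hw, rfl⟩, hx⟩
  exact ⟨w, staysIn_of_ball ρ l S x h w hw, rfl, hx⟩

private theorem fac_step (ρ : Tri p q →* Perm X) (S : Finset X) (s : Fin 3) {x : X}
    (hx : x ∈ S) (hy : ρ (gen p q s) x ∈ S) : SStep ρ S x (ρ (gen p q s) x) := by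
  refine ⟨hx, hy, ?_⟩
  fin_cases s
  · exact Or.inl rfl
  · exact Or.inr (Or.inl rfl)
  · exact Or.inr (Or.inr rfl)

private theorem fac_prod_cons (s : Fin 3) (w : List (Fin 3)) :
    ((s :: w).map (gen p q)).prod = gen p q s * (w.map (gen p q)).prod := by
  rw [List.map_cons, List.prod_cons]

private theorem fac_conn_word (ρ : Tri p q →* Perm X) (l : ℕ) (S : Finset X) (x : X)
    (h : ∀ g ∈ ballT p q l, ρ g x ∈ S) (w : List (Fin 3)) (hw : w.length ≤ l) :
    SConn ρ S x (ρ (w.map (gen p q)).prod x) := by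
  induction w with
  | nil =>
    simp only [List.map_nil, List.prod_nil, map_one, Perm.one_apply]
    exact Relation.ReflTransGen.refl
  | cons s w ih =>
    have hw' : w.length ≤ l := by rw [List.length_cons] at hw; omega
    refine Relation.ReflTransGen.tail (ih hw') ?_
    have h1 : ρ (w.map (gen p q)).prod x ∈ S := h _ ⟨w, hw', rfl⟩
    have h2 : ρ ((s :: w).map (gen p q)).prod x ∈ S := h _ ⟨s :: w, hw, rfl⟩
    rw [fac_prod_cons, map_mul, Perm.mul_apply] at h2 ⊢
    exact fac_step ρ S s h1 h2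

private theorem fac_conn_face (ρ : Tri p q →* Perm X) (S : Finset X) (hS : FaceSet ρ S) (z : X)
    (hz : z ∈ S) (j ε : ℕ) :
    SConn ρ S z (ρ ((gen p q 0 * gen p q 1) ^ j * gen p q 0 ^ ε) z) ∧
      ρ ((gen p q 0 * gen p q 1) ^ j * gen p q 0 ^ ε) z ∈ S := by
  induction j with
  | zero =>
    rw [pow_zero, one_mul]
    induction ε with
    | zero => simpa using ⟨Relation.ReflTransGen.refl, hz⟩
    | succ ε ih =>
      rw [pow_succ', map_mul, Perm.mul_apply]
      have h := (hS _ ih.2).1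
      exact ⟨Relation.ReflTransGen.tail ih.1 (fac_step ρ S 0 ih.2 h), h⟩
  | succ j ih =>
    rw [pow_succ', mul_assoc, mul_assoc, map_mul, Perm.mul_apply, map_mul, Perm.mul_apply]
    have h1 := (hS _ ih.2).2
    have h2 := (hS _ h1).1
    exact ⟨Relation.ReflTransGen.tail (Relation.ReflTransGen.tail ih.1 (fac_step ρ S 1 ih.2 h1))
      (fac_step ρ S 0 h1 h2), h2⟩

theorem faceBall_conn (hp : 0 < p) (ρ : Tri p q →* Perm X) (l : ℕ) (A : Finset X) (y : X)
    (hy : y ∈ faceBall ρ l A) : ∃ x ∈ A, SConn ρ (faceBall ρ l A) x y := by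
  rw [fac_mem_ball] at hy
  obtain ⟨g, hg, x, hx, hy⟩ := hy
  refine ⟨x, hx, ?_⟩
  have hgx : ρ g x ∈ faceBall ρ l A := mem_faceBall hp ρ l A hg hx
  have h1 : SConn ρ (faceBall ρ l A) x (ρ g x) := by
    obtain ⟨w, hw, rfl⟩ := hg
    exact fac_conn_word ρ l _ x (fun g hg => mem_faceBall hp ρ l A hg hx) w hw
  rw [fac_mem_faceOf] at hy
  obtain ⟨⟨j, ε⟩, rfl⟩ := hy
  exact Relation.ReflTransGen.trans h1
    (fac_conn_face ρ _ (faceSet_faceBall hp ρ l A) _ hgx j ε).1

theorem sconn_symm (ρ : Tri p q →* Perm X) (S : Finset X) {x y : X} (h : SConn ρ S x y) :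
    SConn ρ S y x := by
  have hinv : ∀ (s : Fin 3) (x : X), ρ (gen p q s) (ρ (gen p q s) x) = x := by
    intro s x
    rw [← Perm.mul_apply, ← map_mul, gen_sq, map_one, Perm.one_apply]
  have hs : ∀ x y, SStep ρ S x y → SStep ρ S y x := by
    rintro x y ⟨hx, hy, h | h | h⟩
    · exact ⟨hy, hx, Or.inl (by rw [h, hinv])⟩
    · exact ⟨hy, hx, Or.inr (Or.inl (by rw [h, hinv]))⟩
    · exact ⟨hy, hx, Or.inr (Or.inr (by rw [h, hinv]))⟩
  unfold SConn at h ⊢
  induction h with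
  | refl => exact Relation.ReflTransGen.refl
  | tail _ h ih => exact Relation.ReflTransGen.head (hs _ _ h) ih

theorem sconn_mono (ρ : Tri p q →* Perm X) {S S' : Finset X} (hS : S ⊆ S') {x y : X}
    (h : SConn ρ S x y) : SConn ρ S' x y :=
  Relation.ReflTransGen.mono (fun _ _ h => ⟨hS h.1, hS h.2.1, h.2.2⟩) _ _ h

theorem piSet_mono (ρ : Tri p q →* Perm X) {S S' : Finset X} (hS : S ⊆ S') (x : X) :
    piSet ρ S x ⊆ piSet ρ S' x := by
  rintro g ⟨w, hw, h1, h2⟩
  refine ⟨w, ?_, h1, h2⟩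
  clear h1 h2
  induction w with
  | nil => exact hS hw
  | cons s w ih => exact ⟨ih hw.1, hS hw.2⟩

/-- a connected pair is joined by a word staying in `S` -/
theorem sconn_word (ρ : Tri p q →* Perm X) (S : Finset X) {x y : X} (hx : x ∈ S)
    (h : SConn ρ S x y) : ∃ w : List (Fin 3), StaysIn ρ S x w ∧ ρ (w.map (gen p q)).prod x = y := by
  unfold SConn at h
  induction h with
  | refl => exact ⟨[], hx, by simp⟩
  | @tail b c _ hbc ih =>
    obtain ⟨w, hw, hwb⟩ := ih
    obtain ⟨_, hc, h⟩ := hbc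
    have key : ∀ s : Fin 3, c = ρ (gen p q s) b →
        ∃ w : List (Fin 3), StaysIn ρ S x w ∧ ρ (w.map (gen p q)).prod x = c := by
      intro s hs
      have e : ρ ((s :: w).map (gen p q)).prod x = c := by
        rw [fac_prod_cons, map_mul, Perm.mul_apply, hwb, hs]
      exact ⟨s :: w, ⟨hw, by rw [e]; exact hc⟩, e⟩
    rcases h with h | h | h
    · exact key 0 h
    · exact key 1 h
    · exact key 2 h

end MPbcd198.M
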