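import Pool.Agent.Lib.MP_bcd198_co.M.Hat

/-!
# MP_bcd198_co, stream M, job Mod: invariants of the planted type of a face set

Let `Models ρ S τ e`, i.e. `e : Fin N → X` is injective with image `hat ρ S` and intertwines
everything.

* `models_card`: `N = Nat.card (hat ρ S)` (`e` is a bijection onto `hat ρ S`).
* `chi_eq`: `S ⊆ hat ρ S` (`subset_hat`) so `e` restricts to a bijection `τ.S → S`, hence
  `τ.S.card = S.card`; it maps `{x ∈ τ.S : c x ∉ τ.S}` onto `bd ρ S` (as `e (c x) = c (e x)` and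
  `memS`), so `τ.bdCard = (bd ρ S).card`; `Sc ρ S` is the complement of `bd ρ S` in `S`.  Then
  `τ.chi = S/2p + N/2q - S/4 - bd/4 = S/2p - (S - bd)/4 - bd/2 + N/2q = chiBar ρ S`.
* `hullWeak` / `hullStrict`: let `U` be a finset of `Fin N` with `τ.Closed U`, put
  `U' = U.map e`.  Then `PUClosed ρ S U'`: members are in `hat ρ S` and not in `S`; closed under
  `b`; if `x = e y ∈ U'`, `c x ∈ S` then `τ.c y ∈ τ.S`, so `z := τ.c (τ.a (τ.c y)) ∈ U` and
  `e z = c a c x = a x` because `a`, `c` commute (`Rel 2 a c` + involutions) and `c² = 1`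
  (here `ha` is used for `τ.c y ∈ τ.S`).  And `eU ρ S U' = τ.e U`: the three cardinalities agree
  (`e` injective, `e (τ.c y) ∈ S ↔ τ.c y ∈ τ.S`, `e (τ.c y) ∈ U' ↔ τ.c y ∈ U`).
-/

set_option autoImplicit false

namespace MPbcd198.M

open Equiv

variable {p q : ℕ} {X : Type}

theorem models_card {ρ : Tri p q →* Perm X} {S : Finset X} {N : ℕ} {τ : PType p q (Fin N)}
    {e : Fin N → X} (h : Models ρ S τ e) : N = Nat.card (hat ρ S) := by
  rw [← h.range, Nat.card_range_of_injective h.inj, Nat.card_fin]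

private theorem Mod_S {ρ : Tri p q →* Perm X} {S : Finset X} {N : ℕ} {τ : PType p q (Fin N)}
    {e : Fin N → X} (h : Models ρ S τ e) : τ.S.map ⟨e, h.inj⟩ = S := by
  ext x
  rw [Finset.mem_map]
  constructor
  · rintro ⟨y, hy, rfl⟩
    exact (h.memS y).1 hy
  · intro hx
    have h1 := subset_hat ρ S x hx
    rw [← h.range] at h1
    obtain ⟨y, rfl⟩ := h1
    exact ⟨y, (h.memS y).2 hx, rfl⟩

private theorem Mod_c {ρ : Tri p q →* Perm X} {S : Finset X} {N : ℕ} {τ : PType p q (Fin N)}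
    {e : Fin N → X} (h : Models ρ S τ e) (y : Fin N) :
    ρ (gen p q 2) (e y) ∈ S ↔ τ.c y ∈ τ.S := by
  rw [h.memS, h.hc]

theorem chi_eq {ρ : Tri p q →* Perm X} {S : Finset X} {N : ℕ} {τ : PType p q (Fin N)}
    {e : Fin N → X} (h : Models ρ S τ e) : τ.chi = chiBar ρ S := by
  classical
  have h1 : τ.S.card = S.card := by
    conv_rhs => rw [← Mod_S h]
    rw [Finset.card_map]
  have h2 : τ.bdCard = (bd ρ S).card := by
    have h3 : bd ρ S = (τ.S.filter fun x => τ.c x ∉ τ.S).map ⟨e, h.inj⟩ := by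
      ext x
      simp only [bd, Finset.mem_filter, Finset.mem_map, Function.Embedding.coeFn_mk]
      constructor
      · rintro ⟨hx, hx'⟩
        have h4 := hx
        rw [← Mod_S h, Finset.mem_map] at h4
        obtain ⟨y, hy, rfl⟩ := h4
        refine ⟨y, ⟨hy, fun h5 => hx' ?_⟩, rfl⟩
        exact (Mod_c h y).2 h5
      · rintro ⟨y, ⟨hy, hy'⟩, rfl⟩
        exact ⟨(h.memS y).1 hy, fun h5 => hy' ((Mod_c h y).1 h5)⟩
    rw [h3, Finset.card_map, PType.bdCard]
    congr 1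
    ext x
    simp only [Finset.mem_filter]
  have h3 : (Sc ρ S).card + (bd ρ S).card = S.card := by
    unfold Sc bd
    exact Finset.card_filter_add_card_filter_not _
  have h4 : (Nat.card (hat ρ S) : ℝ) = N := by rw [← models_card h]
  have h5 : ((Sc ρ S).card : ℝ) = (S.card : ℝ) - ((bd ρ S).card : ℝ) := by
    rw [← h3]; push_cast; ring
  rw [PType.chi, chiBar, h1, h2, h4, h5, Fintype.card_fin]
  ring

private theorem Mod_comm {ρ : Tri p q →* Perm X} (hρ : IsMapHom ρ) (x : X) :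
    ρ (gen p q 2) (ρ (gen p q 0) (ρ (gen p q 2) x)) = ρ (gen p q 0) x := by
  obtain ⟨pa, pb, pc, hab, hbc, hac⟩ := hρ
  have h1 := Function.isPeriodicPt_minimalPeriod (⇑(ρ (gen p q 0) * ρ (gen p q 2)))
    (ρ (gen p q 0) x)
  rw [hac (ρ (gen p q 0) x)] at h1
  have h2 : ρ (gen p q 0) (ρ (gen p q 2) (ρ (gen p q 0) (ρ (gen p q 2) (ρ (gen p q 0) x)))) =
      ρ (gen p q 0) x := h1
  have h3 := (ρ (gen p q 0)).injective h2
  -- `c a c a x = x`
  have h4 := congrArg (ρ (gen p q 2)) h3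
  rw [(pc _).2] at h4
  have h5 := congrArg (ρ (gen p q 0)) h4
  rw [(pa _).2] at h5
  -- `c a x = a c x`
  rw [← h5, (pc _).2]

private theorem Mod_closed {ρ : Tri p q →* Perm X} (hρ : IsMapHom ρ) {S : Finset X} {N : ℕ}
    {τ : PType p q (Fin N)} {e : Fin N → X} (h : Models ρ S τ e) {U : Finset (Fin N)}
    (hU : τ.Closed U) : PUClosed ρ S (U.map ⟨e, h.inj⟩) := by
  obtain ⟨u1, u2, u3⟩ := hU
  refine ⟨?_, ?_, ?_⟩
  · intro x hx
    rw [Finset.mem_map] at hx
    obtain ⟨y, hy, rfl⟩ := hx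
    refine ⟨?_, fun h1 => u1 y hy ((h.memS y).2 h1)⟩
    rw [← h.range]
    exact ⟨y, rfl⟩
  · intro x hx
    rw [Finset.mem_map] at hx ⊢
    obtain ⟨y, hy, rfl⟩ := hx
    exact ⟨τ.b y, u2 y hy, h.hb y⟩
  · intro x hx hc
    rw [Finset.mem_map] at hx ⊢
    obtain ⟨y, hy, rfl⟩ := hx
    have hc' : τ.c y ∈ τ.S := (Mod_c h y).1 hc
    refine ⟨τ.c (τ.a (τ.c y)), u3 y hy hc', ?_⟩
    show e (τ.c (τ.a (τ.c y))) = ρ (gen p q 0) (e y)
    rw [h.hc, h.ha _ hc', h.hc, Mod_comm hρ]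

private theorem Mod_e {ρ : Tri p q →* Perm X} {S : Finset X} {N : ℕ}
    {τ : PType p q (Fin N)} {e : Fin N → X} (h : Models ρ S τ e) (U : Finset (Fin N)) :
    eU ρ S (U.map ⟨e, h.inj⟩) = τ.e U := by
  classical
  unfold eU PType.e
  have h1 : ((U.map ⟨e, h.inj⟩).filter fun x => ρ (gen p q 2) x ∉ S).card =
      (U.filter fun x => τ.c x ∉ τ.S).card := by
    rw [Finset.filter_map, Finset.card_map]
    congr 1
    apply Finset.filter_congr
    intro y _
    exact not_congr (Mod_c h y)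
  have h2 : ((U.map ⟨e, h.inj⟩).filter fun x => ρ (gen p q 2) x ∉ S ∧
      ρ (gen p q 2) x ∈ U.map ⟨e, h.inj⟩).card =
      (U.filter fun x => τ.c x ∉ τ.S ∧ τ.c x ∈ U).card := by
    rw [Finset.filter_map, Finset.card_map]
    congr 1
    apply Finset.filter_congr
    intro y _
    have h3 : ρ (gen p q 2) (e y) ∈ U.map ⟨e, h.inj⟩ ↔ τ.c y ∈ U := by
      rw [← h.hc]
      exact Finset.mem_map' ⟨e, h.inj⟩
    exact and_congr (not_congr (Mod_c h y)) h3
  rw [Finset.card_map]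
  congr 2
  · congr 2
    convert h1
  · congr 1
    convert h2

theorem hullWeak {ρ : Tri p q →* Perm X} (hρ : IsMapHom ρ) {S : Finset X} {N : ℕ}
    {τ : PType p q (Fin N)} {e : Fin N → X} (h : Models ρ S τ e)
    (hU : ∀ U : Finset X, PUClosed ρ S U → eU ρ S U ≤ 0) : τ.HullWeak := by
  intro U hc
  rw [← Mod_e h U]
  exact hU _ (Mod_closed hρ h hc)

theorem hullStrict {ρ : Tri p q →* Perm X} (hρ : IsMapHom ρ) {S : Finset X} {N : ℕ}
    {τ : PType p q (Fin N)} {e : Fin N → X} (h : Models ρ S τ e)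
    (hU : ∀ U : Finset X, U.Nonempty → PUClosed ρ S U → eU ρ S U < 0) : τ.HullStrict := by
  intro U hne hc
  rw [← Mod_e h U]
  exact hU _ (hne.map) (Mod_closed hρ h hc)

end MPbcd198.M
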