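import Pool.Agent.Lib.MP_bcd198_co.M.Fac
import Pool.Agent.Lib.MP_bcd198_co.M.Mod
import Pool.Agent.Lib.MP_bcd198_co.M.Fin

/-!
# MP_bcd198_co, stream M, job Hul: the hull type of a cyclic stabiliser; existence of the frame

* `exists_hull`: `Γ = ⟨γ⟩`, `ρ = cosetHom Γ`, `x₀ = cst γ 1`,
  `S₀ = faceBall ρ L {x₀}` (a face set).  `hull_cyclic` gives a face set `H ⊇ S₀` with `eU < 0` for
  all nonempty `U`, every flag of `H` connected in `H` to a flag of `S₀`, hence (`faceBall_conn`,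
  `sconn_mono`) to `x₀`.  `exists_models`, `hullStrict`.  `cst γ g = ρ g x₀ ∈ S₀ ⊆ H` for
  `|g| ≤ L` (`cosetHom_apply`, `mem_faceBall`).  `τ.chi = chiBar ρ H ≤ 0` by `chiBar_le`: `H` is
  connected to `x₀ ∈ H` and `γ ∈ piSet ρ H x₀`, `γ ≠ 1`: `γ ∈ ballT L`, `ρ γ x₀ = cst γ γ = x₀`
  (`cst_eq_iff`), `locStab_subset_piSet`.
* `exists_frame`: `root_bound hyp l₀` gives `L₁`; `root_bound hyp L₁` gives `L₄`;
  `exists_reps L₁` gives `K, γ, L₂`; `norm_reps` for each `γ i` gives `L₃ i`, take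
  `L₃ = ∑ i, L₃ i` (`ball_mono`); `exists_hull` with `L = L₁ + L₃ + L₄` for each `γ i`; each
  `e i y` is a coset, `cst_surj`, finitely many `(i,y)`, so `finite_subset_ball` gives `d`;
  `R = 4d + L₁ + 2L₂ + 2L₃ + L₄ + l₀`.
-/

set_option autoImplicit false

namespace MPbcd198.M

open Equiv

variable {p q : ℕ}

theorem exists_hull (hyp : Hyp p q) (γ : Tri p q) (hγ : Adm γ) (L : ℕ) (hL : γ ∈ ballT p q L) :
    ∃ (N : ℕ) (τ : PType p q (Fin N)) (H : Finset (Tri p q ⧸ Subgroup.zpowers γ))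
      (e : Fin N → Tri p q ⧸ Subgroup.zpowers γ),
      FaceSet (cosetHom (Subgroup.zpowers γ)) H ∧
      Models (cosetHom (Subgroup.zpowers γ)) H τ e ∧ τ.HullStrict ∧ τ.chi ≤ 0 ∧
      (∀ y ∈ H, SConn (cosetHom (Subgroup.zpowers γ)) H (cst γ 1) y) ∧
      ∀ g ∈ ballT p q L, cst γ g ∈ H := by
  classical
  have hm : IsMapHom (cosetHom (Subgroup.zpowers γ)) := hγ.2
  have hp : 0 < p := by have := hyp.hp; omega
  obtain ⟨H, hH, hsub, hU, hc⟩ := hull_cyclic hyp γ hγ.1 hγ.2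
    (faceBall (cosetHom (Subgroup.zpowers γ)) L {cst γ 1})
    (faceSet_faceBall hp (cosetHom (Subgroup.zpowers γ)) L {cst γ 1})
  obtain ⟨N, τ, e, hM⟩ := exists_models hyp (cosetHom (Subgroup.zpowers γ)) hm H hH
  have hball : ∀ g ∈ ballT p q L, cosetHom (Subgroup.zpowers γ) g (cst γ 1) ∈ H := fun g hg =>
    hsub (mem_faceBall hp _ L {cst γ 1} hg (Finset.mem_singleton_self _))
  have hconn : ∀ y ∈ H, SConn (cosetHom (Subgroup.zpowers γ)) H (cst γ 1) y := by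
    intro y hy
    obtain ⟨y0, hy0, h1⟩ := hc y hy
    obtain ⟨x, hx, h2⟩ := faceBall_conn hp _ L {cst γ 1} y0 hy0
    rw [Finset.mem_singleton] at hx
    subst hx
    exact Relation.ReflTransGen.trans (sconn_mono _ hsub h2) h1
  have hx₀ : cst γ 1 ∈ H := by
    have := hball 1 (one_mem_ball L)
    rwa [map_one, Perm.one_apply] at this
  have hfix : cosetHom (Subgroup.zpowers γ) γ (cst γ 1) = cst γ 1 := by
    rw [cosetHom_apply, mul_one, cst_eq_iff, mul_one]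
    exact Subgroup.inv_mem _ (Subgroup.mem_zpowers γ)
  have hpi : γ ∈ piSet (cosetHom (Subgroup.zpowers γ)) H (cst γ 1) :=
    locStab_subset_piSet _ L H (cst γ 1) hball ⟨hL, hfix⟩
  have hchi : τ.chi ≤ 0 := by
    rw [chi_eq hM]
    refine (chiBar_le hyp _ hm H hH ?_).1
    intro y hy
    exact ⟨cst γ 1, hx₀, hconn y hy, γ, hpi, adm_ne_one hγ⟩
  refine ⟨N, τ, H, e, hH, hM, hullStrict hm hM hU, hchi, hconn, ?_⟩
  intro g hg
  have := hball g hg
  rwa [cosetHom_apply, mul_one] at this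

theorem exists_frame (hyp : Hyp p q) (l₀ : ℕ) : Nonempty (Frame p q l₀) := by
  classical
  obtain ⟨L₁, hL₁⟩ := root_bound hyp l₀
  obtain ⟨L₄, hL₄⟩ := root_bound hyp L₁
  obtain ⟨K, γ, L₂, hγ, hnc, hrep⟩ := exists_reps (p := p) (q := q) L₁
  choose L₃ hL₃ using fun i => norm_reps hyp (γ i) (hγ i).2
  have hle : ∀ i, L₃ i ≤ ∑ j, L₃ j := fun i =>
    Finset.single_le_sum (f := L₃) (fun _ _ => Nat.zero_le _) (Finset.mem_univ i)
  generalize (∑ j, L₃ j) = T at hle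
  choose N τ H e h1 h2 h3 h4 h5 h6 using fun i =>
    exists_hull hyp (γ i) (hγ i).2 (L₁ + T + L₄) (ball_mono (by omega) (hγ i).1)
  choose g hg using fun (z : Σ i, Fin (N i)) => cst_surj (γ z.1) (e z.1 z.2)
  obtain ⟨d, hd⟩ := finite_subset_ball (Set.finite_range g)
  exact ⟨{
    K := K
    γ := γ
    L₁ := L₁
    L₂ := L₂
    L₃ := T
    L₄ := L₄
    d := d
    R := 4 * d + L₁ + 2 * L₂ + 2 * T + L₄ + l₀
    N := N
    τ := τ
    H := H
    e := e
    adm := fun i => (hγ i).2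
    γ_ball := fun i => (hγ i).1
    root0 := hL₁
    root1 := hL₄
    nonconj := hnc
    rep := hrep
    normrep := fun i n hn => by
      obtain ⟨n', hn', h⟩ := hL₃ i n hn
      exact ⟨n', ball_mono (hle i) hn', h⟩
    faceSet := h1
    models := h2
    strict := h3
    chi_le := h4
    conn := h5
    H1 := fun i g hg => h6 i g (ball_mono (by omega) hg)
    H3 := fun i g hg => h6 i g (ball_mono (by omega) hg)
    H4 := fun i g hg => h6 i g (ball_mono (by omega) hg)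
    dd := fun i y => ⟨g ⟨i, y⟩, hd (Set.mem_range_self _), hg ⟨i, y⟩⟩
    hR := le_refl _ }⟩

end MPbcd198.M
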