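import Pool.Agent.Lib.MP_bcd198_co.M.Fac

/-!
# MP_bcd198_co, stream M, job LamL: local stabilisers

* `lam_fix`: `Lam` is generated by elements fixing `x` (closure induction).
* `mem_lam`: `Subgroup.subset_closure`.
* `lam_cyclic`: `InCyclic (locStab)` gives `g` with `locStab ⊆ ⟨g⟩`, so `Lam ≤ ⟨g⟩`; a subgroup of
  a cyclic group is cyclic (`Subgroup.isCyclic` for subgroups of the cyclic group `⟨g⟩`; or the
  classical argument with the smallest positive `n` with `g^n ∈ Lam`), so `Lam = ⟨δ⟩`.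
* `no_short` [8.2 (C)]: suppose `h ∈ ballT l₀`, `h ≠ 1`, `ρ h x = x`.  `Adm h` (`adm_of_fix`).
  `Lam ρ R x = ⟨δ⟩`, `h ∈ Lam` (`l₀ ≤ R`), so `δ^k = h` and `δ ∈ ballT L₁` (`F.root0`); `δ ≠ 1`
  fixes `x` (`lam_fix`), so `Adm δ` (`adm_of_fix`).  `F.rep`: `i`, `u ∈ ballT L₂` with
  `Cj u Γ_i ⟨δ⟩`.  Put `x₀ = ρ u⁻¹ x`.  Then `Lam ρ R x₀ = Γ_i`, contradicting the hypothesis:
  - `γ_i` fixes `x₀`, because `u γ_i u⁻¹ ∈ ⟨δ⟩` fixes `x`; `γ_i ∈ ballT L₁ ⊆ ballT R`, so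
    `γ_i ∈ Lam ρ R x₀` and `Γ_i ≤ Lam ρ R x₀`;
  - `Lam ρ R x₀ = ⟨δ'⟩`, `δ'^k = γ_i`, so `δ' ∈ ballT L₄` (`F.root1`); `u δ' u⁻¹` fixes `x` and is in
    `ballT (2L₂+L₄)`, so it is in `Lam ρ R x = ⟨δ⟩`, and `Cj` gives `δ' ∈ Γ_i`.
-/

set_option autoImplicit false

namespace MPbcd198.M

open Equiv

variable {p q l₀ : ℕ} {Ω : Type}

theorem lam_fix (ρ : Tri p q →* Perm Ω) (R : ℕ) (x : Ω) {g : Tri p q} (hg : g ∈ Lam ρ R x) :
    ρ g x = x := by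
  unfold Lam at hg
  induction hg using Subgroup.closure_induction with
  | mem g hg => exact hg.2
  | one => simp
  | mul g h _ _ hg hh => rw [map_mul, Perm.mul_apply, hh, hg]
  | inv g _ hg => rw [map_inv, Perm.inv_eq_iff_eq]; exact hg.symm

theorem mem_lam (ρ : Tri p q →* Perm Ω) (R : ℕ) (x : Ω) {g : Tri p q} (hg : g ∈ ballT p q R)
    (hx : ρ g x = x) : g ∈ Lam ρ R x :=
  Subgroup.subset_closure ⟨hg, hx⟩

theorem lam_cyclic (ρ : Tri p q →* Perm Ω) (R : ℕ) (hG : Good ρ R) (x : Ω) :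
    ∃ δ, Lam ρ R x = Subgroup.zpowers δ := by
  obtain ⟨g, hg⟩ := hG x
  have hle : Lam ρ R x ≤ Subgroup.zpowers g := by
    unfold Lam
    rw [Subgroup.closure_le]
    exact hg
  have hc : IsCyclic (Lam ρ R x) := Subgroup.isCyclic_of_le hle
  obtain ⟨δ, hδ⟩ := (Subgroup.isCyclic_iff_exists_zpowers_eq_top (Lam ρ R x)).1 hc
  exact ⟨δ, hδ.symm⟩

/-- [8.2 (C)] -/
theorem no_short (hyp : Hyp p q) (F : Frame p q l₀) (ρ : Tri p q →* Perm Ω) (hρ : IsMapHom ρ)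
    (hG : Good ρ F.R) (h : ∀ i x, Lam ρ F.R x ≠ F.Γ i) : NoShort ρ l₀ := by
  intro g hg hne x hx
  have hR := F.hR
  obtain ⟨δ, hδ⟩ := lam_cyclic ρ F.R hG x
  have hmem : g ∈ Lam ρ F.R x := mem_lam ρ F.R x (ball_mono (by omega) hg) hx
  rw [hδ] at hmem
  obtain ⟨k, hk⟩ := Subgroup.mem_zpowers_iff.1 hmem
  have admg : Adm g := adm_of_fix hyp ρ hρ x g hne hx
  have hδb : δ ∈ ballT p q F.L₁ := F.root0 g hg admg δ ⟨k, hk⟩
  have hδfix : ρ δ x = x :=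
    lam_fix ρ F.R x (by rw [hδ]; exact Subgroup.mem_zpowers δ)
  have hδne : δ ≠ 1 := by
    rintro rfl
    exact hne (by rw [← hk, one_zpow])
  have admδ : Adm δ := adm_of_fix hyp ρ hρ x δ hδne hδfix
  obtain ⟨i, u, hu, hcj⟩ := F.rep δ hδb admδ
  have hux : ρ u (ρ u⁻¹ x) = x := by
    rw [← Perm.mul_apply, ← map_mul, mul_inv_cancel, map_one, Perm.one_apply]
  have hconj : ∀ s : Tri p q, ρ (u * s * u⁻¹) x = ρ u (ρ s (ρ u⁻¹ x)) := by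
    intro s
    rw [map_mul, map_mul, Perm.mul_apply, Perm.mul_apply]
  have hγfix : ρ (F.γ i) (ρ u⁻¹ x) = ρ u⁻¹ x := by
    have h1 : u * F.γ i * u⁻¹ ∈ Subgroup.zpowers δ := (hcj (F.γ i)).1 (Subgroup.mem_zpowers _)
    rw [← hδ] at h1
    have h2 := lam_fix ρ F.R x h1
    rw [hconj] at h2
    apply (ρ u).injective
    rw [h2, hux]
  have hγmem : F.γ i ∈ Lam ρ F.R (ρ u⁻¹ x) :=
    mem_lam ρ F.R _ (ball_mono (by omega) (F.γ_ball i)) hγfix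
  apply h i (ρ u⁻¹ x)
  apply le_antisymm
  · obtain ⟨δ', hδ'⟩ := lam_cyclic ρ F.R hG (ρ u⁻¹ x)
    have hγmem' := hγmem
    rw [hδ'] at hγmem'
    obtain ⟨k', hk'⟩ := Subgroup.mem_zpowers_iff.1 hγmem'
    have hδ'b : δ' ∈ ballT p q F.L₄ := F.root1 (F.γ i) (F.γ_ball i) (F.adm i) δ' ⟨k', hk'⟩
    have hfix' : ρ δ' (ρ u⁻¹ x) = ρ u⁻¹ x :=
      lam_fix ρ F.R _ (by rw [hδ']; exact Subgroup.mem_zpowers δ')
    have h3 : u * δ' * u⁻¹ ∈ Lam ρ F.R x := by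
      apply mem_lam
      · exact ball_mono (by omega) (ball_mul (ball_mul hu hδ'b) (ball_inv hu))
      · rw [hconj, hfix', hux]
    rw [hδ] at h3
    rw [hδ', Subgroup.zpowers_le]
    exact (hcj δ').2 h3
  · rw [Subgroup.zpowers_le]
    exact hγmem

end MPbcd198.M
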