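import Pool.Agent.Lib.MP_bcd198_co.M.Fac
import Pool.Agent.Lib.MP_bcd198_co.M.Mod
import Pool.Agent.Lib.MP_bcd198_co.M.Cov

/-!
# MP_bcd198_co, stream M, job Loop: [8.1] short loops

* `loops_type`.  Let `C₀` be the constant of `hull_finite` for
  `K = |ballT p q R| * k * 2p`.  Given `m > 0`, `M`, `x`, put `ρ = mapHom M.2` (a map action by
  `mapHom_isMapHom`), `A = image of x`, `S₀ = faceBall ρ R A`: a face set with at most `K` flags
  (`card_faceBall_le`, `A.card ≤ k`).  `hull_finite` (with `X = Fin (2m)`) gives `S ⊇ S₀` with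
  `Nat.card (hat ρ S) ≤ C₀`, `eU ≤ 0`, every flag of `S` connected in `S` to a flag of `S₀`.
  `exists_models` gives `N, τ, e` with `Models ρ S τ e`; `N = Nat.card (hat ρ S) ≤ C₀`
  (`models_card`); `hullWeak`; `τ.chi = chiBar ρ S` (`chi_eq`).  The embedding is `ι = e` itself
  (`inj`, `hb`, `hc`, `ha` with `mapHom_gen`); `x i ∈ S₀ ⊆ S ⊆ hat ρ S = range e`
  (`mem_faceBall` with `g = 1`, `subset_hat`).  `chiBar_le` applies: for `y ∈ S` there is
  `y₀ ∈ S₀` with `SConn S y₀ y`, and `x i ∈ A` with `SConn S₀ (x i) y₀` (`faceBall_conn`), and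
  the non trivial `g ∈ ballT R` with `g (x i) = x i` is in `piSet ρ S₀ (x i)`
  (`locStab_subset_piSet`, `mem_faceBall`), hence in `piSet ρ S (x i)` (`piSet_mono`);
  combine with `sconn_mono`, transitivity.  If `locStab ρ R (x i)` is not contained in a cyclic
  subgroup then neither is `piSet ρ S (x i) ⊇ locStab ρ R (x i)`, so `chiBar ≤ -1`.
* `bound_noncyclic`: `count_cover` with `c = -1`, `k + 1` points, and
  `P m M x = (∀ i, x i has a non trivial loop of length ≤ R) ∧ locStab at x 0 not cyclic`;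
  `(2m)^(-1) ≤ 1/m`.
-/

set_option autoImplicit false

namespace MPbcd198.M

open Equiv

variable {p q : ℕ}

theorem loops_type (hyp : Hyp p q) (k R : ℕ) : ∃ C₀ : ℕ, ∀ m : ℕ, 0 < m →
    ∀ (M : MapOn p q (Fin (2 * m))) (x : Fin k → Fin (2 * m)),
      (∀ i, ∃ g ∈ ballT p q R, g ≠ 1 ∧ mapHom M.2 g (x i) = x i) →
      ∃ N : ℕ, N ≤ C₀ ∧ ∃ τ : PType p q (Fin N), τ.HullWeak ∧ τ.chi ≤ 0 ∧
        ((∃ i, ¬ InCyclic (locStab (mapHom M.2) R (x i))) → τ.chi ≤ -1) ∧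
        ∃ ι : τ.Emb M.1, ∀ i, x i ∈ Set.range (ι.1 : Fin N → Fin (2 * m)) := by
  classical
  have hp : 0 < p := by have := hyp.hp; omega
  obtain ⟨C₀, hC₀⟩ := hull_finite hyp ((ballT p q R).ncard * k * (2 * p))
  refine ⟨C₀, ?_⟩
  intro m _ M x hx
  obtain ⟨hga, hgb, hgc⟩ := mapHom_gen M
  have hρ : IsMapHom (mapHom M.2) := mapHom_isMapHom M
  obtain ⟨A, hA⟩ : ∃ A : Finset (Fin (2 * m)), A = Finset.univ.image x := ⟨_, rfl⟩
  have hAc : A.card ≤ k := by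
    rw [hA]
    refine Finset.card_image_le.trans ?_
    simp
  have hxA : ∀ i, x i ∈ A := fun i => by
    rw [hA]
    exact Finset.mem_image_of_mem x (Finset.mem_univ i)
  have hcard : (faceBall (mapHom M.2) R A).card ≤ (ballT p q R).ncard * k * (2 * p) :=
    (card_faceBall_le _ R A).trans
      (Nat.mul_le_mul_right _ (Nat.mul_le_mul_left _ hAc))
  obtain ⟨S, hS, hsub, hhat, hU, hc⟩ := hC₀ (Fin (2 * m)) (mapHom M.2) hρ
    (faceBall (mapHom M.2) R A) (faceSet_faceBall hp _ R A) hcard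
  obtain ⟨N, τ, e, hM⟩ := exists_models hyp (mapHom M.2) hρ S hS
  have hball : ∀ i, ∀ g ∈ ballT p q R, mapHom M.2 g (x i) ∈ S := fun i g hg =>
    hsub (mem_faceBall hp _ R A hg (hxA i))
  have hxS : ∀ i, x i ∈ S := by
    intro i
    have := hball i 1 (one_mem_ball R)
    rwa [map_one, Perm.one_apply] at this
  have hls : ∀ i, locStab (mapHom M.2) R (x i) ⊆ piSet (mapHom M.2) S (x i) := fun i =>
    locStab_subset_piSet _ R S (x i) (hball i)
  have hcb := chiBar_le hyp (mapHom M.2) hρ S hS (by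
    intro y hy
    obtain ⟨y0, hy0, h1⟩ := hc y hy
    obtain ⟨x', hx', h2⟩ := faceBall_conn hp _ R A y0 hy0
    rw [hA, Finset.mem_image] at hx'
    obtain ⟨i, _, rfl⟩ := hx'
    obtain ⟨g, hg, hg1, hgx⟩ := hx i
    exact ⟨x i, hxS i, Relation.ReflTransGen.trans (sconn_mono _ hsub h2) h1, g,
      hls i ⟨hg, hgx⟩, hg1⟩)
  refine ⟨N, (models_card hM).le.trans hhat, τ, hullWeak hρ hM hU, ?_, ?_, ?_⟩
  · rw [chi_eq hM]
    exact hcb.1
  · rintro ⟨i, hi⟩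
    rw [chi_eq hM]
    refine hcb.2 ⟨x i, hxS i, ?_⟩
    rintro ⟨g, hg⟩
    exact hi ⟨g, fun h hh => hg h (hls i hh)⟩
  · refine ⟨⟨⟨e, hM.inj⟩, ?_, ?_, ?_⟩, ?_⟩
    · intro y
      change e (τ.b y) = M.1.2.1 (e y)
      rw [hM.hb, hgb]
    · intro y
      change e (τ.c y) = M.1.2.2 (e y)
      rw [hM.hc, hgc]
    · intro y hy
      change e (τ.a y) = M.1.1 (e y)
      rw [hM.ha y hy, hga]
    · intro i
      change x i ∈ Set.range e
      rw [hM.range]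
      exact subset_hat _ S _ (hxS i)

theorem bound_noncyclic (hyp : Hyp p q) (k R : ℕ) : ∃ C : ℝ, 0 ≤ C ∧ ∀ m : ℕ, 0 < m →
    (Nat.card {z : MapOn p q (Fin (2 * m)) × (Fin (k + 1) → Fin (2 * m)) //
      (∀ i, ∃ g ∈ ballT p q R, g ≠ 1 ∧ mapHom z.1.2 g (z.2 i) = z.2 i) ∧
        ¬ InCyclic (locStab (mapHom z.1.2) R (z.2 0))} : ℝ) ≤
      C / (m : ℝ) * (NMap p q m : ℝ) := by
  classical
  obtain ⟨C₀, hC₀⟩ := loops_type hyp (k + 1) R
  obtain ⟨C, hC, h⟩ := count_cover hyp (k + 1) (-1) C₀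
    (fun m M x => (∀ i, ∃ g ∈ ballT p q R, g ≠ 1 ∧ mapHom M.2 g (x i) = x i) ∧
      ¬ InCyclic (locStab (mapHom M.2) R (x 0))) (by
    intro m hm M x hx
    obtain ⟨N, hN, τ, h1, _, h3, h4⟩ := hC₀ m hm M x hx.1
    exact ⟨N, hN, τ, h1, h3 ⟨0, hx.2⟩, h4⟩)
  refine ⟨C, hC, ?_⟩
  intro m hm
  refine (h m hm).trans ?_
  refine mul_le_mul_of_nonneg_right ?_ (Nat.cast_nonneg _)
  have hm' : (0 : ℝ) < m := Nat.cast_pos.mpr hm
  rw [Real.rpow_neg_one, div_eq_mul_inv]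
  refine mul_le_mul_of_nonneg_left ?_ hC
  apply inv_anti₀ hm'
  linarith

end MPbcd198.M
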