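import Pool.Agent.Lib.MP_bcd198_co.M.EmbB
import Pool.Agent.Lib.MP_bcd198_co.M.Loop

/-!
# MP_bcd198_co, stream M, job Ngd: embeddings into bad maps are negligible

Let `i : Fin l → Fin F.K` and `τ'` a union of the types `F.τ (i j)`.  For an embedding `ι'` of `τ'`
in `M` let `ι j` be the corresponding embeddings (`IsUnion.emb`) and `x j` the base flags
(`emb_base`).  `x j` is fixed by `γ (i j)`: with `e y₀ = cst 1 = cst (γ (i j))` (`cst_eq_iff`;
`y₀` exists because `cst 1 ∈ H ⊆ hat H = range e`, `subset_hat`)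
`ρ (γ (i j)) (x j) = ι y₀ = x j`; `γ (i j) ∈ ballT L₁ ⊆ ballT R` (`F.γ_ball`, `F.hR`, `ball_mono`),
`γ (i j) ≠ 1` (`adm_ne_one`).  The family `x` determines the `ι j` (every `e y` is a coset,
`cst_surj`) hence `ι'`.  If `M` is not `Good` choose a flag `x₀` with
`¬ InCyclic (locStab ρ R x₀)`; then there is a non trivial `g ∈ locStab` (otherwise
`InCyclic` holds with `g = 1`).  So `(M, ι') ↦ (M, Fin.cons x₀ x)` is an injective map into
the set of `bound_noncyclic hyp l F.R`.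
-/

set_option autoImplicit false

namespace MPbcd198.M

open Equiv

variable {p q l₀ : ℕ}

theorem not_good_emb (hyp : Hyp p q) (F : Frame p q l₀) (l : ℕ) (i : Fin l → Fin F.K) {N' : ℕ}
    (τ' : PType p q (Fin N')) (hτ : IsUnion (fun j => F.τ (i j)) τ') :
    ∃ C : ℝ, 0 ≤ C ∧ ∀ m : ℕ, 0 < m →
      (Nat.card {z : Σ M : MapOn p q (Fin (2 * m)), τ'.Emb M.1 //
        ¬ Good (mapHom z.1.2) F.R} : ℝ) ≤ C / (m : ℝ) * (NMap p q m : ℝ) := by
  classical
  obtain ⟨C, hC, hb⟩ := bound_noncyclic hyp l F.R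
  refine ⟨C, hC, ?_⟩
  intro m hm
  refine le_trans ?_ (hb m hm)
  -- the embedding `ι` has the base flags `x`
  obtain ⟨G, hG⟩ : ∃ G : ∀ M : MapOn p q (Fin (2 * m)), τ'.Emb M.1 →
      (Fin l → Fin (2 * m)) → Prop, ∀ M ι x, G M ι x ↔
        ∀ (j : Fin l) (y : Fin (F.N (i j))) (g : Tri p q),
          F.e (i j) y = cst (F.γ (i j)) g →
            (((hτ.emb M.1).some ι).1 j).1 y = mapHom M.2 g (x j) :=
    ⟨fun M ι x => ∀ (j : Fin l) (y : Fin (F.N (i j))) (g : Tri p q),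
      F.e (i j) y = cst (F.γ (i j)) g →
        (((hτ.emb M.1).some ι).1 j).1 y = mapHom M.2 g (x j), fun _ _ _ => Iff.rfl⟩
  have hGinj : ∀ M ι ι' x, G M ι x → G M ι' x → ι = ι' := by
    intro M ι ι' x h1 h2
    rw [hG] at h1 h2
    apply (hτ.emb M.1).some.injective
    apply Subtype.ext
    funext j
    apply Subtype.ext
    apply DFunLike.ext
    intro y
    obtain ⟨g, hg⟩ := cst_surj (F.γ (i j)) (F.e (i j) y)
    rw [h1 j y g hg, h2 j y g hg]
  have hGfix : ∀ M ι x, G M ι x → ∀ j, ∃ g ∈ ballT p q F.R, g ≠ 1 ∧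
      mapHom M.2 g (x j) = x j := by
    intro M ι x h1 j
    rw [hG] at h1
    have hR := F.hR
    refine ⟨F.γ (i j), ball_mono (by omega) (F.γ_ball (i j)), adm_ne_one (F.adm (i j)), ?_⟩
    have h1H : cst (F.γ (i j)) 1 ∈ F.H (i j) := F.H1 (i j) 1 (one_mem_ball _)
    have h2 := subset_hat (cosetHom (Subgroup.zpowers (F.γ (i j)))) (F.H (i j)) _ h1H
    rw [← (F.models (i j)).range] at h2
    obtain ⟨y₀, hy₀⟩ := h2
    have e1 := h1 j y₀ 1 hy₀
    have e2 := h1 j y₀ (F.γ (i j)) (by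
      rw [hy₀, cst_eq_iff]
      simp)
    rw [map_one, Perm.one_apply] at e1
    rw [← e2, e1]
  have key : ∀ z : {z : Σ M : MapOn p q (Fin (2 * m)), τ'.Emb M.1 //
      ¬ Good (mapHom z.1.2) F.R}, ∃ x : Fin l → Fin (2 * m), ∃ x₀ : Fin (2 * m),
      G z.1.1 z.1.2 x ∧ ¬ InCyclic (locStab (mapHom z.1.1.2) F.R x₀) := by
    rintro ⟨⟨M, ι⟩, hng⟩
    have hbase := fun j => emb_base F M (i j) (((hτ.emb M.1).some ι).1 j)
    choose x hx using hbase
    unfold Good at hng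
    rw [not_forall] at hng
    obtain ⟨x₀, hx₀⟩ := hng
    exact ⟨x, x₀, (hG M ι x).2 fun j y g hg => hx j y g hg, hx₀⟩
  choose x x₀ h1 h2 using key
  have hloop : ∀ z, ∃ g ∈ ballT p q F.R, g ≠ 1 ∧ mapHom z.1.1.2 g (x₀ z) = x₀ z := by
    intro z
    by_contra hcon
    apply h2 z
    refine ⟨1, ?_⟩
    intro h hh
    by_cases he : h = 1
    · rw [he]; exact Subgroup.one_mem _
    · exact absurd ⟨h, hh.1, he, hh.2⟩ hcon
  have hfin : Finite {z : MapOn p q (Fin (2 * m)) × (Fin (l + 1) → Fin (2 * m)) //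
      (∀ i, ∃ g ∈ ballT p q F.R, g ≠ 1 ∧ mapHom z.1.2 g (z.2 i) = z.2 i) ∧
        ¬ InCyclic (locStab (mapHom z.1.2) F.R (z.2 0))} := inferInstance
  have := Nat.card_le_card_of_injective
    (fun z : {z : Σ M : MapOn p q (Fin (2 * m)), τ'.Emb M.1 // ¬ Good (mapHom z.1.2) F.R} =>
      (⟨(z.1.1, Fin.cons (x₀ z) (x z)), ⟨by
        intro j
        refine Fin.cases ?_ (fun j => ?_) j
        · simpa using hloop z
        · simpa using hGfix z.1.1 z.1.2 (x z) (h1 z) j, by simpa using h2 z⟩⟩ :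
        {z : MapOn p q (Fin (2 * m)) × (Fin (l + 1) → Fin (2 * m)) //
          (∀ i, ∃ g ∈ ballT p q F.R, g ≠ 1 ∧ mapHom z.1.2 g (z.2 i) = z.2 i) ∧
            ¬ InCyclic (locStab (mapHom z.1.2) F.R (z.2 0))})) (by
      intro z z' hzz
      simp only [Subtype.mk.injEq, Prod.mk.injEq] at hzz
      obtain ⟨hM, hc⟩ := hzz
      have hx : x z = x z' := by
        funext j
        have := congrFun hc j.succ
        simpa using this
      have g1 := h1 z
      have g2 := h1 z'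
      rw [← hx] at g2
      generalize x z = xx at g1 g2
      clear hc hx
      obtain ⟨⟨M, ι⟩, hz⟩ := z
      obtain ⟨⟨M', ι'⟩, hz'⟩ := z'
      simp only at hM
      subst hM
      have := hGinj M ι ι' xx g1 g2
      subst this
      rfl)
  exact_mod_cast this

end MPbcd198.M
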