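import Pool.Agent.Lib.MP_bcd198_co.M.Cov
import Pool.Agent.Lib.MP_bcd198_co.M.Ngd

/-!
# MP_bcd198_co, stream M, job Lim: limits of the moments over the good maps

* `emb_limit`: let `τ` be strict with `τ.chi ≤ 0`.  `thmP_strict` gives
  `|embCount τ m - (2m)^chi NMap| ≤ ε (2m)^chi NMap` for large `m`, and `(2m)^chi ≤ 1`, `= 1` if
  `chi = 0` and `→ 0` if `chi < 0` (`tendsto_rpow_neg_atTop`).
* `good_moment`: `S_l(m) = ∑_i (∏_j 1/α(i j)) #{(M,ι) : M good, ι ∈ Emb(τ' i) M}`.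
  The number of `(M, ι)` with `M` good is `embCount (τ' i) m` (`embCount_eq`) minus the number with
  `M` bad, which is `≤ C_i/m NMap` (`not_good_emb`).  `(τ' i).chi = ∑_j (F.τ (i j)).chi` is `≤ 0` and
  it is `0` iff every `(F.τ (i j)).chi = 0` (`F.chi_le`).  So `S_l(m)/NMap` converges to
  `∑_i ∏_j (1/α(i j)) [chi(τ (i j)) = 0] = (∑_i (1/α i) [chi(τ i) = 0])^l = F.lam ^ l`
  (`Finset.prod_univ_sum` / `Fintype.sum_pow`).  All weights `∏ 1/α` are `≥ 0`; a finite sum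
  of error terms (`Finset.sum` over `Fin l → Fin F.K`).
-/

set_option autoImplicit false

namespace MPbcd198.M

open Equiv

variable {p q l₀ : ℕ}

theorem emb_limit (hyp : Hyp p q) {N : ℕ} (τ : PType p q (Fin N)) (hs : τ.HullStrict)
    (hχ : τ.chi ≤ 0) : ∀ ε : ℝ, 0 < ε → ∃ m₀ : ℕ, ∀ m : ℕ, m₀ ≤ m →
      |(embCount τ m : ℝ) - (if τ.chi = 0 then 1 else 0) * (NMap p q m : ℝ)| ≤
        ε * (NMap p q m : ℝ) := by
  intro ε hε
  obtain ⟨m₁, h1⟩ := thmP_strict hyp τ hs (ε / 2) (by linarith)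
  have hpow : ∃ m₂ : ℕ, ∀ m : ℕ, m₂ ≤ m →
      |(2 * m : ℝ) ^ τ.chi - (if τ.chi = 0 then (1 : ℝ) else 0)| ≤ ε / 2 := by
    by_cases h0 : τ.chi = 0
    · refine ⟨0, fun m _ => ?_⟩
      rw [if_pos h0, h0, Real.rpow_zero, sub_self, abs_zero]
      linarith
    · have hneg : 0 < -τ.chi := by
        have := lt_of_le_of_ne hχ h0
        linarith
      have ht := tendsto_rpow_neg_atTop hneg
      have ht2 : Filter.Tendsto (fun m : ℕ => (2 * m : ℝ) ^ τ.chi) Filter.atTop (nhds 0) := by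
        have h3 : Filter.Tendsto (fun m : ℕ => (2 * m : ℝ)) Filter.atTop Filter.atTop :=
          Filter.Tendsto.const_mul_atTop (by norm_num) tendsto_natCast_atTop_atTop
        have h4 := ht.comp h3
        simpa [Function.comp_def] using h4
      rw [Metric.tendsto_atTop] at ht2
      obtain ⟨m₂, hm₂⟩ := ht2 (ε / 2) (by linarith)
      refine ⟨m₂, fun m hm => ?_⟩
      have h5 := hm₂ m hm
      rw [if_neg h0]
      rw [Real.dist_eq] at h5
      exact h5.le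
  obtain ⟨m₂, h2⟩ := hpow
  refine ⟨max (max m₁ m₂) 1, fun m hm => ?_⟩
  have hm1 : m₁ ≤ m := le_trans (le_trans (le_max_left _ _) (le_max_left _ _)) hm
  have hm2 : m₂ ≤ m := le_trans (le_trans (le_max_right _ _) (le_max_left _ _)) hm
  have hm3 : 1 ≤ m := le_trans (le_max_right _ _) hm
  have hN : (0 : ℝ) ≤ (NMap p q m : ℝ) := Nat.cast_nonneg _
  have hm3' : (1 : ℝ) ≤ 2 * m := by
    have : (1 : ℝ) ≤ m := by exact_mod_cast hm3
    linarith
  have hle1 : (2 * m : ℝ) ^ τ.chi ≤ 1 := Real.rpow_le_one_of_one_le_of_nonpos hm3' hχ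
  have hA := h1 m hm1
  have hB := h2 m hm2
  have hA' : |(embCount τ m : ℝ) - (2 * m : ℝ) ^ τ.chi * (NMap p q m : ℝ)| ≤
      ε / 2 * (NMap p q m : ℝ) := by
    refine hA.trans ?_
    refine mul_le_mul_of_nonneg_left ?_ (by linarith)
    exact mul_le_of_le_one_left hN hle1
  have hB' : |(2 * m : ℝ) ^ τ.chi * (NMap p q m : ℝ) -
      (if τ.chi = 0 then (1 : ℝ) else 0) * (NMap p q m : ℝ)| ≤ ε / 2 * (NMap p q m : ℝ) := by
    rw [← sub_mul, abs_mul, abs_of_nonneg hN]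
    exact mul_le_mul_of_nonneg_right hB hN
  calc |(embCount τ m : ℝ) - (if τ.chi = 0 then 1 else 0) * (NMap p q m : ℝ)|
      ≤ |(embCount τ m : ℝ) - (2 * m : ℝ) ^ τ.chi * (NMap p q m : ℝ)| +
        |(2 * m : ℝ) ^ τ.chi * (NMap p q m : ℝ) -
          (if τ.chi = 0 then (1 : ℝ) else 0) * (NMap p q m : ℝ)| := abs_sub_le _ _ _
    _ ≤ ε / 2 * (NMap p q m : ℝ) + ε / 2 * (NMap p q m : ℝ) := add_le_add hA' hB'
    _ = ε * (NMap p q m : ℝ) := by ring

private theorem Lim_finite {N' : ℕ} (τ' : PType p q (Fin N')) (m : ℕ) :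
    Finite (Σ M : MapOn p q (Fin (2 * m)), τ'.Emb M.1) := by
  have h1 : ∀ M : MapOn p q (Fin (2 * m)), Finite (τ'.Emb M.1) := fun M => by
    unfold PType.Emb
    infer_instance
  have h2 : Finite (MapOn p q (Fin (2 * m))) := by
    unfold MapOn Trip
    infer_instance
  infer_instance

private theorem Lim_one (hyp : Hyp p q) (F : Frame p q l₀) (l : ℕ) (i : Fin l → Fin F.K) {N' : ℕ}
    (τ' : PType p q (Fin N')) (hτ : IsUnion (fun j => F.τ (i j)) τ') :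
    ∀ ε : ℝ, 0 < ε → ∃ m₀ : ℕ, ∀ m : ℕ, m₀ ≤ m →
      |(Nat.card {z : Σ M : MapOn p q (Fin (2 * m)), τ'.Emb M.1 //
            Good (mapHom z.1.2) F.R} : ℝ) - (if τ'.chi = 0 then 1 else 0) * (NMap p q m : ℝ)| ≤
        ε * (NMap p q m : ℝ) := by
  intro ε hε
  have hstrict : τ'.HullStrict := hτ.strict fun j => F.strict (i j)
  have hχ : τ'.chi ≤ 0 := by
    rw [hτ.chi]
    exact Finset.sum_nonpos fun j _ => F.chi_le (i j)
  obtain ⟨m₁, h1⟩ := emb_limit hyp τ' hstrict hχ (ε / 2) (by linarith)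
  obtain ⟨C, hC, h2⟩ := not_good_emb hyp F l i τ' hτ
  obtain ⟨m₂, hm₂⟩ := exists_nat_gt (C / (ε / 2))
  refine ⟨max (max m₁ m₂) 1, fun m hm => ?_⟩
  have hm1 : m₁ ≤ m := le_trans (le_trans (le_max_left _ _) (le_max_left _ _)) hm
  have hm2 : m₂ ≤ m := le_trans (le_trans (le_max_right _ _) (le_max_left _ _)) hm
  have hm3 : 1 ≤ m := le_trans (le_max_right _ _) hm
  have hN : (0 : ℝ) ≤ (NMap p q m : ℝ) := Nat.cast_nonneg _
  have hmpos : (0 : ℝ) < m := by exact_mod_cast hm3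
  have hA := h1 m hm1
  have hB := h2 m hm3
  have hfin := Lim_finite τ' m
  have hsum : (embCount τ' m : ℝ) =
      (Nat.card {z : Σ M : MapOn p q (Fin (2 * m)), τ'.Emb M.1 // Good (mapHom z.1.2) F.R} : ℝ) +
      (Nat.card {z : Σ M : MapOn p q (Fin (2 * m)), τ'.Emb M.1 //
        ¬ Good (mapHom z.1.2) F.R} : ℝ) := by
    classical
    rw [embCount_eq, ← Nat.card_congr (Equiv.sumCompl
      fun z : Σ M : MapOn p q (Fin (2 * m)), τ'.Emb M.1 => Good (mapHom z.1.2) F.R),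
      Nat.card_sum, Nat.cast_add]
  have hCm : C / (m : ℝ) ≤ ε / 2 := by
    rw [div_le_iff₀ hmpos]
    have h3 : C / (ε / 2) < m := lt_of_lt_of_le hm₂ (by exact_mod_cast hm2)
    rw [div_lt_iff₀ (by linarith)] at h3
    linarith
  have hB' : (Nat.card {z : Σ M : MapOn p q (Fin (2 * m)), τ'.Emb M.1 //
        ¬ Good (mapHom z.1.2) F.R} : ℝ) ≤ ε / 2 * (NMap p q m : ℝ) :=
    hB.trans (mul_le_mul_of_nonneg_right hCm hN)
  have hB0 : (0 : ℝ) ≤ (Nat.card {z : Σ M : MapOn p q (Fin (2 * m)), τ'.Emb M.1 //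
        ¬ Good (mapHom z.1.2) F.R} : ℝ) := Nat.cast_nonneg _
  rw [hsum] at hA
  rw [abs_le] at hA ⊢
  constructor <;> linarith [hA.1, hA.2]

theorem good_moment (hyp : Hyp p q) (F : Frame p q l₀) (l : ℕ)
    (N' : (Fin l → Fin F.K) → ℕ) (τ' : ∀ i, PType p q (Fin (N' i)))
    (hτ : ∀ i : Fin l → Fin F.K, IsUnion (fun j => F.τ (i j)) (τ' i)) :
    ∀ ε : ℝ, 0 < ε → ∃ m₀ : ℕ, ∀ m : ℕ, m₀ ≤ m →
      |∑ i : Fin l → Fin F.K, (∏ j, (1 : ℝ) / (F.α (i j) : ℝ)) *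
          (Nat.card {z : Σ M : MapOn p q (Fin (2 * m)), (τ' i).Emb M.1 //
            Good (mapHom z.1.2) F.R} : ℝ) - F.lam ^ l * (NMap p q m : ℝ)| ≤
        ε * (NMap p q m : ℝ) := by
  classical
  intro ε hε
  -- the limit
  have hlim : F.lam ^ l = ∑ i : Fin l → Fin F.K, (∏ j, (1 : ℝ) / (F.α (i j) : ℝ)) *
      (if (τ' i).chi = 0 then (1 : ℝ) else 0) := by
    unfold Frame.lam
    rw [Fintype.sum_pow]
    refine Finset.sum_congr rfl fun i _ => ?_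
    by_cases h : (τ' i).chi = 0
    · rw [if_pos h, mul_one]
      rw [(hτ i).chi, Finset.sum_eq_zero_iff_of_nonpos fun j _ => F.chi_le (i j)] at h
      refine Finset.prod_congr rfl fun j _ => ?_
      rw [if_pos (h j (Finset.mem_univ j))]
    · rw [if_neg h, mul_zero]
      rw [(hτ i).chi, Finset.sum_eq_zero_iff_of_nonpos fun j _ => F.chi_le (i j)] at h
      push Not at h
      obtain ⟨j, hj, hne⟩ := h
      exact Finset.prod_eq_zero hj (if_neg hne)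
  -- the weights
  have hw : ∀ i : Fin l → Fin F.K, 0 ≤ ∏ j, (1 : ℝ) / (F.α (i j) : ℝ) := fun i =>
    Finset.prod_nonneg fun j _ => by positivity
  obtain ⟨w, hwdef⟩ : ∃ w : (Fin l → Fin F.K) → ℝ, w = fun i => ∏ j, (1 : ℝ) / (F.α (i j) : ℝ) :=
    ⟨_, rfl⟩
  have hw0 : ∀ i, 0 ≤ w i := fun i => by rw [hwdef]; exact hw i
  have hW : 0 ≤ ∑ i, w i := Finset.sum_nonneg fun i _ => hw0 i
  have hε' : 0 < ε / (∑ i, w i + 1) := by positivity
  choose m₀ hm₀ using fun i => Lim_one hyp F l i (τ' i) (hτ i) (ε / (∑ i, w i + 1)) hε'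
  refine ⟨Finset.univ.sup m₀, fun m hm => ?_⟩
  have hN : (0 : ℝ) ≤ (NMap p q m : ℝ) := Nat.cast_nonneg _
  have h1 : ∀ i, |(Nat.card {z : Σ M : MapOn p q (Fin (2 * m)), (τ' i).Emb M.1 //
      Good (mapHom z.1.2) F.R} : ℝ) - (if (τ' i).chi = 0 then 1 else 0) * (NMap p q m : ℝ)| ≤
      ε / (∑ i, w i + 1) * (NMap p q m : ℝ) := fun i =>
    hm₀ i m (le_trans (Finset.le_sup (Finset.mem_univ i)) hm)
  rw [hlim, Finset.sum_mul, ← Finset.sum_sub_distrib]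
  calc |∑ i : Fin l → Fin F.K, ((∏ j, (1 : ℝ) / (F.α (i j) : ℝ)) *
          (Nat.card {z : Σ M : MapOn p q (Fin (2 * m)), (τ' i).Emb M.1 //
            Good (mapHom z.1.2) F.R} : ℝ) - (∏ j, (1 : ℝ) / (F.α (i j) : ℝ)) *
          (if (τ' i).chi = 0 then (1 : ℝ) else 0) * (NMap p q m : ℝ))|
      ≤ ∑ i : Fin l → Fin F.K, |(∏ j, (1 : ℝ) / (F.α (i j) : ℝ)) *
          (Nat.card {z : Σ M : MapOn p q (Fin (2 * m)), (τ' i).Emb M.1 //
            Good (mapHom z.1.2) F.R} : ℝ) - (∏ j, (1 : ℝ) / (F.α (i j) : ℝ)) *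
          (if (τ' i).chi = 0 then (1 : ℝ) else 0) * (NMap p q m : ℝ)| :=
        Finset.abs_sum_le_sum_abs _ _
    _ ≤ ∑ i : Fin l → Fin F.K, w i * (ε / (∑ i, w i + 1) * (NMap p q m : ℝ)) := by
        refine Finset.sum_le_sum fun i _ => ?_
        have h2 : w i = ∏ j, (1 : ℝ) / (F.α (i j) : ℝ) := by rw [hwdef]
        rw [← h2, mul_assoc, ← mul_sub, abs_mul, abs_of_nonneg (hw0 i)]
        exact mul_le_mul_of_nonneg_left (h1 i) (hw0 i)
    _ = (∑ i, w i) * (ε / (∑ i, w i + 1)) * (NMap p q m : ℝ) := by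
        rw [← Finset.sum_mul, mul_assoc]
    _ ≤ ε * (NMap p q m : ℝ) := by
        refine mul_le_mul_of_nonneg_right ?_ hN
        rw [mul_div_assoc', div_le_iff₀ (by linarith)]
        nlinarith

end MPbcd198.M
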