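import Pool.Agent.Lib.MP_bcd198_co.M.Base

/-!
# MP_bcd198_co, stream M, job UniB: invariants and embeddings of a disjoint union of types

Let `Glue τ τ' f`.

* `glue_strict`: for `U` closed for `τ'` and non empty put `U_j = {y : f ⟨j,y⟩ ∈ U}`; it is closed
  for `τ j` (use `memS`, `ha`, `hb`, `hc`), and `τ'.e U = ∑_j (τ j).e U_j` (every cardinality is a
  sum over `j`: `f` restricts to bijections from `Σ j, U_j` to `U`, etc.;
  `Finset.card_sigma`).  Every term is `≤ 0` (`= 0` if `U_j` is empty, `< 0` otherwise) and some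
  `U_j` is nonempty.
* `glue_chi`: `τ'.S.card = ∑ (τ j).S.card`, `N' = ∑ N j`, `τ'.bdCard = ∑ (τ j).bdCard`.
* `glue_emb`: an embedding `ι` of `τ'` gives `ι_j y = ι (f ⟨j,y⟩)`: embeddings of the `τ j` with
  pairwise disjoint ranges (`ι` and `f` are injective); conversely such a family defines
  `ι (f ⟨j,y⟩) = ι_j y`, injective because each `ι_j` is and the ranges are disjoint.
-/

set_option autoImplicit false

namespace MPbcd198.M

open Equiv

variable {p q : ℕ}

open Classical in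
private theorem uniB_card {l : ℕ} {N : Fin l → ℕ} {N' : ℕ} (f : (Σ j, Fin (N j)) ≃ Fin N')
    (V : Finset (Fin N')) (W : ∀ j, Finset (Fin (N j)))
    (h : ∀ j y, f ⟨j, y⟩ ∈ V ↔ y ∈ W j) : V.card = ∑ j, (W j).card := by
  rw [← Finset.card_sigma]
  symm
  apply Finset.card_bij (fun (s : Σ j, Fin (N j)) _ => f s)
  · rintro ⟨j, y⟩ hs
    rw [Finset.mem_sigma] at hs
    exact (h j y).2 hs.2
  · intro s _ t _ hst
    exact f.injective hst
  · intro z hz
    refine ⟨f.symm z, ?_, by simp⟩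
    rw [Finset.mem_sigma]
    refine ⟨Finset.mem_univ _, ?_⟩
    rw [← h]
    simpa using hz

theorem glue_strict {l : ℕ} {N : Fin l → ℕ} {τ : ∀ j, PType p q (Fin (N j))} {N' : ℕ}
    {τ' : PType p q (Fin N')} {f : (Σ j, Fin (N j)) ≃ Fin N'} (h : Glue τ τ' f)
    (hs : ∀ j, (τ j).HullStrict) : τ'.HullStrict := by
  classical
  intro U hU hcl
  let W : ∀ j, Finset (Fin (N j)) := fun j => Finset.univ.filter fun y => f ⟨j, y⟩ ∈ U
  have hW : ∀ j y, f ⟨j, y⟩ ∈ U ↔ y ∈ W j := by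
    intro j y
    simp [W]
  have hWcl : ∀ j, (τ j).Closed (W j) := by
    intro j
    refine ⟨?_, ?_, ?_⟩
    · intro y hy
      rw [← hW] at hy
      rw [← h.memS]
      exact hcl.1 _ hy
    · intro y hy
      rw [← hW] at hy
      rw [← hW, ← h.hb]
      exact hcl.2.1 _ hy
    · intro y hy hc
      rw [← hW] at hy
      rw [← h.memS, ← h.hc] at hc
      rw [← hW]
      have h1 := hcl.2.2 _ hy hc
      rw [h.hc, h.ha, h.hc] at h1
      exact h1
  have key : ∀ (V : Finset (Fin N')) (W : ∀ j, Finset (Fin (N j))),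
      (∀ j y, f ⟨j, y⟩ ∈ V ↔ y ∈ W j) → (V.card : ℝ) = ∑ j, ((W j).card : ℝ) := by
    intro V W hVW
    rw [uniB_card f V W hVW]
    push_cast
    rfl
  have he : τ'.e U = ∑ j, (τ j).e (W j) := by
    unfold PType.e
    rw [Finset.sum_add_distrib, Finset.sum_sub_distrib, ← Finset.sum_div, ← Finset.sum_div,
      ← Finset.sum_div]
    refine congrArg₂ (· + ·) (congrArg₂ (· - ·) (congrArg (· / _) ?_) (congrArg (· / _) ?_))
      (congrArg (· / _) ?_)
    · exact key U W hW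
    · apply key
      intro j y
      simp only [Finset.mem_filter, hW, h.hc, h.memS]
    · apply key
      intro j y
      simp only [Finset.mem_filter, hW, h.hc, h.memS]
  rw [he]
  have hle : ∀ j, (τ j).e (W j) ≤ 0 := by
    intro j
    by_cases hne : (W j).Nonempty
    · exact (hs j _ hne (hWcl j)).le
    · rw [Finset.not_nonempty_iff_eq_empty] at hne
      rw [hne]
      simp [PType.e]
  obtain ⟨z, hz⟩ := hU
  have hz' : f ⟨(f.symm z).1, (f.symm z).2⟩ ∈ U := by simpa using hz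
  rw [hW] at hz'
  apply Finset.sum_neg' (fun j _ => hle j)
  exact ⟨(f.symm z).1, Finset.mem_univ _, hs _ _ ⟨_, hz'⟩ (hWcl _)⟩

theorem glue_chi {l : ℕ} {N : Fin l → ℕ} {τ : ∀ j, PType p q (Fin (N j))} {N' : ℕ}
    {τ' : PType p q (Fin N')} {f : (Σ j, Fin (N j)) ≃ Fin N'} (h : Glue τ τ' f) :
    τ'.chi = ∑ j, (τ j).chi := by
  classical
  unfold PType.chi
  have e1 : τ'.S.card = ∑ j, (τ j).S.card := uniB_card f _ _ h.memS
  have e2 : Fintype.card (Fin N') = ∑ j, Fintype.card (Fin (N j)) := by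
    rw [← Fintype.card_congr f, Fintype.card_sigma]
  have e3 : τ'.bdCard = ∑ j, (τ j).bdCard := by
    unfold PType.bdCard
    apply uniB_card f
    intro j y
    simp only [Finset.mem_filter, h.memS, h.hc]
  rw [Finset.sum_sub_distrib, Finset.sum_sub_distrib, Finset.sum_add_distrib, ← Finset.sum_div,
    ← Finset.sum_div, ← Finset.sum_div, ← Finset.sum_div]
  rw [e1, e2, e3]
  push_cast
  ring

private def uniB_G {l : ℕ} {N : Fin l → ℕ} {τ : ∀ j, PType p q (Fin (N j))} {Ω : Type}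
    {M : Trip Ω} (ι : ∀ j, (τ j).Emb M) (s : Σ j, Fin (N j)) : Ω := (ι s.1).1 s.2

theorem glue_emb {l : ℕ} {N : Fin l → ℕ} {τ : ∀ j, PType p q (Fin (N j))} {N' : ℕ}
    {τ' : PType p q (Fin N')} {f : (Σ j, Fin (N j)) ≃ Fin N'} (h : Glue τ τ' f) {Ω : Type}
    (M : Trip Ω) : Nonempty (τ'.Emb M ≃
      {ι : ∀ j, (τ j).Emb M // ∀ j k, j ≠ k → Disjoint (Set.range ((ι j).1 : Fin (N j) → Ω))
        (Set.range ((ι k).1 : Fin (N k) → Ω))}) := by
  classical
  have hsurj : ∀ z, ∃ j y, f ⟨j, y⟩ = z := by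
    intro z
    refine ⟨(f.symm z).1, (f.symm z).2, ?_⟩
    simp
  refine ⟨{ toFun := fun ι => ⟨fun j => ⟨⟨fun y => ι.1 (f ⟨j, y⟩), ?_⟩, ?_, ?_, ?_⟩, ?_⟩
            invFun := fun ι => ⟨⟨fun z => uniB_G ι.1 (f.symm z), ?_⟩, ?_, ?_, ?_⟩
            left_inv := ?_
            right_inv := ?_ }⟩
  · intro y y' hy
    have h1 := f.injective (ι.1.injective hy)
    simpa using h1
  · intro y
    have h1 := ι.2.1 (f ⟨j, y⟩)
    rw [h.hb] at h1
    exact h1
  · intro y
    have h1 := ι.2.2.1 (f ⟨j, y⟩)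
    rw [h.hc] at h1
    exact h1
  · intro y hy
    have h1 := ι.2.2.2 (f ⟨j, y⟩) ((h.memS j y).2 hy)
    rw [h.ha] at h1
    exact h1
  · intro j k hjk
    rw [Set.disjoint_left]
    rintro _ ⟨y, rfl⟩ ⟨y', hy'⟩
    have h1 := f.injective (ι.1.injective hy')
    exact hjk (congrArg Sigma.fst h1).symm
  · intro z z' hz
    obtain ⟨j, y, rfl⟩ := hsurj z
    obtain ⟨j', y', rfl⟩ := hsurj z'
    simp only [Equiv.symm_apply_apply] at hz
    change (ι.1 j).1 y = (ι.1 j').1 y' at hz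
    by_cases hjj : j = j'
    · subst hjj
      rw [(ι.1 j).1.injective hz]
    · exact absurd hz (fun hz => (Set.disjoint_left.1 (ι.2 j j' hjj)) ⟨y, rfl⟩ ⟨y', hz.symm⟩)
  · intro z
    obtain ⟨j, y, rfl⟩ := hsurj z
    simp only [Function.Embedding.coeFn_mk, h.hb, Equiv.symm_apply_apply]
    exact (ι.1 j).2.1 y
  · intro z
    obtain ⟨j, y, rfl⟩ := hsurj z
    simp only [Function.Embedding.coeFn_mk, h.hc, Equiv.symm_apply_apply]
    exact (ι.1 j).2.2.1 y
  · intro z hz
    obtain ⟨j, y, rfl⟩ := hsurj z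
    simp only [Function.Embedding.coeFn_mk, h.ha, Equiv.symm_apply_apply]
    exact (ι.1 j).2.2.2 y ((h.memS j y).1 hz)
  · intro ι
    apply Subtype.ext
    ext z
    obtain ⟨j, y, rfl⟩ := hsurj z
    simp only [Function.Embedding.coeFn_mk, Equiv.symm_apply_apply]
    rfl
  · intro ι
    apply Subtype.ext
    funext j
    apply Subtype.ext
    ext y
    simp only [Function.Embedding.coeFn_mk, Equiv.symm_apply_apply]
    rfl

end MPbcd198.M
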