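import Pool.Agent.Lib.MP_bcd198_co.M.Uni
import Pool.Agent.Lib.MP_bcd198_co.M.UniB

/-!
# MP_bcd198_co, stream M: existence of disjoint unions of planted types
-/

set_option autoImplicit false

namespace MPbcd198.M

open Equiv

variable {p q : ℕ}

theorem exists_union {l : ℕ} {N : Fin l → ℕ} (τ : ∀ j, PType p q (Fin (N j))) :
    ∃ (N' : ℕ) (τ' : PType p q (Fin N')), IsUnion τ τ' := by
  obtain ⟨N', τ', f, h⟩ := exists_glue τ
  exact ⟨N', τ', ⟨fun hs => glue_strict h hs, glue_chi h, fun M => glue_emb h M⟩⟩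

end MPbcd198.M
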