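import Pool.Agent.Lib.MP_bcd198_co.M.Hul
import Pool.Agent.Lib.MP_bcd198_co.M.Clu
import Pool.Agent.Lib.MP_bcd198_co.M.Lim
import Pool.Agent.Lib.MP_bcd198_co.M.Bon
import Pool.Agent.Lib.MP_bcd198_co.M.UniM

/-!
# MP_bcd198_co, stream M: [8.3] a positive proportion of the maps has no short loops
-/

set_option autoImplicit false

namespace MPbcd198.M

open Equiv

variable {p q : ℕ}

theorem moments_main {p q : ℕ} (hyp : Hyp p q) (l : ℕ) : ∃ δ : ℝ, 0 < δ ∧ ∃ m₀ : ℕ,
    ∀ m : ℕ, m₀ ≤ m →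
      δ * (NMap p q m : ℝ) ≤
        (Nat.card {M : MapOn p q (Fin (2 * m)) // NoShort (mapHom M.2) l} : ℝ) := by
  classical
  obtain ⟨F⟩ := exists_frame hyp l
  obtain ⟨L, hL, hpos⟩ := exists_odd F.lam
  set s : ℝ := ∑ j ∈ Finset.range (L + 1), (-1 : ℝ) ^ j / (j.factorial : ℝ) * F.lam ^ j with hs
  -- unions of the types
  have hU : ∀ (j : ℕ) (i : Fin j → Fin F.K), ∃ (N' : ℕ) (τ' : PType p q (Fin N')),
      IsUnion (fun k => F.τ (i k)) τ' := fun j i => exists_union _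
  choose N' τ' hτ using hU
  -- moments
  have hε : 0 < s / (2 * (L + 1 : ℝ)) := by positivity
  have hm := fun j : ℕ => good_moment hyp F j (N' j) (τ' j) (hτ j) _ hε
  choose m₀ hm₀ using hm
  refine ⟨s / 2, by positivity, ∑ j ∈ Finset.range (L + 1), m₀ j, fun m hmm => ?_⟩
  have hfin : Finite (MapOn p q (Fin (2 * m))) := Subtype.finite
  have : Fintype (MapOn p q (Fin (2 * m))) := Fintype.ofFinite _
  -- the number of clusters of a good map
  have hZ : ∀ M : {M : MapOn p q (Fin (2 * m)) // Good (mapHom M.2) F.R}, _ :=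
    fun M => cluster_main hyp F M.1 M.2
  choose Z hZ0 hZl using hZ
  have : Fintype {M : MapOn p q (Fin (2 * m)) // Good (mapHom M.2) F.R} := Fintype.ofFinite _
  have hfE : ∀ (j : ℕ) (i : Fin j → Fin F.K) (M : MapOn p q (Fin (2 * m))),
      Finite ((τ' j i).Emb M.1) := fun j i M => Subtype.finite
  -- factorial moments
  have hmom : ∀ j ∈ Finset.range (L + 1),
      |∑ M, ((Z M).descFactorial j : ℝ) - F.lam ^ j * (NMap p q m : ℝ)| ≤
        s / (2 * (L + 1 : ℝ)) * (NMap p q m : ℝ) := by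
    intro j hj
    have h1 := hm₀ j m (le_trans (Finset.single_le_sum (f := m₀) (fun _ _ => Nat.zero_le _) hj)
      hmm)
    have h2 : ∑ M, ((Z M).descFactorial j : ℝ) =
        ∑ i : Fin j → Fin F.K, (∏ k, (1 : ℝ) / (F.α (i k) : ℝ)) *
          (Nat.card {z : Σ M : MapOn p q (Fin (2 * m)), (τ' j i).Emb M.1 //
            Good (mapHom z.1.2) F.R} : ℝ) := by
      have h3 : ∀ M : {M : MapOn p q (Fin (2 * m)) // Good (mapHom M.2) F.R},
          ((Z M).descFactorial j : ℝ) = ∑ i : Fin j → Fin F.K,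
          (∏ k, (1 : ℝ) / (F.α (i k) : ℝ)) * (Nat.card ((τ' j i).Emb M.1.1) : ℝ) :=
        fun M => hZl M j (N' j) (τ' j) (hτ j)
      rw [Finset.sum_congr rfl fun M _ => h3 M, Finset.sum_comm]
      refine Finset.sum_congr rfl fun i _ => ?_
      rw [← Finset.mul_sum, ← Nat.cast_sum]
      congr 2
      have e : {z : Σ M : MapOn p q (Fin (2 * m)), (τ' j i).Emb M.1 //
            Good (mapHom z.1.2) F.R} ≃
          Σ M : {M : MapOn p q (Fin (2 * m)) // Good (mapHom M.2) F.R}, (τ' j i).Emb M.1.1 :=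
        { toFun := fun z => ⟨⟨z.1.1, z.2⟩, z.1.2⟩
          invFun := fun z => ⟨⟨z.1.1, z.2⟩, z.1.2⟩
          left_inv := fun _ => rfl
          right_inv := fun _ => rfl }
      rw [Nat.card_congr e, Nat.card_sigma]
    rw [h2]
    exact h1
  -- Bonferroni
  have hbon : ∀ M, ∑ j ∈ Finset.range (L + 1), (-1 : ℝ) ^ j / (j.factorial : ℝ) *
      ((Z M).descFactorial j : ℝ) ≤ if Z M = 0 then 1 else 0 := fun M => bonferroni _ _ hL
  have hcount : (∑ M, (if Z M = 0 then (1 : ℝ) else 0)) ≤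
      (Nat.card {M : MapOn p q (Fin (2 * m)) // NoShort (mapHom M.2) l} : ℝ) := by
    rw [Finset.sum_boole]
    rw [Nat.cast_le, ← Fintype.card_subtype, ← Nat.card_eq_fintype_card]
    refine Nat.card_le_card_of_injective (fun M => ⟨M.1.1, hZ0 M.1 M.2⟩) ?_
    intro M M' h
    have : M.1.1 = M'.1.1 := congrArg (fun z => z.1) h
    exact Subtype.ext (Subtype.ext this)
  refine le_trans ?_ hcount
  refine le_trans ?_ (Finset.sum_le_sum fun M _ => hbon M)
  rw [Finset.sum_comm]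
  have hterm : ∀ j ∈ Finset.range (L + 1),
      (-1 : ℝ) ^ j / (j.factorial : ℝ) * (F.lam ^ j * (NMap p q m : ℝ)) -
        s / (2 * (L + 1 : ℝ)) * (NMap p q m : ℝ) ≤
      ∑ M, (-1 : ℝ) ^ j / (j.factorial : ℝ) * ((Z M).descFactorial j : ℝ) := by
    intro j hj
    rw [← Finset.mul_sum]
    have h1 := hmom j hj
    have h2 : |(-1 : ℝ) ^ j / (j.factorial : ℝ)| ≤ 1 := by
      rw [abs_div, abs_pow, abs_neg, abs_one, one_pow, Nat.abs_cast]
      rw [div_le_one (by positivity)]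
      exact_mod_cast Nat.one_le_iff_ne_zero.mpr (Nat.factorial_ne_zero j)
    have h3 : |(-1 : ℝ) ^ j / (j.factorial : ℝ) *
        (∑ M, ((Z M).descFactorial j : ℝ) - F.lam ^ j * (NMap p q m : ℝ))| ≤
        s / (2 * (L + 1 : ℝ)) * (NMap p q m : ℝ) := by
      rw [abs_mul]
      calc _ ≤ 1 * |∑ M, ((Z M).descFactorial j : ℝ) - F.lam ^ j * (NMap p q m : ℝ)| := by
            gcongr
        _ ≤ _ := by rw [one_mul]; exact h1
    have h4 := (abs_le.mp h3).1
    rw [mul_sub] at h4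
    linarith
  refine le_trans ?_ (Finset.sum_le_sum hterm)
  rw [Finset.sum_sub_distrib]
  simp only [← mul_assoc]
  rw [← Finset.sum_mul, ← hs, Finset.sum_const, Finset.card_range, nsmul_eq_mul]
  have : ((L + 1 : ℕ) : ℝ) * (s / (2 * (L + 1 : ℝ)) * (NMap p q m : ℝ)) =
      s / 2 * (NMap p q m : ℝ) := by
    push_cast
    field_simp
  rw [this]
  linarith

end MPbcd198.M
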