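import Pool.Agent.Lib.MP_bcd198_co.M.Base

/-!
# MP_bcd198_co, stream M, job Uni: construction of the disjoint union of planted types

Let `τ j`, `j : Fin l`, be planted types on `Fin (N j)`.  On `Y = Σ j, Fin (N j)` take
`S = {⟨j,y⟩ : y ∈ (τ j).S}` and `a, b, c` componentwise (`Equiv.sigmaCongrRight`, or explicit
functions), and transport everything to `Fin N'`, `N' = Fintype.card Y`, by a bijection
`f : Y ≃ Fin N'` (`Fintype.equivFin`).  All fields of `PType` hold componentwise.  For `ab` and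
`bc`: `(a * b)^[k] (f ⟨j,y⟩) = f ⟨j, (a_j * b_j)^[k] y⟩` by induction on `k`, so `n` is a period of
`f ⟨j,y⟩` iff it is a period of `y` (`f` injective, `Sigma.mk.inj_iff`/`heq`), and the minimal
periods agree (`Function.minimalPeriod` is determined by the periods:
`Nat.dvd_antisymm` with `Function.IsPeriodicPt.minimalPeriod_dvd`).
-/

set_option autoImplicit false

namespace MPbcd198.M

open Equiv

variable {p q : ℕ}

private theorem uni_minp {α β : Type} (h : β → β) (k : α → α) (g : α → β)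
    (hg : Function.Injective g) (hs : ∀ x, h (g x) = g (k x)) (x : α) :
    Function.minimalPeriod h (g x) = Function.minimalPeriod k x := by
  have hit : ∀ (n : ℕ) (x : α), h^[n] (g x) = g (k^[n] x) := by
    intro n
    induction n with
    | zero => intro x; rfl
    | succ n ih => intro x; rw [Function.iterate_succ_apply, hs, ih, Function.iterate_succ_apply]
  have hper : ∀ n : ℕ, Function.IsPeriodicPt h n (g x) ↔ Function.IsPeriodicPt k n x := by
    intro n
    constructor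
    · intro hp
      have h1 : h^[n] (g x) = g x := hp
      rw [hit] at h1
      exact hg h1
    · intro hp
      have h1 : k^[n] x = x := hp
      change h^[n] (g x) = g x
      rw [hit, h1]
  apply Nat.dvd_antisymm
  · exact ((hper _).2 (Function.isPeriodicPt_minimalPeriod k x)).minimalPeriod_dvd
  · exact ((hper _).1 (Function.isPeriodicPt_minimalPeriod h (g x))).minimalPeriod_dvd

theorem exists_glue {l : ℕ} {N : Fin l → ℕ} (τ : ∀ j, PType p q (Fin (N j))) :
    ∃ (N' : ℕ) (τ' : PType p q (Fin N')) (f : (Σ j, Fin (N j)) ≃ Fin N'), Glue τ τ' f := by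
  classical
  let f : (Σ j, Fin (N j)) ≃ Fin (Fintype.card (Σ j, Fin (N j))) := Fintype.equivFin _
  let A : Perm (Fin (Fintype.card (Σ j, Fin (N j)))) :=
    f.permCongr (Equiv.sigmaCongrRight fun j => (τ j).a)
  let B : Perm (Fin (Fintype.card (Σ j, Fin (N j)))) :=
    f.permCongr (Equiv.sigmaCongrRight fun j => (τ j).b)
  let C : Perm (Fin (Fintype.card (Σ j, Fin (N j)))) :=
    f.permCongr (Equiv.sigmaCongrRight fun j => (τ j).c)
  have hPS : ∃ PS : (Σ j, Fin (N j)) → Prop, ∀ j y, PS ⟨j, y⟩ ↔ y ∈ (τ j).S :=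
    ⟨fun s => s.2 ∈ (τ s.1).S, fun j y => Iff.rfl⟩
  obtain ⟨PS, hPS⟩ := hPS
  let S : Finset (Fin (Fintype.card (Σ j, Fin (N j)))) :=
    Finset.univ.filter fun z => PS (f.symm z)
  have hA : ∀ j y, A (f ⟨j, y⟩) = f ⟨j, (τ j).a y⟩ := by
    intro j y
    simp [A, Equiv.permCongr_apply]
  have hB : ∀ j y, B (f ⟨j, y⟩) = f ⟨j, (τ j).b y⟩ := by
    intro j y
    simp [B, Equiv.permCongr_apply]
  have hC : ∀ j y, C (f ⟨j, y⟩) = f ⟨j, (τ j).c y⟩ := by
    intro j y
    simp [C, Equiv.permCongr_apply]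
  have hS : ∀ j y, f ⟨j, y⟩ ∈ S ↔ y ∈ (τ j).S := by
    intro j y
    simp only [S, Finset.mem_filter, Finset.mem_univ, true_and, Equiv.symm_apply_apply]
    exact hPS j y
  have hinj : ∀ j, Function.Injective fun y : Fin (N j) => f ⟨j, y⟩ := by
    intro j y y' h
    have h1 := f.injective h
    simpa using h1
  have hne : ∀ j y y', f ⟨j, y⟩ = f ⟨j, y'⟩ ↔ y = y' := fun j y y' => (hinj j).eq_iff
  have hsurj : ∀ z, ∃ j y, f ⟨j, y⟩ = z := by
    intro z
    refine ⟨(f.symm z).1, (f.symm z).2, ?_⟩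
    simp
  refine ⟨_, ⟨S, A, B, C, ?_, ?_, ?_, ?_, ?_, ?_, ?_, ?_, ?_, ?_⟩, f, ⟨hS, hA, hB, hC⟩⟩
  · intro z
    obtain ⟨j, y, rfl⟩ := hsurj z
    rw [hA, hA, (τ j).a_inv]
  · intro z
    obtain ⟨j, y, rfl⟩ := hsurj z
    rw [hA, hS, Ne, hne]
    exact (τ j).a_supp y
  · intro z
    obtain ⟨j, y, rfl⟩ := hsurj z
    rw [hB, hB, Ne, hne, hne]
    exact (τ j).pb y
  · intro z
    obtain ⟨j, y, rfl⟩ := hsurj z
    rw [hC, hC, Ne, hne, hne]
    exact (τ j).pc y
  · intro z hz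
    obtain ⟨j, y, rfl⟩ := hsurj z
    rw [hS] at hz
    rw [hB, hS]
    exact (τ j).bS y hz
  · intro z hz
    obtain ⟨j, y, rfl⟩ := hsurj z
    rw [hS] at hz
    rw [← (τ j).ab y hz]
    refine uni_minp (⇑(A * B)) (⇑((τ j).a * (τ j).b)) (fun y => f ⟨j, y⟩) (hinj j) ?_ y
    intro x
    simp only [Perm.mul_apply]
    rw [hB, hA]
  · intro z
    obtain ⟨j, y, rfl⟩ := hsurj z
    rw [← (τ j).bc y]
    refine uni_minp (⇑(B * C)) (⇑((τ j).b * (τ j).c)) (fun y => f ⟨j, y⟩) (hinj j) ?_ y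
    intro x
    simp only [Perm.mul_apply]
    rw [hC, hB]
  · intro z hz hcz
    obtain ⟨j, y, rfl⟩ := hsurj z
    rw [hC, hS] at hcz
    rw [hS] at hz
    rw [hA, hC, hC, hA, (τ j).ac_in y hz hcz]
  · intro z hz hcz
    obtain ⟨j, y, rfl⟩ := hsurj z
    rw [hC, hS] at hcz
    rw [hS] at hz
    rw [hA, hC, hS]
    exact (τ j).ac_out y hz hcz
  · intro z hz hcz
    obtain ⟨j, y, rfl⟩ := hsurj z
    rw [hC, hS] at hcz
    rw [hS] at hz
    rw [hA, hC, Ne, hne]
    exact (τ j).ac_ne y hz hcz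

end MPbcd198.M
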